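import Mathlib

set_option autoImplicit false
set_option linter.unusedSectionVars false
set_option linter.unusedVariables false

/-!
# Symmetric designs with the parameters of projective spaces: definitions and first facts
-/

namespace Pool.Agent.N337.MJ

open Finset
open scoped Classical

/-- `th n m = 1 + n + ... + n ^ (m - 1)`. -/
def th (n m : ℕ) : ℕ := ∑ i ∈ range m, n ^ i

@[simp] theorem th_zero (n : ℕ) : th n 0 = 0 := by simp [th]

theorem th_succ (n m : ℕ) : th n (m + 1) = n * th n m + 1 := by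
  unfold th
  rw [Finset.sum_range_succ', Finset.mul_sum]
  simp [pow_succ, mul_comm]

theorem th_succ' (n m : ℕ) : th n (m + 1) = th n m + n ^ m := by
  unfold th
  rw [Finset.sum_range_succ]

theorem th_one (n : ℕ) : th n 1 = 1 := by simp [th]

theorem th_pos (n m : ℕ) : 0 < th n (m + 1) := by rw [th_succ]; omega

variable {V ι : Type} [Fintype V] [Fintype ι]

/-- The sets `B i` are the blocks of a symmetric design on the points `V` with the parameters of
the projective space of dimension `e + 2` and order `n`. -/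
structure Des (n e : ℕ) (B : ι → Finset V) : Prop where
  hn : 2 ≤ n
  ptcard : Fintype.card V = th n (e + 3)
  blcard : Fintype.card ι = th n (e + 3)
  size : ∀ i, (B i).card = th n (e + 2)
  deg : ∀ x, (univ.filter (fun i => x ∈ B i)).card = th n (e + 2)
  pair : ∀ x y, x ≠ y → (univ.filter (fun i => x ∈ B i ∧ y ∈ B i)).card = th n (e + 1)
  inter : ∀ i j, i ≠ j → (B i ∩ B j).card = th n (e + 1)

/-- the blocks containing `S` -/
noncomputable def blk (B : ι → Finset V) (S : Finset V) : Finset ι := univ.filter fun i => S ⊆ B i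

/-- the intersection of the blocks containing `S` -/
noncomputable def cl (B : ι → Finset V) (S : Finset V) : Finset V :=
  univ.filter fun x => ∀ i, S ⊆ B i → x ∈ B i

/-- `x, y` span a line with `n + 1` points -/
def Good (n : ℕ) (B : ι → Finset V) (x y : V) : Prop := (cl B {x, y}).card = n + 1

/-- all lines through `z` have `n + 1` points -/
def Perf (n : ℕ) (B : ι → Finset V) (z : V) : Prop := ∀ y, y ≠ z → Good n B z y

/-- the set of perfect points -/
noncomputable def perf (n : ℕ) (B : ι → Finset V) : Finset V := univ.filter fun z => Perf n B z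

variable {n e : ℕ} {B : ι → Finset V}

@[simp] theorem mem_blk {S : Finset V} {i : ι} : i ∈ blk B S ↔ S ⊆ B i := by simp [blk]

@[simp] theorem mem_cl {S : Finset V} {x : V} : x ∈ cl B S ↔ ∀ i, S ⊆ B i → x ∈ B i := by
  simp [cl]

@[simp] theorem mem_perf {z : V} : z ∈ perf n B ↔ Perf n B z := by simp [perf]

theorem subset_cl (S : Finset V) : S ⊆ cl B S := fun x hx => mem_cl.2 fun _ hi => hi hx

theorem cl_subset {S : Finset V} {i : ι} (h : S ⊆ B i) : cl B S ⊆ B i :=
  fun _ hx => mem_cl.1 hx i h

theorem cl_sub_iff {S : Finset V} {i : ι} : cl B S ⊆ B i ↔ S ⊆ B i :=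
  ⟨fun h => (subset_cl S).trans h, cl_subset⟩

theorem blk_cl (S : Finset V) : blk B (cl B S) = blk B S := by
  ext i; simp only [mem_blk]; exact cl_sub_iff

theorem cl_mono {S T : Finset V} (h : S ⊆ T) : cl B S ⊆ cl B T :=
  fun _ hx => mem_cl.2 fun i hi => mem_cl.1 hx i (h.trans hi)

theorem cl_le {S T : Finset V} (h : S ⊆ cl B T) : cl B S ⊆ cl B T :=
  fun _ hx => mem_cl.2 fun i hi => mem_cl.1 hx i (h.trans (cl_subset hi))

theorem cl_cl (S : Finset V) : cl B (cl B S) = cl B S :=
  Subset.antisymm (cl_le (Subset.refl _)) (subset_cl _)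

theorem cl_congr {S T : Finset V} (h : blk B S = blk B T) : cl B S = cl B T := by
  ext x
  simp only [mem_cl]
  have : ∀ i, S ⊆ B i ↔ T ⊆ B i := fun i => by rw [← mem_blk, ← mem_blk, h]
  simp [this]

theorem blk_anti {S T : Finset V} (h : S ⊆ T) : blk B T ⊆ blk B S := fun i hi =>
  mem_blk.2 (h.trans (mem_blk.1 hi))

/-- **exchange**: if `S ⊆ cl T` and `S` is in as many blocks as `T`, then the closures agree -/
theorem cl_eq_of_card {S T : Finset V} (h : S ⊆ cl B T) (hc : (blk B S).card ≤ (blk B T).card) :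
    cl B S = cl B T := by
  apply cl_congr
  symm
  apply Finset.eq_of_subset_of_card_le _ hc
  rw [← blk_cl T]
  exact blk_anti h

theorem pair_comm' (x y : V) : cl B {x, y} = cl B {y, x} := by
  rw [Finset.pair_comm]

theorem left_mem (x y : V) : x ∈ cl B {x, y} := subset_cl _ (by simp)

theorem right_mem (x y : V) : y ∈ cl B {x, y} := subset_cl _ (by simp)

theorem pair_subset {x y : V} {S : Finset V} : ({x, y} : Finset V) ⊆ S ↔ x ∈ S ∧ y ∈ S := by
  simp [Finset.insert_subset_iff]

theorem triple_subset {x y z : V} {S : Finset V} :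
    ({x, y, z} : Finset V) ⊆ S ↔ x ∈ S ∧ y ∈ S ∧ z ∈ S := by
  simp [Finset.insert_subset_iff]

theorem good_comm {x y : V} : Good n B x y ↔ Good n B y x := by
  unfold Good; rw [pair_comm']

theorem Des.blk_pair (h : Des n e B) {x y : V} (hxy : x ≠ y) :
    (blk B {x, y}).card = th n (e + 1) := by
  rw [← h.pair x y hxy]
  congr 1
  ext i
  simp [pair_subset]

theorem Des.blk_single (h : Des n e B) (x : V) : (blk B {x}).card = th n (e + 2) := by
  rw [← h.deg x]
  congr 1
  ext i
  simp

/-- two points of a line span it -/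
theorem Des.line_eq (h : Des n e B) {x y x' y' : V} (hxy : x ≠ y) (hx : x' ∈ cl B {x, y})
    (hy : y' ∈ cl B {x, y}) (hne : x' ≠ y') : cl B {x', y'} = cl B {x, y} :=
  cl_eq_of_card (pair_subset.2 ⟨hx, hy⟩) (by rw [h.blk_pair hxy, h.blk_pair hne])

/-- a block not containing a line has at most one point on it -/
theorem Des.inter_line (h : Des n e B) {x y : V} (hxy : x ≠ y) {i : ι}
    (hi : i ∉ blk B {x, y}) : (B i ∩ cl B {x, y}).card ≤ 1 := by
  by_contra hc
  push Not at hc
  obtain ⟨a, ha, b, hb, hab⟩ := Finset.one_lt_card.1 hc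
  rw [mem_inter] at ha hb
  apply hi
  rw [← blk_cl, ← h.line_eq hxy ha.2 hb.2 hab, blk_cl, mem_blk, pair_subset]
  exact ⟨ha.1, hb.1⟩

/-- double counting of incidences -/
theorem sum_inter (s : Finset ι) (S : Finset V) :
    ∑ i ∈ s, (B i ∩ S).card = ∑ x ∈ S, (s.filter fun i => x ∈ B i).card := by
  have h1 : ∀ i, (B i ∩ S).card = ∑ x ∈ S, if x ∈ B i then 1 else 0 := by
    intro i
    rw [← Finset.card_filter]
    congr 1
    ext x
    simp [and_comm]
  simp_rw [h1, Finset.card_filter]
  rw [Finset.sum_comm]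

theorem Des.count_line (h : Des n e B) {x y : V} (hxy : x ≠ y) :
    (cl B {x, y}).card * th n (e + 1) +
      ∑ i ∈ univ \ blk B {x, y}, (B i ∩ cl B {x, y}).card = (cl B {x, y}).card * th n (e + 2) := by
  have h1 := sum_inter (B := B) univ (cl B {x, y})
  have h2 : ∑ z ∈ cl B {x, y}, ((univ : Finset ι).filter fun i => z ∈ B i).card =
      (cl B {x, y}).card * th n (e + 2) := by
    rw [Finset.sum_congr rfl (fun z _ => h.deg z)]
    simp
  rw [h2, ← Finset.sum_sdiff (Finset.subset_univ (blk B {x, y}))] at h1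
  rw [← h1, add_comm]
  congr 1
  rw [← h.blk_pair hxy, mul_comm]
  rw [Finset.sum_congr rfl (g := fun _ => (cl B {x, y}).card)]
  · simp
  · intro i hi
    rw [Finset.inter_eq_right.2 (cl_subset (mem_blk.1 hi))]

theorem Des.card_compl_blk (h : Des n e B) {x y : V} (hxy : x ≠ y) :
    (univ \ blk B {x, y}).card = n ^ (e + 1) * (n + 1) := by
  rw [Finset.card_sdiff_of_subset (Finset.subset_univ _), Finset.card_univ, h.blcard,
    h.blk_pair hxy, show e + 3 = (e + 1) + 1 + 1 from rfl, th_succ' n (e + 1 + 1),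
    th_succ' n (e + 1)]
  have h1 : n ^ (e + 1 + 1) = n ^ (e + 1) * n := pow_succ _ _
  rw [h1, Nat.mul_add, Nat.mul_one]
  omega

theorem Des.line_le (h : Des n e B) {x y : V} (hxy : x ≠ y) : (cl B {x, y}).card ≤ n + 1 := by
  have h1 := h.count_line hxy
  have h2 : ∑ i ∈ univ \ blk B {x, y}, (B i ∩ cl B {x, y}).card ≤ (univ \ blk B {x, y}).card := by
    rw [Finset.card_eq_sum_ones]
    exact Finset.sum_le_sum fun i hi => h.inter_line hxy (Finset.mem_sdiff.1 hi).2
  rw [h.card_compl_blk hxy] at h2
  rw [show e + 2 = (e + 1) + 1 from rfl, th_succ' n (e + 1), Nat.mul_add] at h1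
  have h3 : (cl B {x, y}).card * n ^ (e + 1) ≤ (n + 1) * n ^ (e + 1) := by
    rw [mul_comm (n + 1)]
    omega
  exact Nat.le_of_mul_le_mul_right h3 (Nat.pow_pos (by have := h.hn; omega))

/-- a good line meets every block not containing it in exactly one point -/
theorem Des.good_meet (h : Des n e B) {x y : V} (hxy : x ≠ y) (hg : Good n B x y) {i : ι}
    (hi : ¬ (x ∈ B i ∧ y ∈ B i)) : (B i ∩ cl B {x, y}).card = 1 := by
  have hi' : i ∉ blk B {x, y} := by rw [mem_blk, pair_subset]; exact hi
  have h1 := h.count_line hxy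
  have h2 := h.card_compl_blk hxy
  rw [hg, show e + 2 = (e + 1) + 1 from rfl, th_succ' n (e + 1), Nat.mul_add] at h1
  have h3 : ∑ i ∈ univ \ blk B {x, y}, (B i ∩ cl B {x, y}).card = (univ \ blk B {x, y}).card := by
    rw [h2, mul_comm (n ^ (e + 1))]
    omega
  rw [Finset.card_eq_sum_ones] at h3
  exact (Finset.sum_eq_sum_iff_of_le
    (fun i hi => h.inter_line hxy (Finset.mem_sdiff.1 hi).2)).1 h3 i (by simp [hi'])

/-- a good line and a point outside are in exactly `th n e` blocks -/
theorem Des.blk_triple (h : Des n e B) {x y z : V} (hxy : x ≠ y) (hg : Good n B x y)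
    (hz : z ∉ cl B {x, y}) : (blk B {x, y, z}).card = th n e := by
  have h1 := sum_inter (B := B) (blk B {z}) (cl B {x, y})
  have h2 : ∑ p ∈ cl B {x, y}, ((blk B {z}).filter fun i => p ∈ B i).card =
      (n + 1) * th n (e + 1) := by
    rw [← (show (cl B {x, y}).card = n + 1 from hg)]
    rw [← smul_eq_mul, ← Finset.sum_const]
    apply Finset.sum_congr rfl
    intro p hp
    have hpz : z ≠ p := by rintro rfl; exact hz hp
    rw [← h.pair z p hpz]
    congr 1
    ext i
    simp
  have h3 : ∀ i ∈ blk B {z}, (B i ∩ cl B {x, y}).card =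
      1 + (if i ∈ blk B {x, y, z} then n else 0) := by
    intro i hi
    rw [mem_blk, Finset.singleton_subset_iff] at hi
    by_cases hc : x ∈ B i ∧ y ∈ B i
    · rw [if_pos (by rw [mem_blk, triple_subset]; exact ⟨hc.1, hc.2, hi⟩),
        Finset.inter_eq_right.2 (cl_subset (pair_subset.2 hc)), hg, add_comm]
    · rw [if_neg (by rw [mem_blk, triple_subset]; tauto), h.good_meet hxy hg hc]
  rw [h2, Finset.sum_congr rfl h3, Finset.sum_add_distrib, Finset.sum_const, smul_eq_mul,
    mul_one, h.blk_single, ← Finset.sum_filter, Finset.sum_const, smul_eq_mul] at h1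
  have h4 : (blk B {z}).filter (fun i => i ∈ blk B {x, y, z}) = blk B {x, y, z} := by
    ext i
    simp only [mem_filter, mem_blk, triple_subset, Finset.singleton_subset_iff]
    tauto
  rw [h4, show e + 2 = (e + 1) + 1 from rfl, th_succ n (e + 1), th_succ n e] at h1
  have h5 : (blk B {x, y, z}).card * n = th n e * n := by nlinarith
  exact Nat.eq_of_mul_eq_mul_right (by have := h.hn; omega) h5

end Pool.Agent.N337.MJ
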