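import Pool.Agent.N337.MJ.Stm
import Pool.Agent.N367.PPD.Main

set_option autoImplicit false
set_option linter.unusedSectionVars false
set_option linter.unusedVariables false

/-!
# Symmetric designs with the parameters of projective spaces all of whose lines are full:
Desargues' theorem (project MJ of helper337, part DES, by helper833)
-/

namespace Pool.Agent.N337.MJ

open Finset
open scoped Classical

namespace DesP

variable {V ι : Type} [Fintype V] [Fintype ι] {n e : ℕ} {B : ι → Finset V}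

theorem line_in (h : Des n e B) {a b p q : V} (hab : a ≠ b) (hp : p ∈ cl B {a, b})
    (hq : q ∈ cl B {a, b}) (hpq : p ≠ q) {i : ι} (hpi : p ∈ B i) (hqi : q ∈ B i) :
    cl B {a, b} ⊆ B i := by
  rw [← h.line_eq hab hp hq hpq]
  exact cl_subset (pair_subset.2 ⟨hpi, hqi⟩)

theorem third (hn : 2 ≤ n) {x y : V} (hg : Good n B x y) :
    ∃ w ∈ cl B {x, y}, w ≠ x ∧ w ≠ y := by
  by_contra hcon
  push Not at hcon
  have h1 : cl B {x, y} ⊆ {x, y} := by
    intro w hw
    rw [Finset.mem_insert, Finset.mem_singleton]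
    by_cases hx : w = x
    · exact Or.inl hx
    · exact Or.inr (hcon w hw hx)
  have h2 := Finset.card_le_card h1
  have h3 : (cl B {x, y}).card = n + 1 := hg
  have h4 : ({x, y} : Finset V).card ≤ 2 := Finset.card_le_two
  omega

theorem plane_eq (h : Des n (e + 1) B) (hg : ∀ x y, x ≠ y → Good n B x y) {x y z a b c : V}
    (hxy : x ≠ y) (hz : z ∉ cl B {x, y}) (ha : a ∈ cl B {x, y, z}) (hb : b ∈ cl B {x, y, z})
    (hc : c ∈ cl B {x, y, z}) (hab : a ≠ b) (hcab : c ∉ cl B {a, b}) :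
    cl B {a, b, c} = cl B {x, y, z} :=
  cl_eq_of_card (triple_subset.2 ⟨ha, hb, hc⟩) (by
    rw [h.blk_triple hxy (hg x y hxy) hz, h.blk_triple hab (hg a b hab) hcab])

theorem line_sub {x y z a b : V} (ha : a ∈ cl B {x, y, z}) (hb : b ∈ cl B {x, y, z}) :
    cl B {a, b} ⊆ cl B {x, y, z} := cl_le (pair_subset.2 ⟨ha, hb⟩)

/-- two lines of a plane meet -/
theorem lines_meet (h : Des n (e + 1) B) (hg : ∀ x y, x ≠ y → Good n B x y) {x y z a b c d : V}
    (hxy : x ≠ y) (hz : z ∉ cl B {x, y}) (ha : a ∈ cl B {x, y, z}) (hb : b ∈ cl B {x, y, z})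
    (hc : c ∈ cl B {x, y, z}) (hd : d ∈ cl B {x, y, z}) (hab : a ≠ b) (hcd : c ≠ d) :
    ∃ q, q ∈ cl B {a, b} ∧ q ∈ cl B {c, d} := by
  by_cases hcab : c ∈ cl B {a, b}
  · exact ⟨c, hcab, left_mem c d⟩
  have hE := plane_eq h hg hxy hz ha hb hc hab hcab
  -- a block through `c`, `d` not containing the plane
  obtain ⟨i, hi, hi'⟩ : ∃ i, i ∈ blk B {c, d} ∧ i ∉ blk B {a, b, c} := by
    by_contra hcon
    push Not at hcon
    have h1 := Finset.card_le_card (show blk B {c, d} ⊆ blk B {a, b, c} from hcon)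
    rw [h.blk_pair hcd, h.blk_triple hab (hg a b hab) hcab, th_succ' n (e + 1)] at h1
    have h2 : 0 < n ^ (e + 1) := Nat.pow_pos (by have := h.hn; omega)
    omega
  rw [mem_blk, pair_subset] at hi
  rw [mem_blk, triple_subset] at hi'
  have hiab : ¬ (a ∈ B i ∧ b ∈ B i) := fun h1 => hi' ⟨h1.1, h1.2, hi.1⟩
  obtain ⟨q, hq⟩ := Finset.card_eq_one.1 (h.good_meet hab (hg a b hab) hiab)
  have hq' : q ∈ B i ∩ cl B {a, b} := by rw [hq]; exact Finset.mem_singleton_self q
  rw [Finset.mem_inter] at hq'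
  refine ⟨q, hq'.2, ?_⟩
  by_contra hqcd
  have hE2 := plane_eq h hg hxy hz hc hd (line_sub ha hb hq'.2) hcd hqcd
  have h3 : cl B {x, y, z} ⊆ B i := by
    rw [← hE2]
    exact cl_subset (triple_subset.2 ⟨hi.1, hi.2, hq'.1⟩)
  exact hiab ⟨h3 ha, h3 hb⟩

/-- the trace of the line of two points over `u`, `v` -/
theorem trace (h : Des n (e + 1) B) (hg : ∀ x y, x ≠ y → Good n B x y) {z u v c d : V} {i : ι}
    (hz : z ∉ B i) (hu : u ∈ B i) (hv : v ∈ B i) (huv : u ≠ v) (hc : c ∈ cl B {z, u})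
    (hd : d ∈ cl B {z, v}) (hcd : c ≠ d) : ∃ p, p ∈ cl B {c, d} ∧ p ∈ cl B {u, v} := by
  have hzu : z ≠ u := by rintro rfl; exact hz hu
  have hvn : v ∉ cl B {z, u} := fun h1 => hz (line_in h hzu (right_mem z u) h1 huv hu hv
    (left_mem z u))
  have h1 : z ∈ cl B {z, u, v} := subset_cl _ (by simp)
  have h2 : u ∈ cl B {z, u, v} := subset_cl _ (by simp)
  have h3 : v ∈ cl B {z, u, v} := subset_cl _ (by simp)
  exact lines_meet h hg hzu hvn (line_sub h1 h2 hc) (line_sub h1 h3 hd) h2 h3 hcd huv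

/-- **Desargues' theorem** in a plane of a design all of whose lines are full -/
theorem desargues (h : Des n (e + 1) B) (hg : ∀ x y, x ≠ y → Good n B x y) {x y z₀ : V}
    (hxy : x ≠ y) (hz₀ : z₀ ∉ cl B {x, y}) {O : V} {A A' : Fin 3 → V}
    (hO : O ∈ cl B {x, y, z₀}) (hA : ∀ i, A i ∈ cl B {x, y, z₀})
    (hA' : ∀ i, A' i ∈ cl B {x, y, z₀}) (h1 : ∀ i, A i ≠ O ∧ A' i ≠ O ∧ A i ≠ A' i)
    (hl : ∀ i, A' i ∈ cl B {O, A i}) (hdis : ∀ i j, i ≠ j → A j ∉ cl B {O, A i}) :
    ∃ p : Fin 3 → Fin 3 → V, (∀ i j, i ≠ j → p i j ∈ cl B {A i, A j} ∧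
      p i j ∈ cl B {A' i, A' j}) ∧ (p 0 1 ≠ p 0 2 → p 1 2 ∈ cl B {p 0 1, p 0 2}) := by
  have hn := h.hn
  -- a block containing the plane
  obtain ⟨H, hH⟩ : ∃ H, H ∈ blk B {x, y, z₀} := by
    have h2 : 0 < (blk B {x, y, z₀}).card := by
      rw [h.blk_triple hxy (hg x y hxy) hz₀]
      exact th_pos _ _
    exact Finset.card_pos.1 h2
  rw [mem_blk] at hH
  have hEH : cl B {x, y, z₀} ⊆ B H := cl_subset hH
  -- a point outside
  obtain ⟨z, hz⟩ : ∃ z, z ∉ B H := by
    by_contra hcon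
    push Not at hcon
    have h2 : (univ : Finset V) ⊆ B H := fun v _ => hcon v
    have h3 := Finset.card_le_card h2
    rw [Finset.card_univ, h.ptcard, h.size, th_succ' n (e + 1 + 2)] at h3
    have h4 : 0 < n ^ (e + 1 + 2) := Nat.pow_pos (by omega)
    omega
  have hOH : O ∈ B H := hEH hO
  have hOz : O ≠ z := by rintro rfl; exact hz hOH
  obtain ⟨z', hz'l, hz'O, hz'z⟩ := third hn (hg O z hOz)
  have hz' : z' ∉ B H := fun h2 =>
    hz (line_in h hOz (left_mem O z) hz'l hz'O.symm hOH h2 (right_mem O z))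
  have hAH : ∀ i, A i ∈ B H := fun i => hEH (hA i)
  have hA'H : ∀ i, A' i ∈ B H := fun i => hEH (hA' i)
  have hzA : ∀ i, z ≠ A i := fun i h2 => hz (h2 ▸ hAH i)
  have hz'A : ∀ i, z' ≠ A' i := fun i h2 => hz' (h2 ▸ hA'H i)
  -- points of `H` different from `O` are not on the line `O z`
  have hoff : ∀ w, w ∈ B H → w ≠ O → w ∉ cl B {O, z} := fun w hw hwO h2 =>
    hz (line_in h hOz (left_mem O z) h2 hwO.symm hOH hw (right_mem O z))
  -- the points `c i`
  have hcex : ∀ i, ∃ c, c ∈ cl B {z, A i} ∧ c ∈ cl B {z', A' i} := by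
    intro i
    have hAi := hoff (A i) (hAH i) (h1 i).1
    have g1 : O ∈ cl B {O, z, A i} := subset_cl _ (by simp)
    have g2 : z ∈ cl B {O, z, A i} := subset_cl _ (by simp)
    have g3 : A i ∈ cl B {O, z, A i} := subset_cl _ (by simp)
    exact lines_meet h hg hOz hAi g2 g3 (line_sub g1 g2 hz'l) (line_sub g1 g3 (hl i))
      (hzA i) (hz'A i)
  choose c hc hc' using hcex
  have hcH : ∀ i, c i ∉ B H := by
    intro i h2
    have e1 : c i = A i := by
      by_contra hne
      exact hz (line_in h (hzA i) (hc i) (right_mem z (A i)) hne h2 (hAH i) (left_mem z (A i)))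
    have e2 : c i = A' i := by
      by_contra hne
      exact hz' (line_in h (hz'A i) (hc' i) (right_mem z' (A' i)) hne h2 (hA'H i)
        (left_mem z' (A' i)))
    exact (h1 i).2.2 (e1.symm.trans e2)
  have hcz : ∀ i, c i ≠ z := by
    intro i h2
    have h3 := hc' i
    rw [h2] at h3
    have e1 : cl B {z', z} = cl B {z', A' i} :=
      h.line_eq (hz'A i) (left_mem z' (A' i)) h3 hz'z
    have e2 : cl B {z', z} = cl B {O, z} := h.line_eq hOz hz'l (right_mem O z) hz'z
    have h4 : A' i ∈ cl B {O, z} := by rw [← e2, e1]; exact right_mem z' (A' i)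
    exact hoff (A' i) (hA'H i) (h1 i).2.1 h4
  have hAne : ∀ i j, i ≠ j → A i ≠ A j := by
    intro i j hij h2
    apply hdis i j hij
    rw [← h2]
    exact right_mem O (A i)
  have hA'ne : ∀ i j, i ≠ j → A' i ≠ A' j := by
    intro i j hij h2
    apply hdis i j hij
    have e1 : cl B {O, A' i} = cl B {O, A i} :=
      h.line_eq (h1 i).1.symm (left_mem O (A i)) (hl i) (h1 i).2.1.symm
    have e2 : cl B {O, A' j} = cl B {O, A j} :=
      h.line_eq (h1 j).1.symm (left_mem O (A j)) (hl j) (h1 j).2.1.symm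
    rw [← e1, h2, e2]
    exact right_mem O (A j)
  have hcne : ∀ i j, i ≠ j → c i ≠ c j := by
    intro i j hij h2
    have e1 : cl B {z, c i} = cl B {z, A i} :=
      h.line_eq (hzA i) (left_mem z (A i)) (hc i) (hcz i).symm
    have e2 : cl B {z, c j} = cl B {z, A j} :=
      h.line_eq (hzA j) (left_mem z (A j)) (hc j) (hcz j).symm
    have h3 : A j ∈ cl B {z, A i} := by
      rw [← e1, h2, e2]
      exact right_mem z (A j)
    exact hz (line_in h (hzA i) (right_mem z (A i)) h3 (hAne i j hij) (hAH i) (hAH j)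
      (left_mem z (A i)))
  -- the intersections of the sides
  have hpex : ∀ i j, i ≠ j → ∃ p, p ∈ cl B {c i, c j} ∧ p ∈ cl B {A i, A j} ∧
      p ∈ cl B {A' i, A' j} := by
    intro i j hij
    obtain ⟨p, hp1, hp2⟩ := trace h hg hz (hAH i) (hAH j) (hAne i j hij) (hc i) (hc j)
      (hcne i j hij)
    obtain ⟨q, hq1, hq2⟩ := trace h hg hz' (hA'H i) (hA'H j) (hA'ne i j hij) (hc' i) (hc' j)
      (hcne i j hij)
    have hpH : p ∈ B H := cl_subset (pair_subset.2 ⟨hAH i, hAH j⟩) hp2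
    have hqH : q ∈ B H := cl_subset (pair_subset.2 ⟨hA'H i, hA'H j⟩) hq2
    have hpq : p = q := by
      by_contra hne
      exact hcH i (line_in h (hcne i j hij) hp1 hq1 hne hpH hqH (left_mem (c i) (c j)))
    exact ⟨p, hp1, hp2, by rw [hpq]; exact hq2⟩
  have hneV : Nonempty V := ⟨O⟩
  choose! p hp using hpex
  refine ⟨p, fun i j hij => ⟨(hp i j hij).2.1, (hp i j hij).2.2⟩, fun hne => ?_⟩
  have d1 : (0 : Fin 3) ≠ 1 := by decide
  have d2 : (0 : Fin 3) ≠ 2 := by decide
  have d3 : (1 : Fin 3) ≠ 2 := by decide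
  have hpH : ∀ i j, i ≠ j → p i j ∈ B H := fun i j hij =>
    cl_subset (pair_subset.2 ⟨hAH i, hAH j⟩) (hp i j hij).2.1
  -- the points `c i` are not collinear
  have hc2 : c 2 ∉ cl B {c 0, c 1} := by
    intro h2
    have e1 : cl B {c 0, c 2} = cl B {c 0, c 1} :=
      h.line_eq (hcne 0 1 d1) (left_mem (c 0) (c 1)) h2 (hcne 0 2 d2)
    have h3 := (hp 0 2 d2).1
    rw [e1] at h3
    exact hcH 0 (line_in h (hcne 0 1 d1) (hp 0 1 d1).1 h3 hne (hpH 0 1 d1) (hpH 0 2 d2)
      (left_mem (c 0) (c 1)))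
  have g0 : c 0 ∈ cl B {c 0, c 1, c 2} := subset_cl _ (by simp)
  have g1 : c 1 ∈ cl B {c 0, c 1, c 2} := subset_cl _ (by simp)
  have g2 : c 2 ∈ cl B {c 0, c 1, c 2} := subset_cl _ (by simp)
  by_contra hcon
  have e1 := plane_eq h hg (hcne 0 1 d1) hc2 (line_sub g0 g1 (hp 0 1 d1).1)
    (line_sub g0 g2 (hp 0 2 d2).1) (line_sub g1 g2 (hp 1 2 d3).1) hne hcon
  have h3 : cl B {c 0, c 1, c 2} ⊆ B H := by
    rw [← e1]
    exact cl_subset (triple_subset.2 ⟨hpH 0 1 d1, hpH 0 2 d2, hpH 1 2 d3⟩)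
  exact hcH 0 (h3 g0)

/-! ### the projective plane -/

/-- the points of a plane -/
def Pt (E : Finset V) : Type := {p : V // p ∈ E}

/-- the lines of a plane -/
def Ln (B : ι → Finset V) (E : Finset V) : Type :=
  {l : Finset V // ∃ a ∈ E, ∃ b ∈ E, a ≠ b ∧ l = cl B {a, b}}

instance (E : Finset V) : Membership (Pt E) (Ln B E) := ⟨fun l p => p.1 ∈ l.1⟩

theorem mem_def {E : Finset V} (p : Pt E) (l : Ln B E) : p ∈ l ↔ p.1 ∈ l.1 := Iff.rfl

noncomputable instance (E : Finset V) : Fintype (Pt E) :=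
  inferInstanceAs (Fintype {p : V // p ∈ E})

noncomputable instance (E : Finset V) : Fintype (Ln B E) :=
  Fintype.ofInjective (fun l : Ln B E => l.1) Subtype.val_injective

/-- the line through two points of a plane -/
noncomputable def mkL (B : ι → Finset V) {E : Finset V} {p q : Pt E} (hpq : p ≠ q) : Ln B E :=
  ⟨cl B {p.1, q.1}, p.1, p.2, q.1, q.2, fun h => hpq (Subtype.ext h), rfl⟩

theorem mkL_left {E : Finset V} {p q : Pt E} (hpq : p ≠ q) : p ∈ mkL B hpq :=
  left_mem (B := B) p.1 q.1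

theorem mkL_right {E : Finset V} {p q : Pt E} (hpq : p ≠ q) : q ∈ mkL B hpq :=
  right_mem (B := B) p.1 q.1

theorem line_of (h : Des n e B) {E : Finset V} (l : Ln B E) {p q : V} (hp : p ∈ l.1)
    (hq : q ∈ l.1) (hpq : p ≠ q) : l.1 = cl B {p, q} := by
  obtain ⟨l, a, ha, b, hb, hab, rfl⟩ := l
  exact (h.line_eq hab hp hq hpq).symm

open Configuration in
/-- planes are projective planes -/
@[reducible] noncomputable def plane (h : Des n (e + 1) B) (hg : ∀ x y, x ≠ y → Good n B x y) {x y z : V}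
    (hxy : x ≠ y) (hz : z ∉ cl B {x, y}) :
    ProjectivePlane (Pt (cl B {x, y, z})) (Ln B (cl B {x, y, z})) := by
  have gx : x ∈ cl B {x, y, z} := subset_cl _ (by simp)
  have gy : y ∈ cl B {x, y, z} := subset_cl _ (by simp)
  have gz : z ∈ cl B {x, y, z} := subset_cl _ (by simp)
  have hxz : x ≠ z := by rintro rfl; exact hz (left_mem x y)
  have hyz : y ≠ z := by rintro rfl; exact hz (right_mem x y)
  let X : Pt (cl B {x, y, z}) := ⟨x, gx⟩
  let Y : Pt (cl B {x, y, z}) := ⟨y, gy⟩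
  let Z : Pt (cl B {x, y, z}) := ⟨z, gz⟩
  have hXY : X ≠ Y := fun h1 => hxy (congrArg Subtype.val h1)
  have hXZ : X ≠ Z := fun h1 => hxz (congrArg Subtype.val h1)
  have hYZ : Y ≠ Z := fun h1 => hyz (congrArg Subtype.val h1)
  have hmeet : ∀ {l m : Ln B (cl B {x, y, z})}, l ≠ m → ∃ p : Pt (cl B {x, y, z}), p ∈ l ∧ p ∈ m := by
    rintro ⟨l, a, ha, b, hb, hab, rfl⟩ ⟨m, c, hc, d, hd, hcd, rfl⟩ _
    obtain ⟨q, hq1, hq2⟩ := lines_meet h hg hxy hz ha hb hc hd hab hcd
    exact ⟨⟨q, line_sub ha hb hq1⟩, hq1, hq2⟩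
  have hline : ∀ {p q : Pt (cl B {x, y, z})} {l m : Ln B (cl B {x, y, z})},
      p ∈ l → q ∈ l → p ∈ m → q ∈ m → p = q ∨ l = m := by
    intro p q l m h1 h2 h3 h4
    by_cases hpq : p.1 = q.1
    · exact Or.inl (Subtype.ext hpq)
    · right
      apply Subtype.ext
      rw [line_of h l h1 h2 hpq, line_of h m h3 h4 hpq]
  refine
    { exists_point := ?_
      exists_line := ?_
      eq_or_eq := fun h1 h2 h3 h4 => hline h1 h2 h3 h4
      mkPoint := fun hlm => Classical.choose (hmeet hlm)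
      mkPoint_ax := fun hlm => Classical.choose_spec (hmeet hlm)
      mkLine := fun hpq => mkL B hpq
      mkLine_ax := fun hpq => ⟨mkL_left hpq, mkL_right hpq⟩
      exists_config := ?_ }
  · intro l
    by_contra hcon
    push Not at hcon
    have h1 : l.1 = cl B {x, y} := line_of h l (hcon X) (hcon Y) hxy
    have h2 : z ∈ l.1 := hcon Z
    rw [h1] at h2
    exact hz h2
  · intro p
    by_contra hcon
    push Not at hcon
    have h1 : p.1 ∈ cl B {x, y} := hcon (mkL B hXY)
    have h2 : p.1 ∈ cl B {y, z} := hcon (mkL B hYZ)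
    have h3 : p.1 ∈ cl B {x, z} := hcon (mkL B hXZ)
    have h4 : p.1 = y := by
      by_contra hne
      have e1 := h.line_eq hxy (right_mem x y) h1 (Ne.symm hne)
      have e2 := h.line_eq hyz (left_mem y z) h2 (Ne.symm hne)
      apply hz
      rw [← e1, e2]
      exact right_mem y z
    rw [h4] at h3
    have e3 := h.line_eq hxz (left_mem x z) h3 hxy
    apply hz
    rw [e3]
    exact right_mem x z
  · -- the configuration
    obtain ⟨w, hw, hwy, hwz⟩ := third h.hn (hg y z hyz)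
    obtain ⟨v, hv, hvx, hvy⟩ := third h.hn (hg x y hxy)
    have gw : w ∈ cl B {x, y, z} := line_sub gy gz hw
    have gv : v ∈ cl B {x, y, z} := line_sub gx gy hv
    have hwl : w ∉ cl B {x, y} := by
      intro h1
      have e1 := h.line_eq hxy (right_mem x y) h1 (Ne.symm hwy)
      have e2 := h.line_eq hyz (left_mem y z) hw (Ne.symm hwy)
      apply hz
      rw [← e1, e2]
      exact right_mem y z
    have hxw : x ≠ w := by rintro rfl; exact hwl (left_mem x y)
    have hzv : z ≠ v := by rintro rfl; exact hz hv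
    let W : Pt (cl B {x, y, z}) := ⟨w, gw⟩
    let VV : Pt (cl B {x, y, z}) := ⟨v, gv⟩
    have hXW : X ≠ W := fun h1 => hxw (congrArg Subtype.val h1)
    have hZV : Z ≠ VV := fun h1 => hzv (congrArg Subtype.val h1)
    refine ⟨Z, X, Y, mkL B hZV, mkL B hXY, mkL B hXW, ?_, ?_, ?_, ?_, ?_, ?_, ?_, ?_⟩
    · exact hz
    · -- `z` is not on the line `x w`
      intro h1
      have h1' : z ∈ cl B {x, w} := h1
      have e1 := h.line_eq hxw (right_mem x w) h1' hwz
      have e2 := h.line_eq hyz hw (right_mem y z) hwz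
      have h2 : x ∈ cl B {y, z} := by
        rw [← e2, e1]
        exact left_mem x w
      have e3 := h.line_eq hyz h2 (left_mem y z) hxy
      apply hz
      rw [e3]
      exact right_mem y z
    · -- `x` is not on the line `z v`
      intro h1
      have h1' : x ∈ cl B {z, v} := h1
      have e1 := h.line_eq hzv h1' (right_mem z v) hvx.symm
      have e2 := h.line_eq hxy (left_mem x y) hv hvx.symm
      apply hz
      rw [← e2, e1]
      exact left_mem z v
    · exact mkL_left hXY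
    · exact mkL_left hXW
    · -- `y` is not on the line `z v`
      intro h1
      have h1' : y ∈ cl B {z, v} := h1
      have e1 := h.line_eq hzv h1' (right_mem z v) hvy.symm
      have e2 := h.line_eq hxy (right_mem x y) hv hvy.symm
      apply hz
      rw [← e2, e1]
      exact left_mem z v
    · exact mkL_right hXY
    · -- `y` is not on the line `x w`
      intro h1
      have h1' : y ∈ cl B {x, w} := h1
      have e1 := h.line_eq hxw (left_mem x w) h1' hxy
      apply hwl
      rw [e1]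
      exact right_mem x w

open Configuration Configuration.ProjectivePlane Pool.Agent.N367.PPD in
theorem primepow_aux (h : Des n (e + 1) B) (hg : ∀ x y, x ≠ y → Good n B x y) (hn : 3 ≤ n) :
    IsPrimePow n := by
  -- three points which are not collinear
  have hpow : 0 < n ^ (e + 1) := Nat.pow_pos (by omega)
  obtain ⟨x, y, hxy⟩ : ∃ x y : V, x ≠ y := by
    have h1 : 1 < Fintype.card V := by
      rw [h.ptcard]
      have g1 := th_succ n (e + 1 + 2)
      have g2 : 0 < n * th n (e + 1 + 2) := Nat.mul_pos (by omega) (th_pos _ _)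
      have g3 : e + 1 + 3 = e + 1 + 2 + 1 := rfl
      rw [g3]
      omega
    obtain ⟨x, y, hxy⟩ := Fintype.exists_pair_of_one_lt_card h1
    exact ⟨x, y, hxy⟩
  obtain ⟨z, hz⟩ : ∃ z, z ∉ cl B {x, y} := by
    by_contra hcon
    push Not at hcon
    obtain ⟨i, hi⟩ : ∃ i, i ∈ blk B {x, y} := by
      have h2 : 0 < (blk B {x, y}).card := by
        rw [h.blk_pair hxy]
        exact th_pos _ _
      exact Finset.card_pos.1 h2
    rw [mem_blk] at hi
    have h2 : (univ : Finset V) ⊆ B i := fun v _ => cl_subset hi (hcon v)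
    have h3 := Finset.card_le_card h2
    rw [Finset.card_univ, h.ptcard, h.size, th_succ' n (e + 1 + 2)] at h3
    have h4 : 0 < n ^ (e + 1 + 2) := Nat.pow_pos (by omega)
    omega
  let _ := plane h hg hxy hz
  set E := cl B {x, y, z} with hE
  -- the order
  have hord : order (Pt E) (Ln B E) = n := by
    have gx : x ∈ E := subset_cl _ (by simp)
    have gy : y ∈ E := subset_cl _ (by simp)
    let X : Pt E := ⟨x, gx⟩
    let Y : Pt E := ⟨y, gy⟩
    have hXY : X ≠ Y := fun h1 => hxy (congrArg Subtype.val h1)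
    have h1 := card_pts (mkL B hXY)
    have h2 : (pts (mkL B hXY) : Finset (Pt E)).card = (cl B {x, y}).card := by
      refine Finset.card_bij (fun p _ => p.1) ?_ ?_ ?_
      · intro p hp
        rw [mem_pts] at hp
        exact hp
      · intro p _ q _ hpq
        exact Subtype.ext hpq
      · intro v hv
        exact ⟨(⟨v, line_sub gx gy hv⟩ : Pt E), mem_pts.2 hv, rfl⟩
    have h3 : (cl B {x, y}).card = n + 1 := hg x y hxy
    omega
  -- Desargues' theorem
  have hfail : failSet (Pt E) (Ln B E) = ∅ := by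
    rw [Finset.eq_empty_iff_forall_notMem]
    rintro ⟨O, A, A'⟩ ht
    rw [mem_failSet] at ht
    obtain ⟨⟨hp1, ⟨l, hl, hl2⟩, -, -⟩, hno⟩ := ht
    simp only at hp1 hl2 hno
    have hAO : ∀ i, (A i).1 ≠ O.1 := fun i h1 => (hp1 i).1 (Subtype.ext h1)
    have hA'O : ∀ i, (A' i).1 ≠ O.1 := fun i h1 => (hp1 i).2.1 (Subtype.ext h1)
    have hAA' : ∀ i, (A i).1 ≠ (A' i).1 := fun i h1 => (hp1 i).2.2 (Subtype.ext h1)
    have hli : ∀ i, (l i).1 = cl B {O.1, (A i).1} := fun i =>
      line_of h (l i) (hl2 i).1 (hl2 i).2.1 (hAO i).symm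
    have hdis : ∀ i j, i ≠ j → (A j).1 ∉ cl B {O.1, (A i).1} := by
      intro i j hij h1
      apply hij
      apply hl
      apply Subtype.ext
      rw [← hli i] at h1
      rw [hli j]
      exact line_of h (l i) (hl2 i).1 h1 (hAO j).symm
    obtain ⟨p, hp, hp'⟩ := desargues h hg hxy hz (O := O.1) (A := fun i => (A i).1)
      (A' := fun i => (A' i).1) O.2 (fun i => (A i).2) (fun i => (A' i).2)
      (fun i => ⟨hAO i, hA'O i, hAA' i⟩)
      (fun i => by rw [← hli i]; exact (hl2 i).2.2) hdis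
    have hpE : ∀ i j, i ≠ j → p i j ∈ E := fun i j hij =>
      line_sub (A i).2 (A j).2 (hp i j hij).1
    have hAne : ∀ i j, i ≠ j → (A i).1 ≠ (A j).1 := by
      intro i j hij h2
      apply hdis i j hij
      rw [← h2]
      exact right_mem O.1 (A i).1
    have hA'ne : ∀ i j, i ≠ j → (A' i).1 ≠ (A' j).1 := by
      intro i j hij h2
      apply hdis i j hij
      have e1 : cl B {O.1, (A' i).1} = cl B {O.1, (A i).1} := by
        rw [← hli i]
        exact (line_of h (l i) (hl2 i).1 (hl2 i).2.2 (hA'O i).symm).symm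
      have e2 : cl B {O.1, (A' j).1} = cl B {O.1, (A j).1} := by
        rw [← hli j]
        exact (line_of h (l j) (hl2 j).1 (hl2 j).2.2 (hA'O j).symm).symm
      rw [← e1, h2, e2]
      exact right_mem O.1 (A j).1
    have hmeet : ∀ (a : Ln B E) (i j : Fin 3), i ≠ j → p i j ∈ a.1 → Meet a A A' i j := by
      intro a i j hij ha
      refine ⟨⟨p i j, hpE i j hij⟩, ha, ?_, ?_⟩
      · intro m h1 h2
        change p i j ∈ m.1
        rw [line_of h m h1 h2 (hAne i j hij)]
        exact (hp i j hij).1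
      · intro m h1 h2
        change p i j ∈ m.1
        rw [line_of h m h1 h2 (hA'ne i j hij)]
        exact (hp i j hij).2
    have d1 : (0 : Fin 3) ≠ 1 := by decide
    have d2 : (0 : Fin 3) ≠ 2 := by decide
    have d3 : (1 : Fin 3) ≠ 2 := by decide
    -- a line through two points
    have hany : ∀ q r : V, q ∈ E → r ∈ E → ∃ a : Ln B E, q ∈ a.1 ∧ r ∈ a.1 := by
      intro q r hq hr
      by_cases hqr : q = r
      · have gx : x ∈ E := subset_cl _ (by simp)
        have gy : y ∈ E := subset_cl _ (by simp)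
        by_cases hqx : q = x
        · refine ⟨⟨cl B {q, y}, q, hq, y, gy, by rw [hqx]; exact hxy, rfl⟩, left_mem q y, ?_⟩
          rw [← hqr]
          exact left_mem q y
        · refine ⟨⟨cl B {q, x}, q, hq, x, gx, hqx, rfl⟩, left_mem q x, ?_⟩
          rw [← hqr]
          exact left_mem q x
      · exact ⟨⟨cl B {q, r}, q, hq, r, hr, hqr, rfl⟩, left_mem q r, right_mem q r⟩
    apply hno
    by_cases hne : p 0 1 = p 0 2
    · obtain ⟨a, ha1, ha2⟩ := hany (p 0 1) (p 1 2) (hpE 0 1 d1) (hpE 1 2 d3)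
      exact ⟨a, hmeet a 0 1 d1 ha1, hmeet a 0 2 d2 (hne ▸ ha1), hmeet a 1 2 d3 ha2⟩
    · refine ⟨⟨cl B {p 0 1, p 0 2}, p 0 1, hpE 0 1 d1, p 0 2, hpE 0 2 d2, hne, rfl⟩, ?_, ?_, ?_⟩
      · exact hmeet _ 0 1 d1 (left_mem (p 0 1) (p 0 2))
      · exact hmeet _ 0 2 d2 (right_mem (p 0 1) (p 0 2))
      · exact hmeet _ 1 2 d3 (hp' hne)
  have hmain := Pool.Agent.N367.PPD.main (P := Pt E) (L := Ln B E) (by rw [hord]; exact hn)
  rw [hord, hfail] at hmain
  rcases hmain with h1 | h1
  · exact h1.2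
  · rw [Finset.card_empty, mul_zero] at h1
    have : 0 < n ^ 10 := Nat.pow_pos (by omega)
    omega

end DesP

/-- **MJ/DES.** -/
theorem primepow : StDes := by
  intro V ι _ _ n e B h hp
  have hg : ∀ x y, x ≠ y → Good n B x y := fun x y hxy => hp x y hxy.symm
  have hn := h.hn
  by_cases h3 : 3 ≤ n
  · exact DesP.primepow_aux h hg h3
  · have : n = 2 := by omega
    rw [this]
    exact Nat.prime_two.isPrimePow

end Pool.Agent.N337.MJ
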