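import Pool.Agent.N337.MJ.Stm

set_option autoImplicit false
set_option linter.unusedSectionVars false
set_option linter.unusedVariables false

/-! A point on a short line has at least `n (n + 2)` partners on short lines. -/

namespace Pool.Agent.N337.MJ

open Finset
open scoped Classical

namespace FewP

variable {V ι : Type} [Fintype V] [Fintype ι] {n e : ℕ} {B : ι → Finset V}

/-- the good partners -/
noncomputable def PP (n : ℕ) (B : ι → Finset V) (u : V) : Finset V :=
  univ.filter fun y => y ≠ u ∧ Good n B u y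

/-- the bad partners -/
noncomputable def XX (n : ℕ) (B : ι → Finset V) (u : V) : Finset V :=
  univ.filter fun y => y ≠ u ∧ ¬ Good n B u y

/-- the good lines -/
noncomputable def GG (n : ℕ) (B : ι → Finset V) (u : V) : Finset (Finset V) :=
  (PP n B u).image fun y => cl B {u, y}

lemma mem_PP {u y : V} : y ∈ PP n B u ↔ y ≠ u ∧ Good n B u y := by simp [PP]

lemma mem_XX {u y : V} : y ∈ XX n B u ↔ y ≠ u ∧ ¬ Good n B u y := by simp [XX]

/-- number of good lines in a set -/
noncomputable def gn (n : ℕ) (B : ι → Finset V) (u : V) (S : Finset V) : ℕ :=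
  ((GG n B u).filter fun L => L ⊆ S).card

lemma card_PP (h : Des n (e + 1) B) (u : V) (S : Finset V)
    (hS : ∀ y ∈ S, y ≠ u → Good n B u y → cl B {u, y} ⊆ S) :
    (S ∩ PP n B u).card = n * gn n B u S := by
  have h1 : ∀ y ∈ S ∩ PP n B u, cl B {u, y} ∈ (GG n B u).filter fun L => L ⊆ S := by
    intro y hy
    rw [mem_inter, mem_PP] at hy
    rw [mem_filter]
    exact ⟨mem_image_of_mem _ (mem_PP.2 hy.2), hS y hy.1 hy.2.1 hy.2.2⟩
  rw [card_eq_sum_card_fiberwise h1, gn, mul_comm, ← smul_eq_mul, ← sum_const]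
  refine sum_congr rfl fun L hL => ?_
  rw [mem_filter, GG, mem_image] at hL
  obtain ⟨⟨y, hy, rfl⟩, hLS⟩ := hL
  rw [mem_PP] at hy
  have h2 : (S ∩ PP n B u).filter (fun z => cl B {u, z} = cl B {u, y}) =
      (cl B {u, y}).erase u := by
    ext z
    rw [mem_filter, mem_inter, mem_PP, mem_erase]
    constructor
    · rintro ⟨⟨h3, h4, h5⟩, h6⟩
      refine ⟨h4, ?_⟩
      rw [← h6]
      exact right_mem u z
    · rintro ⟨h3, h4⟩
      have h5 : cl B {u, z} = cl B {u, y} := h.line_eq (Ne.symm hy.1) (left_mem u y) h4 (Ne.symm h3)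
      refine ⟨⟨hLS h4, h3, ?_⟩, h5⟩
      show (cl B {u, z}).card = n + 1
      rw [h5]
      exact hy.2
  rw [h2, card_erase_of_mem (left_mem u y)]
  have h3 : (cl B {u, y}).card = n + 1 := hy.2
  rw [h3]
  rfl

lemma card_split (h : Des n (e + 1) B) (u : V) (S : Finset V) (hu : u ∈ S)
    (hS : ∀ y ∈ S, y ≠ u → Good n B u y → cl B {u, y} ⊆ S) :
    S.card = 1 + n * gn n B u S + (S ∩ XX n B u).card := by
  have h1 : S = {u} ∪ (S ∩ PP n B u) ∪ (S ∩ XX n B u) := by
    ext y
    rw [mem_union, mem_union, mem_singleton, mem_inter, mem_inter, mem_PP, mem_XX]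
    constructor
    · intro hy
      tauto
    · rintro ((rfl | h) | h)
      · exact hu
      · exact h.1
      · exact h.1
  have h2 : Disjoint ({u} ∪ (S ∩ PP n B u)) (S ∩ XX n B u) := by
    rw [disjoint_left]
    intro y hy hy2
    rw [mem_union, mem_singleton, mem_inter, mem_PP] at hy
    rw [mem_inter, mem_XX] at hy2
    tauto
  have h3 : Disjoint {u} (S ∩ PP n B u) := by
    rw [disjoint_left]
    intro y hy hy2
    rw [mem_singleton] at hy
    rw [mem_inter, mem_PP] at hy2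
    tauto
  conv_lhs => rw [h1]
  rw [card_union_of_disjoint h2, card_union_of_disjoint h3, card_singleton, card_PP h u S hS]

lemma closed_blk {u : V} {i : ι} (hu : u ∈ B i) : ∀ y ∈ B i, y ≠ u → Good n B u y →
    cl B {u, y} ⊆ B i := fun y hy _ _ => cl_subset (pair_subset.2 ⟨hu, hy⟩)

lemma sum_gn (h : Des n (e + 1) B) (u : V) :
    ∑ i ∈ blk B {u}, gn n B u (B i) = (GG n B u).card * th n (e + 2) := by
  have h1 : ∀ i, gn n B u (B i) = ∑ L ∈ GG n B u, if L ⊆ B i then 1 else 0 := by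
    intro i
    rw [gn, card_filter]
  simp_rw [h1]
  rw [sum_comm, ← smul_eq_mul, ← sum_const]
  refine sum_congr rfl fun L hL => ?_
  rw [GG, mem_image] at hL
  obtain ⟨y, hy, rfl⟩ := hL
  rw [mem_PP] at hy
  rw [← card_filter, ← h.blk_pair (Ne.symm hy.1)]
  congr 1
  ext i
  rw [mem_filter, mem_blk, mem_blk, cl_sub_iff, pair_subset, singleton_subset_iff]
  tauto

lemma sum_gn_sq (h : Des n (e + 1) B) (u : V) :
    ∑ i ∈ blk B {u}, (gn n B u (B i)) ^ 2 =
      (GG n B u).card * (th n (e + 2) + ((GG n B u).card - 1) * th n (e + 1)) := by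
  have h1 : ∀ i, (gn n B u (B i)) ^ 2 = ∑ L ∈ GG n B u, ∑ M ∈ GG n B u,
      if L ⊆ B i ∧ M ⊆ B i then 1 else 0 := by
    intro i
    have h2 : gn n B u (B i) = ∑ L ∈ GG n B u, if L ⊆ B i then 1 else 0 := by
      rw [gn, card_filter]
    rw [pow_two, h2, sum_mul_sum]
    refine sum_congr rfl fun L _ => sum_congr rfl fun M _ => ?_
    by_cases h3 : L ⊆ B i <;> by_cases h4 : M ⊆ B i <;> simp [h3, h4]
  simp_rw [h1]
  rw [sum_comm, ← smul_eq_mul, ← sum_const]
  refine sum_congr rfl fun L hL => ?_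
  rw [sum_comm]
  have hL' := hL
  rw [GG, mem_image] at hL'
  obtain ⟨y, hy, rfl⟩ := hL'
  rw [mem_PP] at hy
  rw [← add_sum_erase _ _ hL]
  congr 1
  · rw [← card_filter, ← h.blk_pair (Ne.symm hy.1)]
    congr 1
    ext i
    rw [mem_filter, mem_blk, mem_blk, cl_sub_iff, pair_subset, singleton_subset_iff]
    tauto
  · rw [← card_erase_of_mem hL, ← smul_eq_mul, ← sum_const]
    refine sum_congr rfl fun M hM => ?_
    rw [mem_erase, GG, mem_image] at hM
    obtain ⟨hMn, z, hz, rfl⟩ := hM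
    rw [mem_PP] at hz
    have hz' : z ∉ cl B {u, y} := by
      intro hz'
      exact hMn (h.line_eq (Ne.symm hy.1) (left_mem u y) hz' (Ne.symm hz.1))
    rw [← card_filter, ← h.blk_triple (Ne.symm hy.1) hy.2 hz']
    congr 1
    ext i
    rw [mem_filter, mem_blk, mem_blk, cl_sub_iff, cl_sub_iff, pair_subset, pair_subset,
      singleton_subset_iff, triple_subset]
    tauto

/-- the number of bad partners in a block is not `n` -/
lemma ne_one (h : Des n (e + 1) B) (u : V) {i : ι} (hu : u ∈ B i) :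
    (B i ∩ XX n B u).card ≠ n := by
  intro hc
  have hn := h.hn
  obtain ⟨y, hy⟩ : (B i ∩ XX n B u).Nonempty := by
    rw [← card_pos]; omega
  have hy' := hy
  rw [mem_inter, mem_XX] at hy'
  obtain ⟨hyi, hyu, hyg⟩ := hy'
  have h1 : ∀ j, u ∈ B j → y ∈ B j → B i ∩ XX n B u ⊆ B j := by
    intro j hj1 hj2
    by_cases hij : i = j
    · subst hij
      exact inter_subset_left
    · have h2 := card_split h u (B i ∩ B j) (mem_inter.2 ⟨hu, hj1⟩) (fun z hz hzu hg =>
        subset_inter (closed_blk hu z (mem_inter.1 hz).1 hzu hg)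
          (closed_blk hj1 z (mem_inter.1 hz).2 hzu hg))
      rw [h.inter i j hij, show e + 1 + 1 = (e + 1) + 1 from rfl, th_succ n (e + 1)] at h2
      have h3 : (B i ∩ B j ∩ XX n B u).card = n * (th n (e + 1) - gn n B u (B i ∩ B j)) := by
        rw [Nat.mul_sub]
        omega
      have h4 : B i ∩ B j ∩ XX n B u ⊆ B i ∩ XX n B u :=
        inter_subset_inter_right inter_subset_left
      have h5 : 0 < (B i ∩ B j ∩ XX n B u).card :=
        card_pos.2 ⟨y, by
          rw [mem_inter, mem_inter]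
          exact ⟨⟨hyi, hj2⟩, (mem_inter.1 hy).2⟩⟩
      have h6 : n ≤ (B i ∩ B j ∩ XX n B u).card := by
        rw [h3] at h5 ⊢
        exact Nat.le_mul_of_pos_right _ (Nat.pos_of_mul_pos_left h5)
      have h7 : B i ∩ B j ∩ XX n B u = B i ∩ XX n B u :=
        eq_of_subset_of_card_le h4 (by rw [hc]; exact h6)
      rw [← h7]
      exact inter_subset_left.trans inter_subset_right
  have h2 : insert u (B i ∩ XX n B u) ⊆ cl B {u, y} := by
    intro z hz
    rw [mem_insert] at hz
    rcases hz with rfl | hz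
    · exact left_mem _ _
    · rw [mem_cl]
      intro j hj
      rw [pair_subset] at hj
      exact h1 j hj.1 hj.2 hz
  have h3 := card_le_card h2
  rw [card_insert_of_notMem (by rw [mem_inter, mem_XX]; tauto), hc] at h3
  exact hyg (le_antisymm (h.line_le (Ne.symm hyu)) h3)

end FewP

open FewP

theorem few : StFew := by
  intro V ι _ _ n e B h u hu
  have hn := h.hn
  obtain ⟨g, hg⟩ : ∃ g, g = (GG n B u).card := ⟨_, rfl⟩
  obtain ⟨ρ, hρ⟩ : ∃ ρ, ρ = th n (e + 1) := ⟨_, rfl⟩
  obtain ⟨l, hl⟩ : ∃ l, l = th n (e + 2) := ⟨_, rfl⟩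
  obtain ⟨k, hk⟩ : ∃ k, k = th n (e + 3) := ⟨_, rfl⟩
  have hρ0 : 0 < ρ := by rw [hρ]; exact th_pos _ _
  have hl' : l = n * ρ + 1 := by rw [hl, hρ, show e + 2 = (e + 1) + 1 from rfl, th_succ]
  have hk' : k = n * l + 1 := by rw [hk, hl, show e + 3 = (e + 2) + 1 from rfl, th_succ]
  -- the number of bad partners
  have hX : (XX n B u).card + n * g = n * k := by
    have h1 := card_split h u univ (mem_univ u) (fun _ _ _ _ => subset_univ _)
    rw [card_univ, h.ptcard, show e + 1 + 3 = (e + 3) + 1 from rfl, th_succ, univ_inter, ← hk] at h1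
    have h2 : gn n B u univ = g := by
      rw [gn, hg]
      congr 1
      exact filter_true_of_mem fun L _ => subset_univ L
    rw [h2] at h1
    omega
  have hXpos : 0 < (XX n B u).card := by
    rw [card_pos]
    unfold Perf at hu
    push Not at hu
    obtain ⟨y, hy1, hy2⟩ := hu
    exact ⟨y, mem_XX.2 ⟨hy1, hy2⟩⟩
  have hgk : g < k := by
    by_contra hc
    push Not at hc
    have : n * k ≤ n * g := Nat.mul_le_mul_left _ hc
    omega
  obtain ⟨ε, hε⟩ : ∃ ε, k = g + ε := ⟨k - g, by omega⟩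
  have hε0 : 0 < ε := by omega
  have hXε : (XX n B u).card = n * ε := by
    rw [hε, Nat.mul_add] at hX
    omega
  -- each block
  have hblock : ∀ i ∈ blk B {u}, 0 ≤ ((l : ℤ) - gn n B u (B i)) * ((l : ℤ) - gn n B u (B i) - 2) := by
    intro i hi
    rw [mem_blk, singleton_subset_iff] at hi
    have h1 := card_split h u (B i) hi (closed_blk hi)
    rw [h.size, show e + 1 + 2 = (e + 2) + 1 from rfl, th_succ, ← hl] at h1
    have h2 := ne_one h u hi
    have h3 : n * gn n B u (B i) ≤ n * l := by omega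
    have h4 : gn n B u (B i) ≤ l := Nat.le_of_mul_le_mul_left h3 (by omega)
    obtain ⟨a, ha⟩ : ∃ a, l = gn n B u (B i) + a := ⟨l - gn n B u (B i), by omega⟩
    have h5 : a ≠ 1 := by
      rintro rfl
      apply h2
      rw [ha, Nat.mul_add] at h1
      omega
    have h6 : (l : ℤ) - gn n B u (B i) = a := by rw [ha]; push_cast; ring
    rw [h6]
    rcases Nat.lt_or_ge a 2 with h7 | h7
    · have : a = 0 := by omega
      subst this
      simp
    · have : (2 : ℤ) ≤ a := by exact_mod_cast h7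
      exact mul_nonneg (by omega) (by omega)
  have hsum := sum_nonneg hblock
  have hs1 : ∑ i ∈ blk B {u}, ((gn n B u (B i) : ℕ) : ℤ) = g * l := by
    have := sum_gn h u
    rw [← hg, ← hl] at this
    exact_mod_cast this
  have hs2 : ∑ i ∈ blk B {u}, ((gn n B u (B i) : ℕ) : ℤ) ^ 2 = g * (l + (g - 1) * ρ) := by
    have h1 := sum_gn_sq h u
    rw [← hg, ← hl, ← hρ] at h1
    rcases Nat.eq_zero_or_pos g with h0 | h0
    · rw [h0] at h1 ⊢
      rw [zero_mul] at h1
      have h2 : ∑ i ∈ blk B {u}, ((gn n B u (B i) : ℕ) : ℤ) ^ 2 = ((0 : ℕ) : ℤ) := by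
        rw [← h1]; push_cast; rfl
      rw [h2]; simp
    · obtain ⟨g', rfl⟩ : ∃ g', g = g' + 1 := ⟨g - 1, by omega⟩
      rw [Nat.add_sub_cancel] at h1
      have h2 : ∑ i ∈ blk B {u}, ((gn n B u (B i) : ℕ) : ℤ) ^ 2 =
          (((g' + 1) * (l + g' * ρ) : ℕ) : ℤ) := by
        rw [← h1]; push_cast; rfl
      rw [h2]; push_cast; ring
  have hcardk : (blk B {u}).card = k := by rw [h.blk_single, hk]
  have hexp : ∑ i ∈ blk B {u}, ((l : ℤ) - gn n B u (B i)) * ((l : ℤ) - gn n B u (B i) - 2) =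
      k * (l * (l - 2)) - (2 * l - 2) * (g * l) + g * (l + (g - 1) * ρ) := by
    have h1 : ∀ i ∈ blk B {u}, ((l : ℤ) - gn n B u (B i)) * ((l : ℤ) - gn n B u (B i) - 2) =
        (l * (l - 2) : ℤ) - (2 * l - 2) * ((gn n B u (B i) : ℕ) : ℤ) +
          ((gn n B u (B i) : ℕ) : ℤ) ^ 2 := fun i _ => by ring
    rw [sum_congr rfl h1, sum_add_distrib, sum_sub_distrib, ← mul_sum (blk B {u})
      (fun i => ((gn n B u (B i) : ℕ) : ℤ)) (2 * l - 2), hs1, hs2, sum_const,
      hcardk, nsmul_eq_mul]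
  rw [hexp] at hsum
  have hkey : (k * (l * (l - 2)) - (2 * l - 2) * (g * l) + g * (l + (g - 1) * ρ) : ℤ) =
      ε * (ρ * ε - l - ρ) := by
    have e1 : (k : ℤ) = g + ε := by exact_mod_cast hε
    have e2 : (l : ℤ) = n * ρ + 1 := by exact_mod_cast hl'
    have e3 : (g : ℤ) + ε = n * l + 1 := by rw [← e1]; exact_mod_cast hk'
    have e4 : (g : ℤ) = n * l + 1 - ε := by linarith
    rw [e1, e4, e2]
    ring
  rw [hkey] at hsum
  have h1 : (0 : ℤ) ≤ ρ * ε - l - ρ := by
    by_contra hc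
    push Not at hc
    have : (ε : ℤ) * (ρ * ε - l - ρ) < 0 := mul_neg_of_pos_of_neg (by exact_mod_cast hε0) hc
    linarith
  have h2 : n + 2 ≤ ε := by
    by_contra hc
    push Not at hc
    have h3 : ε ≤ n + 1 := by omega
    have h4 : ρ * ε ≤ ρ * (n + 1) := Nat.mul_le_mul_left _ h3
    have h5 : l + ρ ≤ ρ * ε := by
      have : ((l + ρ : ℕ) : ℤ) ≤ ((ρ * ε : ℕ) : ℤ) := by push_cast; linarith
      exact_mod_cast this
    rw [hl'] at h5
    have h6 : ρ * (n + 1) = n * ρ + ρ := by ring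
    omega
  have h3 : (univ.filter fun y => y ≠ u ∧ ¬ Good n B u y).card = n * ε := hXε
  rw [h3]
  exact Nat.mul_le_mul_left _ h2

end Pool.Agent.N337.MJ
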