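import Pool.Agent.N337.MJ.Stm

set_option autoImplicit false

/-! MJ/NUC: few nuclei of a set of `n + 1` points in a projective plane of order `n` -/

namespace Pool.Agent.N337.MJ

open Finset
open scoped Classical

namespace Nuc

/-- a projective plane of order `n` -/
structure Pl {V : Type} (n : ℕ) (E : Finset V) (ln : V → V → Finset V) : Prop where
  n2 : 2 ≤ n
  cE : E.card = n * n + n + 1
  h1 : ∀ x ∈ E, ∀ y ∈ E, x ≠ y → x ∈ ln x y ∧ y ∈ ln x y ∧ ln x y ⊆ E ∧ (ln x y).card = n + 1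
  h2 : ∀ x ∈ E, ∀ y ∈ E, x ≠ y → ∀ x' ∈ ln x y, ∀ y' ∈ ln x y, x' ≠ y' → ln x' y' = ln x y

variable {V : Type} {n : ℕ} {E : Finset V} {ln : V → V → Finset V}

lemma Pl.symm (h : Pl n E ln) {x y : V} (hx : x ∈ E) (hy : y ∈ E) (hxy : x ≠ y) :
    ln y x = ln x y :=
  h.h2 x hx y hy hxy y (h.h1 x hx y hy hxy).2.1 x (h.h1 x hx y hy hxy).1 hxy.symm

lemma Pl.through (h : Pl n E ln) {t : V} (ht : t ∈ E) (L : Finset (Finset V))
    (hL : ∀ l ∈ L, ∃ y ∈ E, t ≠ y ∧ l = ln t y) : L.card ≤ n + 1 := by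
  have hd : ∀ l ∈ L, ∀ l' ∈ L, l ≠ l' → Disjoint (l.erase t) (l'.erase t) := by
    intro l hl l' hl' hne
    rw [Finset.disjoint_left]
    intro z hz hz'
    obtain ⟨y, hy, hty, rfl⟩ := hL l hl
    obtain ⟨y', hy', hty', rfl⟩ := hL l' hl'
    rw [mem_erase] at hz hz'
    apply hne
    have e1 := h.h2 t ht y hy hty t (h.h1 t ht y hy hty).1 z hz.2 (Ne.symm hz.1)
    have e2 := h.h2 t ht y' hy' hty' t (h.h1 t ht y' hy' hty').1 z hz'.2 (Ne.symm hz'.1)
    rw [← e1, ← e2]
  have h3 : (L.biUnion fun l => l.erase t).card = L.card * n := by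
    rw [card_biUnion hd, sum_const_nat]
    intro l hl
    obtain ⟨y, hy, hty, rfl⟩ := hL l hl
    rw [card_erase_of_mem (h.h1 t ht y hy hty).1, (h.h1 t ht y hy hty).2.2.2]
    rfl
  have h4 : (L.biUnion fun l => l.erase t) ⊆ E.erase t := by
    intro z hz
    rw [mem_biUnion] at hz
    obtain ⟨l, hl, hz⟩ := hz
    obtain ⟨y, hy, hty, rfl⟩ := hL l hl
    exact erase_subset_erase t (h.h1 t ht y hy hty).2.2.1 hz
  have h5 := card_le_card h4
  rw [h3, card_erase_of_mem ht, h.cE] at h5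
  have h6 : n * n + n + 1 - 1 = (n + 1) * n := by
    rw [Nat.add_sub_cancel]; ring
  rw [h6] at h5
  exact Nat.le_of_mul_le_mul_right h5 (by have := h.n2; omega)

/-- Cauchy-Schwarz for the fibres of a map -/
lemma cs {A B : Type} [DecidableEq B] (f : A → B) (N : Finset A) :
    N.card ^ 2 ≤ (N.image f).card * ∑ w ∈ N, (N.filter fun w' => f w' = f w).card := by
  have h1 : N.card = ∑ b ∈ N.image f, (N.filter fun w' => f w' = b).card :=
    card_eq_sum_card_image f N
  have h2 : ∑ w ∈ N, (N.filter fun w' => f w' = f w).card =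
      ∑ b ∈ N.image f, (N.filter fun w' => f w' = b).card ^ 2 := by
    rw [← sum_fiberwise_of_maps_to (s := N) (t := N.image f) (g := f)
      (fun w hw => mem_image_of_mem f hw)]
    refine sum_congr rfl fun b _ => ?_
    rw [sum_congr rfl (g := fun _ => (N.filter fun w' => f w' = b).card), sum_const, smul_eq_mul,
      sq]
    intro w hw
    rw [mem_filter] at hw
    rw [hw.2]
  rw [h2]
  conv_lhs => rw [h1]
  exact sq_sum_le_card_mul_sum_sq

/-- the final computation -/
lemma fin {V : Type} (n a ν : ℕ) (ha2 : 2 ≤ a) (han : a ≤ n) (hν : 0 < ν) (T : Finset V)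
    (cT : T.card = n + 1) (l : Finset V) (c0 : (T.filter fun t => t ∈ l).card = a)
    (s τ : V → ℕ) (hA : ∀ t ∈ T, s t + τ t ≤ n + 1) (hτ : ∀ t, 0 < τ t)
    (hs1 : ∀ t ∈ T, n ≤ (a - 1) * s t) (hs2 : ∀ t ∈ T, 2 ≤ s t)
    (hs3 : ∀ t ∈ T, t ∉ l → a ≤ s t) (hone : ∑ t ∈ T, (1 : ℝ) / τ t ≤ 1 + n / ν) :
    ν ^ 2 ≤ n ^ 3 := by
  have hνR : (0 : ℝ) < ν := by exact_mod_cast hν
  have hnR : (2 : ℝ) ≤ n := by exact_mod_cast ha2.trans han
  have haR : (2 : ℝ) ≤ a := by exact_mod_cast ha2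
  have hanR : (a : ℝ) ≤ n := by exact_mod_cast han
  have hτR : ∀ t, (1 : ℝ) ≤ τ t := fun t => by exact_mod_cast hτ t
  have hAR : ∀ t ∈ T, (s t : ℝ) + τ t ≤ n + 1 := fun t ht => by exact_mod_cast hA t ht
  have hs1R : ∀ t ∈ T, (n : ℝ) ≤ (a - 1) * s t := by
    intro t ht
    have h1 : ((a - 1 : ℕ) : ℝ) = (a : ℝ) - 1 := by
      rw [Nat.cast_sub (by omega)]
      simp
    rw [← h1]
    exact_mod_cast hs1 t ht
  -- first bound
  set D : ℝ := (n + 1) * (a - 1) - n with hD
  have hτD : ∀ t ∈ T, (a - 1) * (τ t : ℝ) ≤ D := by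
    intro t ht
    have h1 := hs1R t ht
    have h2 := hAR t ht
    have h3 : (0 : ℝ) ≤ a - 1 := by linarith
    nlinarith
  obtain ⟨t0, ht0⟩ : T.Nonempty := by
    rw [← card_pos, cT]
    omega
  have hDpos : 0 < D := by
    have h1 := hτD t0 ht0
    have h2 := hτR t0
    nlinarith
  have b1 : 1 + (n : ℝ) / D ≤ 1 + n / ν := by
    refine le_trans ?_ hone
    have h1 : ∑ t ∈ T, ((a - 1) / D : ℝ) ≤ ∑ t ∈ T, (1 : ℝ) / τ t := by
      refine sum_le_sum fun t ht => ?_
      have h2 := hτD t ht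
      have h3 : (0 : ℝ) < τ t := lt_of_lt_of_le one_pos (hτR t)
      rw [div_le_div_iff₀ hDpos h3]
      linarith
    refine le_trans (le_of_eq ?_) h1
    rw [sum_const, cT, nsmul_eq_mul]
    push_cast
    field_simp
    rw [hD]
    ring
  have b2 : (ν : ℝ) ≤ D := by
    have h1 : (n : ℝ) / D ≤ n / ν := by linarith
    rw [div_le_div_iff₀ hDpos hνR] at h1
    nlinarith
  have b3 : (ν : ℝ) ≤ n * a := by
    rw [hD] at b2
    nlinarith
  -- second bound
  have c1 : (T.filter fun t => t ∉ l).card = n + 1 - a := by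
    have := card_filter_add_card_filter_not (s := T) (fun t => t ∈ l)
    omega
  have b4 : 1 + (a : ℝ) / (n - 1) ≤ 1 + n / ν := by
    refine le_trans ?_ hone
    rw [← sum_filter_not_add_sum_filter T (fun t => t ∈ l)]
    have hna : (0 : ℝ) < n + 1 - a := by linarith
    have h1 : ∑ t ∈ T.filter (fun t => t ∉ l), (1 / (n + 1 - a) : ℝ) ≤
        ∑ t ∈ T.filter (fun t => t ∉ l), (1 : ℝ) / τ t := by
      refine sum_le_sum fun t ht => ?_
      rw [mem_filter] at ht
      have h2 : (a : ℝ) ≤ s t := by exact_mod_cast hs3 t ht.1 ht.2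
      have h3 := hAR t ht.1
      exact one_div_le_one_div_of_le (lt_of_lt_of_le one_pos (hτR t)) (by linarith)
    have h2 : ∑ t ∈ T.filter (fun t => t ∈ l), (1 / (n - 1) : ℝ) ≤
        ∑ t ∈ T.filter (fun t => t ∈ l), (1 : ℝ) / τ t := by
      refine sum_le_sum fun t ht => ?_
      rw [mem_filter] at ht
      have h2 : (2 : ℝ) ≤ s t := by exact_mod_cast hs2 t ht.1
      have h3 := hAR t ht.1
      exact one_div_le_one_div_of_le (lt_of_lt_of_le one_pos (hτR t)) (by linarith)
    rw [sum_const, c1, nsmul_eq_mul] at h1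
    rw [sum_const, c0, nsmul_eq_mul] at h2
    have h3 : ((n + 1 - a : ℕ) : ℝ) = (n : ℝ) + 1 - a := by
      rw [Nat.cast_sub (by omega)]
      push_cast
      ring
    rw [h3, mul_one_div, div_self hna.ne'] at h1
    rw [mul_one_div] at h2
    linarith
  have b5 : (a : ℝ) * ν ≤ n * (n - 1) := by
    have h1 : (a : ℝ) / (n - 1) ≤ n / ν := by linarith
    rw [div_le_div_iff₀ (by linarith) hνR] at h1
    exact h1
  -- the end
  have hfin : (ν : ℝ) ^ 2 ≤ (n : ℝ) ^ 3 := by
    rcases le_total ((a : ℝ) ^ 2) n with h | h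
    · calc (ν : ℝ) ^ 2 ≤ (n * a) ^ 2 := by gcongr
        _ = (n : ℝ) ^ 2 * a ^ 2 := by ring
        _ ≤ (n : ℝ) ^ 2 * n := by gcongr
        _ = _ := by ring
    · have h1 : (n : ℝ) * ν ^ 2 ≤ n * n ^ 3 := by
        calc (n : ℝ) * (ν : ℝ) ^ 2 ≤ (a : ℝ) ^ 2 * (ν : ℝ) ^ 2 := by gcongr
          _ = ((a : ℝ) * ν) ^ 2 := by ring
          _ ≤ ((n : ℝ) * (n - 1)) ^ 2 := by gcongr
          _ ≤ ((n : ℝ) * n) ^ 2 := by
            have : (0 : ℝ) ≤ n - 1 := by linarith
            gcongr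
            linarith
          _ = _ := by ring
      exact le_of_mul_le_mul_left h1 (by linarith)
  exact_mod_cast hfin

theorem main (h : Pl n E ln) (T : Finset V) (hT : T ⊆ E) (cT : T.card = n + 1)
    (hl : ¬ ∃ x ∈ E, ∃ y ∈ E, x ≠ y ∧ T = ln x y)
    (N : Finset V) (hN : N ⊆ E) (hw : ∀ w ∈ N, w ∉ T ∧ ∀ t ∈ T, ln w t ∩ T = {t}) :
    N.card ^ 2 ≤ n ^ 3 := by
  have hn2 := h.n2
  rcases N.eq_empty_or_nonempty with rfl | hne
  · simp
  have hν : 0 < N.card := hne.card_pos
  -- tangents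
  have hwt : ∀ w ∈ N, ∀ t ∈ T, t ≠ w := fun w hwN t ht e => (hw w hwN).1 (e ▸ ht)
  have htan : ∀ w ∈ N, ∀ t ∈ T, ln t w ∩ T = {t} := by
    intro w hwN t ht
    rw [h.symm (hN hwN) (hT ht) (hwt w hwN t ht).symm]
    exact (hw w hwN).2 t ht
  set sec : V → Finset (Finset V) := fun t => (T.erase t).image fun t' => ln t t' with hsec
  set tan : V → Finset (Finset V) := fun t => N.image fun w => ln t w with htan'
  have hdisj : ∀ t ∈ T, Disjoint (sec t) (tan t) := by
    intro t ht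
    rw [Finset.disjoint_left]
    intro l h1 h2
    rw [hsec, mem_image] at h1
    rw [htan', mem_image] at h2
    obtain ⟨t', ht', rfl⟩ := h1
    obtain ⟨w, hwN, e⟩ := h2
    rw [mem_erase] at ht'
    have h3 : t' ∈ ln t w ∩ T := by
      rw [mem_inter]
      refine ⟨?_, ht'.2⟩
      have e' : ln t w = ln t t' := e
      rw [e']
      exact (h.h1 t (hT ht) t' (hT ht'.2) (Ne.symm ht'.1)).2.1
    rw [htan w hwN t ht, mem_singleton] at h3
    exact ht'.1 h3
  have hA : ∀ t ∈ T, (sec t).card + (tan t).card ≤ n + 1 := by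
    intro t ht
    rw [← card_union_of_disjoint (hdisj t ht)]
    apply h.through (hT ht)
    intro l hl'
    rw [mem_union] at hl'
    rcases hl' with h1 | h1
    · rw [hsec, mem_image] at h1
      obtain ⟨t', ht', rfl⟩ := h1
      rw [mem_erase] at ht'
      exact ⟨t', hT ht'.2, Ne.symm ht'.1, rfl⟩
    · rw [htan', mem_image] at h1
      obtain ⟨w, hwN, rfl⟩ := h1
      exact ⟨w, hN hwN, hwt w hwN t ht, rfl⟩
  have hτ : ∀ t, 0 < (tan t).card := fun t => (hne.image _).card_pos
  -- (1)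
  have hP : ∑ t ∈ T, ∑ w ∈ N, (N.filter fun w' => ln t w' = ln t w).card ≤
      N.card * (n + N.card) := by
    have h1 : ∑ t ∈ T, ∑ w ∈ N, (N.filter fun w' => ln t w' = ln t w).card =
        ∑ w ∈ N, ∑ w' ∈ N, (T.filter fun t => ln t w' = ln t w).card := by
      rw [sum_comm]
      refine sum_congr rfl fun w _ => ?_
      simp only [card_filter]
      rw [sum_comm]
    rw [h1]
    have h2 : ∀ w ∈ N, ∑ w' ∈ N, (T.filter fun t => ln t w' = ln t w).card ≤ n + N.card := by
      intro w hwN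
      rw [← add_sum_erase N _ hwN]
      have h3 : (T.filter fun t => ln t w = ln t w).card = n + 1 := by
        rw [filter_true_of_mem fun _ _ => rfl, cT]
      have h4 : ∑ w' ∈ N.erase w, (T.filter fun t => ln t w' = ln t w).card ≤
          ∑ w' ∈ N.erase w, 1 := by
        refine sum_le_sum fun w' hw' => ?_
        rw [mem_erase] at hw'
        rw [card_le_one]
        intro t ht t' ht'
        rw [mem_filter] at ht ht'
        by_contra hne'
        -- `t, t'` are both on the line `w w'`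
        have hwE := hN hwN
        have hw'E := hN hw'.2
        have key : ∀ s ∈ T, ln s w' = ln s w → s ∈ ln w w' ∧ ln s w = ln w w' := by
          intro s hs hse
          have a1 := (h.h1 s (hT hs) w hwE (hwt w hwN s hs)).2.1
          have a2 := (h.h1 s (hT hs) w' hw'E (hwt w' hw'.2 s hs)).2.1
          rw [hse] at a2
          have a3 := h.h2 s (hT hs) w hwE (hwt w hwN s hs) w a1 w' a2 (Ne.symm hw'.1)
          rw [a3]
          exact ⟨(h.h1 s (hT hs) w hwE (hwt w hwN s hs)).1, rfl⟩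
        obtain ⟨b1, b2⟩ := key t ht.1 ht.2
        obtain ⟨b3, b4⟩ := key t' ht'.1 ht'.2
        have b5 : t' ∈ ln t w ∩ T := by
          rw [mem_inter, b2]
          exact ⟨b3, ht'.1⟩
        rw [htan w hwN t ht.1, mem_singleton] at b5
        exact hne' b5.symm
      rw [sum_const, smul_eq_mul, mul_one, card_erase_of_mem hwN] at h4
      rw [h3]
      omega
    calc _ ≤ ∑ w ∈ N, (n + N.card) := sum_le_sum h2
      _ = _ := by rw [sum_const, smul_eq_mul]
  have hone : ∑ t ∈ T, (1 : ℝ) / (tan t).card ≤ 1 + n / N.card := by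
    have hνR : (0 : ℝ) < N.card := by exact_mod_cast hν
    have h1 : ∀ t ∈ T, (N.card : ℝ) ^ 2 * (1 / (tan t).card) ≤
        ((∑ w ∈ N, (N.filter fun w' => ln t w' = ln t w).card : ℕ) : ℝ) := by
      intro t _
      have h2 : N.card ^ 2 ≤ (tan t).card *
          ∑ w ∈ N, (N.filter fun w' => ln t w' = ln t w).card := cs (fun w => ln t w) N
      have h3 : (0 : ℝ) < (tan t).card := by exact_mod_cast hτ t
      rw [mul_one_div, div_le_iff₀ h3, mul_comm]
      exact_mod_cast h2
    have h2 : (N.card : ℝ) ^ 2 * ∑ t ∈ T, (1 : ℝ) / (tan t).card ≤ N.card * (n + N.card) := by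
      rw [mul_sum]
      refine (sum_le_sum h1).trans ?_
      rw [← Nat.cast_sum]
      exact_mod_cast hP
    have h3 : (N.card : ℝ) * (N.card * ∑ t ∈ T, (1 : ℝ) / (tan t).card) ≤
        N.card * (n + N.card) := by
      calc _ = (N.card : ℝ) ^ 2 * ∑ t ∈ T, (1 : ℝ) / (tan t).card := by ring
        _ ≤ _ := h2
    have h4 := le_of_mul_le_mul_left h3 hνR
    have h5 : (1 : ℝ) + n / N.card = (n + N.card) / N.card := by
      field_simp
      ring
    rw [h5, le_div_iff₀ hνR, mul_comm]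
    exact h4
  -- (2)
  have hoff : (T.offDiag).Nonempty := by
    rw [← card_pos, offDiag_card, cT]
    have : (n + 1) * 2 ≤ (n + 1) * (n + 1) := Nat.mul_le_mul_left _ (by omega)
    omega
  obtain ⟨⟨p, q⟩, hpq, hmax⟩ := exists_max_image T.offDiag
    (fun z => (ln z.1 z.2 ∩ T).card) hoff
  rw [mem_offDiag] at hpq
  simp only at hpq hmax
  obtain ⟨hp, hq, hpqne⟩ := hpq
  set a := (ln p q ∩ T).card with ha
  have hmax' : ∀ t ∈ T, ∀ t' ∈ T, t ≠ t' → (ln t t' ∩ T).card ≤ a := by
    intro t ht t' ht' hne'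
    exact hmax (t, t') (mem_offDiag.mpr ⟨ht, ht', hne'⟩)
  have hpl := h.h1 p (hT hp) q (hT hq) hpqne
  have ha2 : 2 ≤ a := by
    have h1 : ({p, q} : Finset V) ⊆ ln p q ∩ T := by
      intro z hz
      rw [mem_insert, mem_singleton] at hz
      rw [mem_inter]
      rcases hz with rfl | rfl
      · exact ⟨hpl.1, hp⟩
      · exact ⟨hpl.2.1, hq⟩
    have h2 := card_le_card h1
    rwa [card_pair hpqne] at h2
  have han : a ≤ n := by
    by_contra hc
    have h1 : T ⊆ ln p q := by
      have h2 : ln p q ∩ T = T := by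
        apply eq_of_subset_of_card_le inter_subset_right
        rw [cT, ← ha]
        omega
      rw [← h2]
      exact inter_subset_left
    have h3 : T = ln p q := eq_of_subset_of_card_le h1 (by rw [cT, hpl.2.2.2])
    exact hl ⟨p, hT hp, q, hT hq, hpqne, h3⟩
  have hs1 : ∀ t ∈ T, n ≤ (a - 1) * (sec t).card := by
    intro t ht
    have h1 : (T.erase t).card ≤ (a - 1) * ((T.erase t).image fun t' => ln t t').card := by
      apply card_le_mul_card_image
      intro l hl'
      rw [mem_image] at hl'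
      obtain ⟨t', ht', rfl⟩ := hl'
      rw [mem_erase] at ht'
      have h2 : ((T.erase t).filter fun x => ln t x = ln t t') ⊆ (ln t t' ∩ T).erase t := by
        intro x hx
        rw [mem_filter, mem_erase] at hx
        rw [mem_erase, mem_inter]
        refine ⟨hx.1.1, ?_, hx.1.2⟩
        rw [← hx.2]
        exact (h.h1 t (hT ht) x (hT hx.1.2) (Ne.symm hx.1.1)).2.1
      have h3 := card_le_card h2
      have h4 : t ∈ ln t t' ∩ T := mem_inter.mpr
        ⟨(h.h1 t (hT ht) t' (hT ht'.2) (Ne.symm ht'.1)).1, ht⟩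
      rw [card_erase_of_mem h4] at h3
      have h5 := hmax' t ht t' ht'.2 (Ne.symm ht'.1)
      omega
    rw [card_erase_of_mem ht, cT] at h1
    simpa using h1
  have hs2 : ∀ t ∈ T, 2 ≤ (sec t).card := by
    intro t ht
    by_contra hc
    have h1 := hs1 t ht
    have h2 : (sec t).card ≤ 1 := by omega
    have h3 : (a - 1) * (sec t).card ≤ (a - 1) * 1 := Nat.mul_le_mul_left _ h2
    omega
  have hs3 : ∀ t ∈ T, t ∉ ln p q → a ≤ (sec t).card := by
    intro t ht htl
    have h1 : ((ln p q ∩ T).image fun x => ln t x) ⊆ sec t := by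
      intro l hl'
      rw [mem_image] at hl'
      obtain ⟨x, hx, rfl⟩ := hl'
      rw [mem_inter] at hx
      rw [hsec]
      apply mem_image_of_mem (fun t' => ln t t')
      rw [mem_erase]
      exact ⟨fun e => htl (e ▸ hx.1), hx.2⟩
    have h2 : ((ln p q ∩ T).image fun x => ln t x).card = a := by
      rw [card_image_of_injOn]
      intro x hx y hy hxy
      rw [mem_coe, mem_inter] at hx hy
      by_contra hne'
      have hxt : t ≠ x := fun e => htl (e ▸ hx.1)
      have hyt : t ≠ y := fun e => htl (e ▸ hy.1)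
      have e1 := h.h2 p (hT hp) q (hT hq) hpqne x hx.1 y hy.1 hne'
      have b1 := h.h1 t (hT ht) x (hT hx.2) hxt
      have b2 := h.h1 t (hT ht) y (hT hy.2) hyt
      have hxy' : ln t x = ln t y := hxy
      have b3 : y ∈ ln t x := by rw [hxy']; exact b2.2.1
      have e2 := h.h2 t (hT ht) x (hT hx.2) hxt x b1.2.1 y b3 hne'
      apply htl
      rw [← e1, e2]
      exact b1.1
    rw [← h2]
    exact card_le_card h1
  -- (3)
  exact fin n a N.card ha2 han hν T cT (ln p q) (by rw [filter_mem_eq_inter, inter_comm])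
    (fun t => (sec t).card) (fun t => (tan t).card) hA hτ hs1 hs2 hs3 hone

end Nuc

theorem nuc : StNuc := by
  intro V n hn E hE ln h1 h2 T hT cT hl N hN hw
  exact Nuc.main ⟨hn, hE, h1, h2⟩ T hT cT hl N hN hw

end Pool.Agent.N337.MJ
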