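import Pool.Agent.N337.MJ.Stm

set_option autoImplicit false
set_option linter.unusedSectionVars false
set_option linter.unusedVariables false

/-! Statements of further leaves of project MJ (dimension three: sharp bound and examples) -/

namespace Pool.Agent.N337.MJ

open Finset
open scoped Classical

/-- MJ/SH3 : file `Pool/Agent/N337/MJ/Sharp.lean`, theorem `sharp3`. -/
def StSharp : Prop := ∀ {V ι : Type} [Fintype V] [Fintype ι] {n : ℕ} {B : ι → Finset V}
    (_ : Des n 1 B) (u : V) (_ : ¬ Perf n B u),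
    2 * n ^ 2 ≤ (univ.filter fun y => y ≠ u ∧ ¬ Good n B u y).card

/-- MJ/PG : file `Pool/Agent/N337/MJ/PGex.lean`, theorem `exPG`. -/
def StPG : Prop := ∀ (q e : ℕ), IsPrimePow q →
    ∃ (V ι : Type) (_ : Fintype V) (_ : Fintype ι) (B : ι → Finset V),
      Des q e B ∧ ∀ z, Perf q B z

/-- MJ/KAN : file `Pool/Agent/N337/MJ/Kan.lean`, theorem `exKan`. -/
def StKan : Prop := ∀ {V ι : Type} [Fintype V] [Fintype ι] {q : ℕ} {B : ι → Finset V}
    (_ : Des q 1 B) (_ : ∀ z, Perf q B z),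
    ∃ B' : ι → Finset V, Des q 1 B' ∧
      (∃ u, (univ.filter fun y => y ≠ u ∧ ¬ Good q B' u y).card = 2 * q ^ 2) ∧
      (univ.filter fun p : V × V => p.1 ≠ p.2 ∧ ¬ Good q B' p.1 p.2).card =
        2 * (q ^ 5 + q ^ 4) ∧
      (perf q B').card + q = q ^ 2 + 1

end Pool.Agent.N337.MJ
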