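import Pool.Agent.N337.MJ.Few
import Pool.Agent.N337.MJ.Stm2

set_option autoImplicit false
set_option linter.unusedSectionVars false
set_option linter.unusedVariables false

/-! In dimension three a point on a short line has at least `2 n ^ 2` partners on short lines. -/

namespace Pool.Agent.N337.MJ

open Finset
open scoped Classical

namespace SharpP

open FewP

variable {V ι : Type} [Fintype V] [Fintype ι] {n : ℕ} {B : ι → Finset V}

lemma th2 (n : ℕ) : th n 2 = n + 1 := by
  rw [show (2 : ℕ) = 1 + 1 from rfl, th_succ, th_one, mul_one]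

lemma th3 (n : ℕ) : th n 3 = n * (n + 1) + 1 := by
  rw [show (3 : ℕ) = 2 + 1 from rfl, th_succ, th2]

lemma gn_sum (u : V) (S : Finset V) :
    gn n B u S = ∑ L ∈ GG n B u, if L ⊆ S then 1 else 0 := by
  rw [gn, card_filter]

lemma mem_GG {u : V} {L : Finset V} :
    L ∈ GG n B u ↔ ∃ z, (z ≠ u ∧ Good n B u z) ∧ cl B {u, z} = L := by
  rw [GG, mem_image]
  simp only [mem_PP]

/-- a bad partner is not on a good line -/
lemma notMem_good (h : Des n 1 B) {u y z : V} (hy : y ∈ XX n B u) (hz : z ≠ u)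
    (hg : Good n B u z) : y ∉ cl B {u, z} := by
  intro hyz
  rw [mem_XX] at hy
  apply hy.2
  have h1 : cl B {u, y} = cl B {u, z} := h.line_eq (Ne.symm hz) (left_mem u z) hyz (Ne.symm hy.1)
  show (cl B {u, y}).card = n + 1
  rw [h1]
  exact hg

lemma blk_u {u : V} {i : ι} : i ∈ blk B {u} ↔ u ∈ B i := by
  rw [mem_blk, singleton_subset_iff]

lemma blk_uy {u y : V} {i : ι} : i ∈ blk B {u, y} ↔ u ∈ B i ∧ y ∈ B i := by
  rw [mem_blk, pair_subset]

lemma one_block (h : Des n 1 B) (u : V) {i : ι} (hi : u ∈ B i) :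
    (B i ∩ XX n B u).card + n * gn n B u (B i) = n * (n + 1) := by
  have h1 := card_split (e := 0) h u (B i) hi (closed_blk hi)
  have h2 : (B i).card = th n 3 := h.size i
  rw [h2, th3] at h1
  omega

lemma two_blocks (h : Des n 1 B) (u : V) {i j : ι} (hij : i ≠ j) (hi : u ∈ B i) (hj : u ∈ B j) :
    (B i ∩ B j ∩ XX n B u).card + n * gn n B u (B i ∩ B j) = n := by
  have h1 := card_split (e := 0) h u (B i ∩ B j) (mem_inter.2 ⟨hi, hj⟩) (fun z hz hzu hg =>
        subset_inter (closed_blk hi z (mem_inter.1 hz).1 hzu hg)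
          (closed_blk hj z (mem_inter.1 hz).2 hzu hg))
  have h2 : (B i ∩ B j).card = th n 2 := h.inter i j hij
  rw [h2, th2] at h1
  omega

lemma gn_le_one (h : Des n 1 B) (u : V) {i j : ι} (hij : i ≠ j) (hi : u ∈ B i) (hj : u ∈ B j) :
    gn n B u (B i ∩ B j) ≤ 1 := by
  have h1 := two_blocks h u hij hi hj
  have hn := h.hn
  by_contra hc
  push Not at hc
  have h2 : n * 2 ≤ n * gn n B u (B i ∩ B j) := Nat.mul_le_mul_left _ hc
  omega

/-- the sum of the numbers of good lines over the blocks through `u` and a bad partner -/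
lemma sum_R (h : Des n 1 B) (u : V) {y : V} (hy : y ∈ XX n B u) :
    ∑ i ∈ blk B {u, y}, gn n B u (B i) = (GG n B u).card := by
  simp_rw [gn_sum]
  rw [sum_comm, card_eq_sum_ones]
  refine sum_congr rfl fun L hL => ?_
  obtain ⟨z, ⟨hz, hg⟩, rfl⟩ := mem_GG.1 hL
  rw [← card_filter]
  have h1 := h.blk_triple (Ne.symm hz) hg (notMem_good h hy hz hg)
  rw [th_one] at h1
  rw [← h1]
  congr 1
  ext i
  rw [mem_filter, blk_uy, mem_blk, cl_sub_iff, pair_subset, triple_subset]
  tauto

/-- the blocks through a good line which is not in `P` -/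
lemma sum_M (h : Des n 1 B) (u : V) {P : ι} {z : V} (hz : z ≠ u) (hg : Good n B u z)
    (hM : ¬ cl B {u, z} ⊆ B P) :
    ∑ i ∈ blk B {u, z}, gn n B u (B P ∩ B i) = gn n B u (B P) := by
  simp_rw [gn_sum]
  rw [sum_comm]
  refine sum_congr rfl fun L hL => ?_
  obtain ⟨z', ⟨hz', hg'⟩, rfl⟩ := mem_GG.1 hL
  by_cases hP : cl B {u, z'} ⊆ B P
  · rw [if_pos hP, ← card_filter]
    have h0 : z' ∉ cl B {u, z} := by
      intro h0
      have h1 : cl B {u, z'} = cl B {u, z} := h.line_eq (Ne.symm hz) (left_mem u z) h0 (Ne.symm hz')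
      exact hM (h1 ▸ hP)
    have h1 := h.blk_triple (Ne.symm hz) hg h0
    rw [th_one] at h1
    rw [← h1]
    congr 1
    ext i
    rw [mem_filter, blk_uy, mem_blk, subset_inter_iff, cl_sub_iff, cl_sub_iff, pair_subset,
      pair_subset, triple_subset]
    rw [cl_sub_iff, pair_subset] at hP
    tauto
  · rw [if_neg hP]
    refine sum_eq_zero fun i _ => ?_
    rw [if_neg]
    intro h1
    exact hP (h1.trans inter_subset_left)

/-- the blocks which meet `P` in no good line -/
noncomputable def NN (n : ℕ) (B : ι → Finset V) (u : V) (P : ι) : Finset ι :=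
  (blk B {u}).filter fun i => i ≠ P ∧ gn n B u (B P ∩ B i) = 0

lemma mem_NN {u : V} {P i : ι} :
    i ∈ NN n B u P ↔ u ∈ B i ∧ i ≠ P ∧ gn n B u (B P ∩ B i) = 0 := by
  rw [NN, mem_filter, blk_u]

/-- the bad points in the intersection with `P` -/
noncomputable def SS (n : ℕ) (B : ι → Finset V) (u : V) (P i : ι) : Finset V :=
  B P ∩ B i ∩ XX n B u

lemma card_SS (h : Des n 1 B) {u : V} {P i : ι} (hP : u ∈ B P) (hi : i ∈ NN n B u P) :
    (SS n B u P i).card = n := by
  rw [mem_NN] at hi
  have h1 := two_blocks h u hi.2.1.symm hP hi.1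
  rw [hi.2.2, mul_zero, add_zero] at h1
  exact h1

lemma SS_sub {u : V} {P i : ι} : SS n B u P i ⊆ B P ∩ XX n B u := by
  intro x hx
  rw [SS, mem_inter, mem_inter] at hx
  rw [mem_inter]
  exact ⟨hx.1.1, hx.2⟩

/-- (b) -/
lemma step_b (h : Des n 1 B) {u : V} {P i : ι} (hP : u ∈ B P) (hgP : gn n B u (B P) + 1 = n)
    (hY : (B P ∩ XX n B u).card = 2 * n) (hi : i ∈ NN n B u P) :
    gn n B u (B i) ≤ ((NN n B u P).filter fun j =>
      SS n B u P j = (B P ∩ XX n B u) \ SS n B u P i).card := by
  have hi' := mem_NN.1 hi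
  have key : ∀ M ∈ (GG n B u).filter (fun L => L ⊆ B i), ∃ j,
      j ∈ (NN n B u P).filter (fun j => SS n B u P j = (B P ∩ XX n B u) \ SS n B u P i) ∧
      B i ∩ B j = M := by
    intro M hM
    rw [mem_filter] at hM
    obtain ⟨hMG, hMi⟩ := hM
    obtain ⟨z, ⟨hz, hg⟩, rfl⟩ := mem_GG.1 hMG
    have hMP : ¬ cl B {u, z} ⊆ B P := by
      intro hMP
      have h1 : cl B {u, z} ∈ (GG n B u).filter fun L => L ⊆ B P ∩ B i :=
        mem_filter.2 ⟨hMG, subset_inter hMP hMi⟩
      have h2 : 0 < gn n B u (B P ∩ B i) := card_pos.2 ⟨_, h1⟩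
      omega
    have h1 := sum_M h u hz hg hMP
    have h2 : (blk B {u, z}).card = n + 1 := by
      rw [h.blk_pair (Ne.symm hz)]
      exact th2 n
    have hne : ∀ j ∈ blk B {u, z}, j ≠ P := by
      rintro j hj rfl
      exact hMP (cl_subset (mem_blk.1 hj))
    have h3 : ((blk B {u, z}).filter fun j => gn n B u (B P ∩ B j) ≠ 0).card ≤
        gn n B u (B P) := by
      rw [← h1, card_filter]
      refine sum_le_sum fun j _ => ?_
      split_ifs with h4
      · omega
      · omega
    have h4 : 1 < ((blk B {u, z}).filter fun j => ¬ gn n B u (B P ∩ B j) ≠ 0).card := by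
      have h5 := card_filter_add_card_filter_not (s := blk B {u, z})
        (fun j => gn n B u (B P ∩ B j) ≠ 0)
      omega
    obtain ⟨j, hj, hji⟩ := exists_mem_ne h4 i
    rw [mem_filter, not_not] at hj
    have hju : u ∈ B j := (blk_uy.1 hj.1).1
    have hjN : j ∈ NN n B u P := mem_NN.2 ⟨hju, hne j hj.1, hj.2⟩
    have hMj : cl B {u, z} ⊆ B j := cl_subset (mem_blk.1 hj.1)
    have hint : B i ∩ B j = cl B {u, z} := by
      symm
      refine eq_of_subset_of_card_le (subset_inter hMi hMj) ?_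
      have h5 : (B i ∩ B j).card = th n 2 := h.inter i j hji.symm
      have h6 : (cl B {u, z}).card = n + 1 := hg
      rw [h5, th2, h6]
    refine ⟨j, mem_filter.2 ⟨hjN, ?_⟩, hint⟩
    refine eq_of_subset_of_card_le ?_ ?_
    · intro x hx
      rw [mem_sdiff]
      refine ⟨SS_sub hx, fun hx2 => ?_⟩
      rw [SS, mem_inter, mem_inter] at hx hx2
      have h5 : x ∈ cl B {u, z} := by
        rw [← hint, mem_inter]
        exact ⟨hx2.1.2, hx.1.2⟩
      exact notMem_good h hx.2 hz hg h5
    · rw [card_sdiff_of_subset SS_sub, hY, card_SS h hP hi, card_SS h hP hjN]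
      omega
  have hne : Nonempty ι := ⟨P⟩
  choose! f hf using key
  rw [gn]
  refine card_le_card_of_injOn f (fun M hM => (hf M hM).1) ?_
  intro M hM M' hM' hMM
  rw [← (hf M hM).2, ← (hf M' hM').2, hMM]

/-- the blocks with a given set of bad points in `P` -/
lemma card_NS (h : Des n 1 B) {u : V} {P : ι} (hP : u ∈ B P) {S : Finset V}
    (hS : S.card = n) (hSY : S ⊆ B P ∩ XX n B u) :
    ((NN n B u P).filter fun j => SS n B u P j = S).card + 1 ≤ n := by
  have hn := h.hn
  obtain ⟨y, hy⟩ : S.Nonempty := by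
    rw [← card_pos]
    omega
  have hyY := mem_inter.1 (hSY hy)
  have hyX := mem_XX.1 hyY.2
  have hcard : ((blk B {u, y}).erase P).card = n := by
    rw [card_erase_of_mem (blk_uy.2 ⟨hP, hyY.1⟩), h.blk_pair (Ne.symm hyX.1), th2]
    rfl
  have hsub : (NN n B u P).filter (fun j => SS n B u P j = S) ⊆ (blk B {u, y}).erase P := by
    intro j hj
    rw [mem_filter, mem_NN] at hj
    rw [mem_erase, blk_uy]
    refine ⟨hj.1.2.1, hj.1.1, ?_⟩
    have h1 : y ∈ SS n B u P j := by rw [hj.2]; exact hy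
    rw [SS, mem_inter, mem_inter] at h1
    exact h1.1.2
  by_contra hc
  push Not at hc
  have heq : (NN n B u P).filter (fun j => SS n B u P j = S) = (blk B {u, y}).erase P :=
    eq_of_subset_of_card_le hsub (by rw [hcard]; omega)
  have h1 : insert u S ⊆ cl B {u, y} := by
    intro x hx
    rw [mem_cl]
    intro j hj
    have hj' := pair_subset.1 hj
    rw [mem_insert] at hx
    rcases hx with rfl | hx
    · exact hj'.1
    · by_cases hjP : j = P
      · rw [hjP]
        exact (mem_inter.1 (hSY hx)).1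
      · have h2 : j ∈ (blk B {u, y}).erase P := mem_erase.2 ⟨hjP, mem_blk.2 hj⟩
        rw [← heq, mem_filter] at h2
        have h3 : x ∈ SS n B u P j := by rw [h2.2]; exact hx
        rw [SS, mem_inter, mem_inter] at h3
        exact h3.1.2
  have h2 := card_le_card h1
  have h3 : u ∉ S := fun h3 => (mem_XX.1 (mem_inter.1 (hSY h3)).2).1 rfl
  rw [card_insert_of_notMem h3, hS] at h2
  exact hyX.2 (le_antisymm (h.line_le (Ne.symm hyX.1)) h2)

/-- the blocks of `N` through `y` -/
lemma filter_NN (h : Des n 1 B) {u : V} {P : ι} (hP : u ∈ B P) {y : V}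
    (hy : y ∈ B P ∩ XX n B u) :
    (NN n B u P).filter (fun j => y ∈ B j) = (blk B {u, y}).erase P := by
  have hy' := mem_inter.1 hy
  have hn := h.hn
  ext j
  rw [mem_filter, mem_NN, mem_erase, blk_uy]
  constructor
  · rintro ⟨⟨h1, h2, h3⟩, h4⟩
    exact ⟨h2, h1, h4⟩
  · rintro ⟨h1, h2, h3⟩
    refine ⟨⟨h2, h1, ?_⟩, h3⟩
    have h4 := two_blocks h u (Ne.symm h1) hP h2
    have h5 : 0 < (B P ∩ B j ∩ XX n B u).card :=
      card_pos.2 ⟨y, mem_inter.2 ⟨mem_inter.2 ⟨hy'.1, h3⟩, hy'.2⟩⟩
    by_contra h6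
    have h7 : n * 1 ≤ n * gn n B u (B P ∩ B j) := Nat.mul_le_mul_left _ (Nat.pos_of_ne_zero h6)
    omega

lemma card_erase_blk (h : Des n 1 B) {u : V} {P : ι} (hP : u ∈ B P) {y : V}
    (hy : y ∈ B P ∩ XX n B u) : ((blk B {u, y}).erase P).card = n := by
  have hy' := mem_inter.1 hy
  rw [card_erase_of_mem (blk_uy.2 ⟨hP, hy'.1⟩), h.blk_pair (Ne.symm (mem_XX.1 hy'.2).1), th2]
  rfl

lemma card_NN (h : Des n 1 B) {u : V} {P : ι} (hP : u ∈ B P)
    (hY : (B P ∩ XX n B u).card = 2 * n) : (NN n B u P).card = 2 * n := by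
  have hn := h.hn
  have h1 := sum_inter (B := B) (NN n B u P) (B P ∩ XX n B u)
  have h2 : ∑ i ∈ NN n B u P, (B i ∩ (B P ∩ XX n B u)).card = (NN n B u P).card * n := by
    rw [← smul_eq_mul, ← sum_const]
    refine sum_congr rfl fun i hi => ?_
    have h5 := card_SS h hP hi
    unfold SS at h5
    rw [← inter_assoc, inter_comm (B i)]
    exact h5
  have h3 : ∑ x ∈ B P ∩ XX n B u, ((NN n B u P).filter fun i => x ∈ B i).card =
      (2 * n) * n := by
    rw [← hY, ← smul_eq_mul, ← sum_const]
    refine sum_congr rfl fun x hx => ?_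
    rw [filter_NN h hP hx, card_erase_blk h hP hx]
  rw [h2, h3] at h1
  exact Nat.eq_of_mul_eq_mul_right (by omega) h1

/-- case 2 -/
lemma case2 (h : Des n 1 B) {u : V} {P : ι} (hP : u ∈ B P) (hgP : gn n B u (B P) + 1 = n) :
    (GG n B u).card + 2 * n ≤ n * (n + 1) + 1 := by
  have hn := h.hn
  have hY : (B P ∩ XX n B u).card = 2 * n := by
    have h1 := one_block h u hP
    have h2 : n * (n + 1) = 2 * n + n * gn n B u (B P) := by
      obtain ⟨a, ha⟩ : ∃ a, a = gn n B u (B P) := ⟨_, rfl⟩
      rw [← ha] at hgP ⊢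
      rw [← hgP]
      ring
    omega
  obtain ⟨y, hy⟩ : (B P ∩ XX n B u).Nonempty := by
    rw [← card_pos]
    omega
  have hy' := mem_inter.1 hy
  set Y := B P ∩ XX n B u with hYdef
  set N := NN n B u P with hN
  set T := (blk B {u, y}).erase P with hT
  have hTN : N.filter (fun j => y ∈ B j) = T := filter_NN h hP hy
  have hTcard : T.card = n := card_erase_blk h hP hy
  have hNcard : N.card = 2 * n := card_NN h hP hY
  have hTsub : T ⊆ N := by
    rw [← hTN]
    exact filter_subset _ _
  have hT'card : (N \ T).card = n := by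
    rw [card_sdiff_of_subset hTsub, hNcard, hTcard]
    omega
  obtain ⟨β, hβ⟩ : ∃ β : ι → ℕ, β = fun i => (N.filter fun j =>
      SS n B u P j = Y \ SS n B u P i).card := ⟨_, rfl⟩
  have hyS : ∀ i ∈ T, y ∈ SS n B u P i := by
    intro i hi
    rw [← hTN, mem_filter] at hi
    rw [SS, mem_inter, mem_inter]
    exact ⟨⟨hy'.1, hi.2⟩, hy'.2⟩
  have hβsub : ∀ i ∈ T, N.filter (fun j => SS n B u P j = Y \ SS n B u P i) ⊆ N \ T := by
    intro i hi j hj
    rw [mem_filter] at hj
    rw [mem_sdiff]
    refine ⟨hj.1, fun hjT => ?_⟩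
    have h1 := hyS j hjT
    rw [hj.2, mem_sdiff] at h1
    exact h1.2 (hyS i hi)
  have hScard : ∀ i ∈ T, (SS n B u P i).card = n := fun i hi => card_SS h hP (hTsub hi)
  have hβle : ∀ i ∈ T, β i + 1 ≤ n := by
    intro i hi
    rw [hβ]
    refine card_NS h hP ?_ sdiff_subset
    rw [card_sdiff_of_subset SS_sub, hY, hScard i hi]
    omega
  have hgβ : ∀ i ∈ T, gn n B u (B i) ≤ β i := by
    intro i hi
    rw [hβ]
    exact step_b h hP hgP hY (hTsub hi)
  -- the sum of the numbers beta
  have hsum : ∑ i ∈ T, β i ≤ (n - 1) * (n - 1) + 1 := by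
    obtain ⟨m, hm⟩ : ∃ m, n = m + 2 := ⟨n - 2, by omega⟩
    by_cases hall : ∀ i ∈ T, β i + 2 ≤ n
    · have h1 : ∑ i ∈ T, β i ≤ T.card * m := by
        rw [← smul_eq_mul, ← sum_const]
        refine sum_le_sum fun i hi => ?_
        have := hall i hi
        omega
      rw [hTcard, hm] at h1
      rw [hm]
      have h2 : (m + 2) * m ≤ (m + 2 - 1) * (m + 2 - 1) + 1 := by
        have : m + 2 - 1 = m + 1 := by omega
        rw [this]
        nlinarith
      exact h1.trans h2
    · push Not at hall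
      obtain ⟨i₀, hi₀, hlt⟩ := hall
      have hβ0 : β i₀ = m + 1 := by
        have := hβle i₀ hi₀
        omega
      have h1 : ∀ i ∈ T, β i ≤ 1 + (if SS n B u P i = SS n B u P i₀ then m else 0) := by
        intro i hi
        split_ifs with hc
        · have := hβle i hi
          omega
        · have hdis : Disjoint (N.filter fun j => SS n B u P j = Y \ SS n B u P i)
              (N.filter fun j => SS n B u P j = Y \ SS n B u P i₀) := by
            rw [disjoint_left]
            intro j hj hj2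
            rw [mem_filter] at hj hj2
            apply hc
            have h2 : Y \ SS n B u P i = Y \ SS n B u P i₀ := hj.2.symm.trans hj2.2
            have h3 : Y \ (Y \ SS n B u P i) = Y \ (Y \ SS n B u P i₀) := by rw [h2]
            rw [Finset.sdiff_sdiff_eq_self (SS_sub : SS n B u P i ⊆ Y),
              Finset.sdiff_sdiff_eq_self (SS_sub : SS n B u P i₀ ⊆ Y)] at h3
            exact h3
          have h2 := card_union_of_disjoint hdis
          have h3 := card_le_card (union_subset (hβsub i hi) (hβsub i₀ hi₀))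
          rw [h2, hT'card] at h3
          have h4 : β i + β i₀ ≤ n := by
            rw [hβ]
            exact h3
          omega
      have h2 : (T.filter fun i => SS n B u P i = SS n B u P i₀).card + 1 ≤ n := by
        have h3 : (N.filter fun j => SS n B u P j = SS n B u P i₀).card + 1 ≤ n :=
          card_NS h hP (hScard i₀ hi₀) SS_sub
        have h4 : T.filter (fun i => SS n B u P i = SS n B u P i₀) ⊆
            N.filter (fun i => SS n B u P i = SS n B u P i₀) :=
          filter_subset_filter _ hTsub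
        have h5 := card_le_card h4
        omega
      have h3 := sum_le_sum h1
      rw [sum_add_distrib, sum_const, hTcard, smul_eq_mul, mul_one, ← sum_filter, sum_const,
        smul_eq_mul] at h3
      obtain ⟨a, ha⟩ : ∃ a, a = (T.filter fun i => SS n B u P i = SS n B u P i₀).card :=
        ⟨_, rfl⟩
      rw [← ha] at h2 h3
      have h4 : a * m ≤ (m + 1) * m := Nat.mul_le_mul_right _ (by omega)
      have h5 : n - 1 = m + 1 := by omega
      rw [h5]
      have h6 : (m + 1) * (m + 1) + 1 = (m + 2) + (m + 1) * m := by ring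
      rw [h6, ← hm]
      omega
  have hR := sum_R h u hy'.2
  have hPR : P ∈ blk B {u, y} := blk_uy.2 ⟨hP, hy'.1⟩
  rw [← add_sum_erase _ _ hPR, ← hT] at hR
  have h1 : ∑ i ∈ T, gn n B u (B i) ≤ ∑ i ∈ T, β i := sum_le_sum hgβ
  obtain ⟨m, hm⟩ : ∃ m, n = m + 2 := ⟨n - 2, by omega⟩
  have h2 : (n - 1) * (n - 1) + 1 = m * m + 2 * m + 2 := by
    rw [hm]
    have : m + 2 - 1 = m + 1 := by omega
    rw [this]
    ring
  have h3 : n * (n + 1) + 1 = m * m + 5 * m + 7 := by
    rw [hm]
    ring
  rw [h2] at hsum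
  rw [h3]
  omega

end SharpP

open FewP SharpP

theorem sharp3 : StSharp := by
  intro V ι _ _ n B h u hu
  have hn := h.hn
  obtain ⟨g, hg⟩ : ∃ g, g = (GG n B u).card := ⟨_, rfl⟩
  obtain ⟨k, hk⟩ : ∃ k, k = n * (n + 1) + 1 := ⟨_, rfl⟩
  -- the number of bad partners
  have hX : (XX n B u).card + n * g = n * k := by
    have h1 := card_split (e := 0) h u univ (mem_univ u) (fun _ _ _ _ => subset_univ _)
    have h0 : Fintype.card V = th n 4 := h.ptcard
    rw [card_univ, h0, show (4 : ℕ) = 3 + 1 from rfl, th_succ, univ_inter, th3, ← hk] at h1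
    have h2 : gn n B u univ = g := by
      rw [gn, hg]
      congr 1
      exact filter_true_of_mem fun L _ => subset_univ L
    rw [h2] at h1
    omega
  have hXpos : 0 < (XX n B u).card := by
    rw [card_pos]
    unfold Perf at hu
    push Not at hu
    obtain ⟨y, hy1, hy2⟩ := hu
    exact ⟨y, mem_XX.2 ⟨hy1, hy2⟩⟩
  have hgk : g < k := by
    by_contra hc
    push Not at hc
    have : n * k ≤ n * g := Nat.mul_le_mul_left _ hc
    omega
  obtain ⟨ε, hε⟩ : ∃ ε, k = g + ε := ⟨k - g, by omega⟩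
  have hε0 : 0 < ε := by omega
  have hXε : (XX n B u).card = n * ε := by
    rw [hε, Nat.mul_add] at hX
    omega
  have hmain : 2 * n ≤ ε := by
    by_cases hex : ∃ P, u ∈ B P ∧ gn n B u (B P) + 1 = n
    · obtain ⟨P, hP, hgP⟩ := hex
      have h1 := case2 h hP hgP
      rw [← hg, ← hk] at h1
      omega
    · push Not at hex
      have hblock : ∀ i ∈ blk B {u}, 0 ≤ ((n : ℤ) + 1 - gn n B u (B i)) *
          ((n : ℤ) + 1 - gn n B u (B i) - 3) := by
        intro i hi
        rw [blk_u] at hi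
        have h1 := one_block h u hi
        have h2 := ne_one (e := 0) h u hi
        have h3 := hex i hi
        have h4 : gn n B u (B i) ≤ n + 1 := by
          have h5 : n * gn n B u (B i) ≤ n * (n + 1) := by omega
          exact Nat.le_of_mul_le_mul_left h5 (by omega)
        obtain ⟨a, ha⟩ : ∃ a, n + 1 = gn n B u (B i) + a := ⟨n + 1 - gn n B u (B i), by omega⟩
        have h5 : a ≠ 1 := by
          rintro rfl
          apply h2
          rw [ha, Nat.mul_add] at h1
          omega
        have h6 : a ≠ 2 := by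
          rintro rfl
          omega
        have h7 : (n : ℤ) + 1 - gn n B u (B i) = a := by
          have : ((n + 1 : ℕ) : ℤ) = ((gn n B u (B i) + a : ℕ) : ℤ) := by rw [ha]
          push_cast at this
          linarith
        rw [h7]
        rcases Nat.lt_or_ge a 3 with h8 | h8
        · have : a = 0 := by omega
          subst this
          simp
        · have : (3 : ℤ) ≤ a := by exact_mod_cast h8
          exact mul_nonneg (by omega) (by omega)
      have hsum := sum_nonneg hblock
      have hs1 : ∑ i ∈ blk B {u}, ((gn n B u (B i) : ℕ) : ℤ) = g * (n + 1) := by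
        have := sum_gn (e := 0) h u
        rw [← hg, show 0 + 2 = 2 from rfl, th2] at this
        exact_mod_cast this
      have hs2 : ∑ i ∈ blk B {u}, ((gn n B u (B i) : ℕ) : ℤ) ^ 2 = g * (n + g) := by
        have h1 := sum_gn_sq (e := 0) h u
        rw [← hg, show 0 + 2 = 2 from rfl, th2, show 0 + 1 = 1 from rfl, th_one, mul_one] at h1
        rcases Nat.eq_zero_or_pos g with h0 | h0
        · rw [h0] at h1 ⊢
          rw [zero_mul] at h1
          have h2 : ∑ i ∈ blk B {u}, ((gn n B u (B i) : ℕ) : ℤ) ^ 2 = ((0 : ℕ) : ℤ) := by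
            rw [← h1]; push_cast; rfl
          rw [h2]; simp
        · obtain ⟨g', rfl⟩ : ∃ g', g = g' + 1 := ⟨g - 1, by omega⟩
          rw [Nat.add_sub_cancel] at h1
          have h2 : ∑ i ∈ blk B {u}, ((gn n B u (B i) : ℕ) : ℤ) ^ 2 =
              (((g' + 1) * (n + 1 + g') : ℕ) : ℤ) := by
            rw [← h1]; push_cast; rfl
          rw [h2]; push_cast; ring
      have hcardk : (blk B {u}).card = k := by
        rw [h.blk_single, hk]
        exact th3 n
      have hexp : ∑ i ∈ blk B {u}, ((n : ℤ) + 1 - gn n B u (B i)) *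
          ((n : ℤ) + 1 - gn n B u (B i) - 3) =
          k * ((n + 1) * (n - 2)) - (2 * n - 1) * (g * (n + 1)) + g * (n + g) := by
        have h1 : ∀ i ∈ blk B {u}, ((n : ℤ) + 1 - gn n B u (B i)) *
            ((n : ℤ) + 1 - gn n B u (B i) - 3) =
            ((n + 1) * (n - 2) : ℤ) - (2 * n - 1) * ((gn n B u (B i) : ℕ) : ℤ) +
              ((gn n B u (B i) : ℕ) : ℤ) ^ 2 := fun i _ => by ring
        rw [sum_congr rfl h1, sum_add_distrib, sum_sub_distrib, ← mul_sum (blk B {u})
          (fun i => ((gn n B u (B i) : ℕ) : ℤ)) (2 * n - 1), hs1, hs2, sum_const,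
          hcardk, nsmul_eq_mul]
      rw [hexp] at hsum
      have hkey : (k * ((n + 1) * (n - 2)) - (2 * n - 1) * (g * (n + 1)) + g * (n + g) : ℤ) =
          ε * (ε - 2 * n - 3) := by
        have e1 : (k : ℤ) = g + ε := by exact_mod_cast hε
        have e2 : (k : ℤ) = n * (n + 1) + 1 := by exact_mod_cast hk
        have e3 : (g : ℤ) = n * (n + 1) + 1 - ε := by linarith
        rw [e2, e3]
        ring
      rw [hkey] at hsum
      by_contra hc
      push Not at hc
      have hc' : (ε : ℤ) < 2 * n := by exact_mod_cast hc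
      have : (ε : ℤ) * (ε - 2 * n - 3) < 0 :=
        mul_neg_of_pos_of_neg (by exact_mod_cast hε0) (by linarith)
      linarith
  have h3 : (univ.filter fun y => y ≠ u ∧ ¬ Good n B u y).card = n * ε := hXε
  rw [h3]
  nlinarith

end Pool.Agent.N337.MJ
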