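import Pool.Agent.N337.MJ.Defs

set_option autoImplicit false
set_option linter.unusedSectionVars false
set_option linter.unusedVariables false

/-! Statements of the leaves of project MJ (to be proved in the files named below) -/

namespace Pool.Agent.N337.MJ

open Finset
open scoped Classical

/-- MJ/NUC : file `Pool/Agent/N337/MJ/Nuc.lean`, theorem `nuc` (same statement). -/
def StNuc : Prop := ∀ {V : Type} (n : ℕ) (_ : 2 ≤ n) (E : Finset V) (_ : E.card = n * n + n + 1)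
    (ln : V → V → Finset V)
    (_ : ∀ x ∈ E, ∀ y ∈ E, x ≠ y → x ∈ ln x y ∧ y ∈ ln x y ∧ ln x y ⊆ E ∧ (ln x y).card = n + 1)
    (_ : ∀ x ∈ E, ∀ y ∈ E, x ≠ y → ∀ x' ∈ ln x y, ∀ y' ∈ ln x y, x' ≠ y' → ln x' y' = ln x y)
    (T : Finset V) (_ : T ⊆ E) (_ : T.card = n + 1)
    (_ : ¬ ∃ x ∈ E, ∃ y ∈ E, x ≠ y ∧ T = ln x y)
    (N : Finset V) (_ : N ⊆ E) (_ : ∀ w ∈ N, w ∉ T ∧ ∀ t ∈ T, ln w t ∩ T = {t}),
    N.card ^ 2 ≤ n ^ 3

/-- MJ/A : file `Pool/Agent/N337/MJ/Few.lean`, theorem `few`. -/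
def StFew : Prop := ∀ {V ι : Type} [Fintype V] [Fintype ι] {n e : ℕ} {B : ι → Finset V}
    (_ : Des n (e + 1) B) (u : V) (_ : ¬ Perf n B u),
    n * (n + 2) ≤ (univ.filter fun y => y ≠ u ∧ ¬ Good n B u y).card

/-- MJ/DES : file `Pool/Agent/N337/MJ/Desarg.lean`, theorem `primepow`. -/
def StDes : Prop := ∀ {V ι : Type} [Fintype V] [Fintype ι] {n e : ℕ} {B : ι → Finset V}
    (_ : Des n (e + 1) B) (_ : ∀ z, Perf n B z), IsPrimePow n

end Pool.Agent.N337.MJ
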