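import Pool.Agent.N337.MJ.Plane
import Pool.Agent.N337.MJ.Stm

set_option autoImplicit false
set_option linter.unusedSectionVars false
set_option linter.unusedVariables false

/-!
# Many perfect points force all points to be perfect
-/

namespace Pool.Agent.N337.MJ

open Finset
open scoped Classical

variable {V ι : Type} [Fintype V] [Fintype ι] {n e : ℕ} {B : ι → Finset V} {z : V}

/-- for a bad pair and a perfect point the three points are not collinear -/
theorem bad_perf (h : Des n e B) {x y : V} (hxy : x ≠ y) (hb : ¬ Good n B x y) {w : V}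
    (hw : Perf n B w) : x ≠ w ∧ y ∉ cl B {w, x} := by
  have h1 : x ≠ w := by rintro rfl; exact hb (hw y hxy.symm)
  refine ⟨h1, fun h2 => hb ?_⟩
  unfold Good
  rw [h.line_eq h1.symm (right_mem w x) h2 hxy]
  exact hw x h1

/-- the planes joining a bad pair to the perfect points -/
noncomputable def fam (n : ℕ) (B : ι → Finset V) (x y : V) : Finset (Finset V) :=
  (perf n B).image fun z => cl B {z, x, y}

/-- the plane through a perfect point of a plane -/
theorem plane_eq (h : Des n (e + 1) B) {x y : V} (hxy : x ≠ y) (hb : ¬ Good n B x y)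
    {z w : V} (hz : Perf n B z) (hw : Perf n B w) (hwz : w ∈ cl B {z, x, y}) :
    cl B {w, x, y} = cl B {z, x, y} := by
  obtain ⟨h1, h2⟩ := bad_perf h hxy hb hz
  obtain ⟨h3, h4⟩ := bad_perf h hxy hb hw
  refine cl_eq_of_card (triple_subset.2 ⟨hwz, subset_cl _ (by simp), subset_cl _ (by simp)⟩) ?_
  rw [h.blk_triple h1.symm (hz x h1) h2, h.blk_triple h3.symm (hw x h3) h4]

/-- there are at most `th n (e + 2)` such planes -/
theorem card_fam (h : Des n (e + 1) B) (hPl : ∀ z, Perf n B z → Pl n B z) {x y : V} (hxy : x ≠ y)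
    (hb : ¬ Good n B x y) : (fam n B x y).card ≤ th n (e + 2) := by
  set F := fam n B x y with hF
  have hn := h.hn
  have hmem : ∀ E ∈ F, ∃ z, Perf n B z ∧ E = cl B {z, x, y} := by
    intro E hE
    rw [hF, fam, mem_image] at hE
    obtain ⟨z, hz, rfl⟩ := hE
    exact ⟨z, mem_perf.1 hz, rfl⟩
  -- incidences
  have h1 : ∑ i ∈ blk B {x, y}, (F.filter fun E => E ⊆ B i).card = F.card * th n (e + 1) := by
    simp_rw [Finset.card_filter]
    rw [Finset.sum_comm, ← smul_eq_mul, ← Finset.sum_const]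
    apply Finset.sum_congr rfl
    intro E hE
    obtain ⟨z, hz, rfl⟩ := hmem E hE
    obtain ⟨h1, h2⟩ := bad_perf h hxy hb hz
    rw [← Finset.card_filter, ← h.blk_triple h1.symm (hz x h1) h2]
    congr 1
    ext i
    simp only [mem_filter, mem_blk, pair_subset, triple_subset, cl_sub_iff]
    tauto
  have h2 : ∑ i ∈ blk B {x, y}, (F.filter fun E => E ⊆ B i).card ^ 2 =
      F.card * (th n (e + 1) + (F.card - 1) * th n e) := by
    have h3 : ∀ i, (F.filter fun E => E ⊆ B i).card ^ 2 =
        ∑ E ∈ F, ∑ E' ∈ F, if E ⊆ B i ∧ E' ⊆ B i then 1 else 0 := by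
      intro i
      rw [sq, Finset.card_filter, Finset.sum_mul_sum]
      refine Finset.sum_congr rfl fun E _ => Finset.sum_congr rfl fun E' _ => ?_
      by_cases hE : E ⊆ B i <;> by_cases hE' : E' ⊆ B i <;> simp [hE, hE']
    simp_rw [h3]
    rw [Finset.sum_comm, ← smul_eq_mul, ← Finset.sum_const]
    apply Finset.sum_congr rfl
    intro E hE
    rw [Finset.sum_comm, ← Finset.add_sum_erase _ _ hE, ← Finset.card_erase_of_mem hE,
      ← smul_eq_mul (a := (F.erase E).card), ← Finset.sum_const]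
    obtain ⟨z, hz, rfl⟩ := hmem E hE
    obtain ⟨h4, h5⟩ := bad_perf h hxy hb hz
    congr 1
    · rw [← Finset.card_filter, ← h.blk_triple h4.symm (hz x h4) h5]
      congr 1
      ext i
      simp only [mem_filter, mem_blk, pair_subset, triple_subset, cl_sub_iff]
      tauto
    · apply Finset.sum_congr rfl
      intro E' hE'
      rw [mem_erase] at hE'
      obtain ⟨w, hw, rfl⟩ := hmem E' hE'.2
      have h6 : w ∉ cl B {z, x, y} := fun h7 => hE'.1 (plane_eq h hxy hb hz hw h7)
      rw [← Finset.card_filter, ← (hPl z hz).blk4 h h4 h5 h6]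
      congr 1
      ext i
      simp only [mem_filter, mem_blk, pair_subset, triple_subset, quad_subset, cl_sub_iff]
      tauto
  have h3 := sq_sum_le_card_mul_sum_sq (s := blk B {x, y})
    (f := fun i => (F.filter fun E => E ⊆ B i).card)
  rw [h1, h2, h.blk_pair hxy, show e + 1 + 1 = e + 2 from rfl, Nat.cast_id] at h3
  rcases Nat.eq_zero_or_pos F.card with h0 | hpos
  · rw [h0]; exact Nat.zero_le _
  obtain ⟨m, hm⟩ : ∃ m, F.card = m + 1 := ⟨F.card - 1, by omega⟩
  rw [hm] at h3 ⊢
  rw [Nat.add_sub_cancel] at h3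
  obtain ⟨a, ha⟩ : ∃ a, a = th n e := ⟨_, rfl⟩
  have hb1 : th n (e + 1) = n * a + 1 := by rw [th_succ, ha]
  have hb2 : th n (e + 2) = n * (n * a + 1) + 1 := by
    rw [show e + 2 = (e + 1) + 1 from rfl, th_succ, hb1]
  rw [hb1, hb2, ← ha] at h3
  rw [hb2]
  have h4 : ((m + 1) * (n * a + 1)) ^ 2 = (m + 1) * ((m + 1) * (n * a + 1) ^ 2) := by ring
  have h5 : (n * (n * a + 1) + 1) * ((m + 1) * (n * a + 1 + m * a)) =
      (m + 1) * ((n * (n * a + 1) + 1) * (n * a + 1 + m * a)) := by ring
  rw [h4, h5] at h3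
  have h6 := Nat.le_of_mul_le_mul_left h3 (by omega)
  -- `(m + 1) (rho ^ 2) ≤ lam (rho + m rho')`
  have h7 : (m + 1) * (n * a + 1 - a) ≤ (n * (n * a + 1) + 1) * (n * a + 1 - a) := by
    have h8 : a ≤ n * a := Nat.le_mul_of_pos_left _ (by omega)
    zify [show a ≤ n * a + 1 by omega] at h6 ⊢
    nlinarith
  have h8 : a ≤ n * a := Nat.le_mul_of_pos_left _ (by omega)
  exact Nat.le_of_mul_le_mul_right h7 (by omega)

/-- some plane through the bad pair has many perfect points -/
theorem exists_rich (h : Des n (e + 1) B) (hPl : ∀ z, Perf n B z → Pl n B z) {x y : V}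
    (hxy : x ≠ y) (hb : ¬ Good n B x y)
    (hbig : n ^ 3 * th n (e + 2) ^ 2 < (perf n B).card ^ 2) :
    ∃ z, Perf n B z ∧ n ^ 3 < (perf n B ∩ cl B {z, x, y}).card ^ 2 := by
  by_contra hc
  push Not at hc
  have h1 : (perf n B).card = ∑ E ∈ fam n B x y,
      ((perf n B).filter fun z => cl B {z, x, y} = E).card := by
    apply Finset.card_eq_sum_card_fiberwise
    intro z hz
    exact mem_image.2 ⟨z, hz, rfl⟩
  have h2 : ∀ E ∈ fam n B x y,
      ((perf n B).filter fun z => cl B {z, x, y} = E).card ^ 2 ≤ n ^ 3 := by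
    intro E hE
    rw [fam, mem_image] at hE
    obtain ⟨z, hz, rfl⟩ := hE
    refine le_trans (Nat.pow_le_pow_left (Finset.card_le_card ?_) 2) (hc z (mem_perf.1 hz))
    intro w hw
    rw [mem_filter] at hw
    exact mem_inter.2 ⟨hw.1, hw.2 ▸ subset_cl _ (by simp)⟩
  have h3 := sq_sum_le_card_mul_sum_sq (s := fam n B x y)
    (f := fun E => ((perf n B).filter fun z => cl B {z, x, y} = E).card)
  rw [← h1, Nat.cast_id] at h3
  have h4 := Finset.sum_le_sum h2
  rw [Finset.sum_const, smul_eq_mul] at h4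
  have h5 := card_fam h hPl hxy hb
  have h6 : (fam n B x y).card * ∑ E ∈ fam n B x y,
      ((perf n B).filter fun z => cl B {z, x, y} = E).card ^ 2 ≤
      th n (e + 2) * (th n (e + 2) * n ^ 3) :=
    Nat.mul_le_mul h5 (h4.trans (Nat.mul_le_mul_right _ h5))
  have h7 : th n (e + 2) * (th n (e + 2) * n ^ 3) = n ^ 3 * th n (e + 2) ^ 2 := by ring
  omega

/-- **The main step.** -/
theorem step (hnuc : StNuc) (h : Des n (e + 1) B) (hPl : ∀ z, Perf n B z → Pl n B z)
    (hbig : n ^ 3 * th n (e + 2) ^ 2 < (perf n B).card ^ 2) : ∀ u, Perf n B u := by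
  by_contra hc
  push Not at hc
  obtain ⟨x, hx⟩ := hc
  unfold Perf at hx
  push Not at hx
  obtain ⟨y, hyx, hb⟩ := hx
  have hxy := hyx.symm
  have hn := h.hn
  obtain ⟨w, hw, hrich⟩ := exists_rich h hPl hxy hb hbig
  obtain ⟨hxw, hyw⟩ := bad_perf h hxy hb hw
  have hE := (hPl w hw).card h hxw hyw
  set E := cl B {w, x, y} with hEdef
  have hxE : x ∈ E := subset_cl _ (by simp)
  have hyE : y ∈ E := subset_cl _ (by simp)
  -- a perfect point outside `E`
  obtain ⟨z, hz, hzE⟩ : ∃ z, Perf n B z ∧ z ∉ E := by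
    by_contra hc
    push Not at hc
    have h1 : perf n B ⊆ (E.erase x).erase y := by
      intro p hp
      rw [mem_perf] at hp
      rw [mem_erase, mem_erase]
      refine ⟨?_, ?_, hc p hp⟩
      · rintro rfl; exact hb (good_comm.1 (hp x hxy))
      · rintro rfl; exact hb (hp y hyx)
    have h2 := Finset.card_le_card h1
    rw [Finset.card_erase_of_mem (mem_erase.2 ⟨hyx, hyE⟩), Finset.card_erase_of_mem hxE, hE] at h2
    have h3 : n + 1 ≤ th n (e + 2) := by
      rw [show e + 2 = e + 1 + 1 from rfl, th_succ, th_succ]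
      nlinarith [Nat.zero_le (n * (n * th n e))]
    have h4 : n ^ 3 * (n + 1) ^ 2 ≤ n ^ 3 * th n (e + 2) ^ 2 :=
      Nat.mul_le_mul_left _ (Nat.pow_le_pow_left h3 2)
    have h5 : (perf n B).card ^ 2 ≤ (n * n + n) ^ 2 := Nat.pow_le_pow_left (by omega) 2
    have h6 : (n * n + n) ^ 2 = n ^ 2 * (n + 1) ^ 2 := by ring
    have h7 : n ^ 2 * (n + 1) ^ 2 ≤ n ^ 3 * (n + 1) ^ 2 :=
      Nat.mul_le_mul_right _ (Nat.pow_le_pow_right (by omega) (by omega))
    omega
  have hPw := hPl w hw
  have hPz := hPl z hz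
  -- every block through `x, y` contains the line `ln x y`
  have key : ∀ i ∈ blk B {x, y}, ln B z E x y ⊆ B i := by
    intro i hi
    rw [mem_blk, pair_subset] at hi
    by_cases hEi : E ⊆ B i
    · exact (hPw.ln1 h hPz hxw hyw hzE hxE hyE hxy).2.2.1.trans hEi
    have hTc : (B i ∩ E).card = n + 1 := hPw.meet h hxw hyw hEi
    have hxT : x ∈ B i ∩ E := mem_inter.2 ⟨hi.1, hxE⟩
    have hyT : y ∈ B i ∩ E := mem_inter.2 ⟨hi.2, hyE⟩
    by_cases hT : ∃ a ∈ E, ∃ b ∈ E, a ≠ b ∧ B i ∩ E = ln B z E a b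
    · obtain ⟨a, ha, b, hb', hab, hTe⟩ := hT
      rw [hPw.ln2 h hPz hxw hyw hzE ha hb' hab (hTe ▸ hxT) (hTe ▸ hyT) hxy, ← hTe]
      exact Finset.inter_subset_left
    · exfalso
      have h1 := hnuc n hn E hE (ln B z E)
        (fun a ha b hb' hab => hPw.ln1 h hPz hxw hyw hzE ha hb' hab)
        (fun a ha b hb' hab a' ha' b' hb'' hab' =>
          hPw.ln2 h hPz hxw hyw hzE ha hb' hab ha' hb'' hab')
        (B i ∩ E) Finset.inter_subset_right hTc hT (perf n B ∩ E) Finset.inter_subset_right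
        (by
          intro w' hw'
          rw [mem_inter, mem_perf] at hw'
          have hw'i : w' ∉ B i := by
            intro h2
            apply hEi
            rw [hEdef, ← plane_eq h hxy hb hw hw'.1 hw'.2]
            exact cl_subset (triple_subset.2 ⟨h2, hi.1, hi.2⟩)
          refine ⟨fun h2 => hw'i (mem_inter.1 h2).1, fun t ht => ?_⟩
          rw [mem_inter] at ht
          have htw : t ≠ w' := by rintro rfl; exact hw'i ht.1
          have h3 := hw'.1 t htw
          rw [hPw.ln_perf h hPz hxw hyw hzE hw'.2 ht.2 htw.symm h3]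
          have h4 := h.good_meet htw.symm h3 (i := i) (fun h5 => hw'i h5.1)
          rw [Finset.card_eq_one] at h4
          obtain ⟨a, ha⟩ := h4
          have h5 : t = a := by
            rw [← Finset.mem_singleton, ← ha, mem_inter]
            exact ⟨ht.1, right_mem w' t⟩
          subst h5
          ext q
          rw [mem_inter, mem_inter, Finset.mem_singleton]
          constructor
          · rintro ⟨h6, h7, h8⟩
            rw [← Finset.mem_singleton, ← ha, mem_inter]
            exact ⟨h7, h6⟩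
          · rintro rfl
            exact ⟨right_mem _ _, ht⟩)
      omega
  -- so the line of `x, y` is full
  apply hb
  refine le_antisymm (h.line_le hxy) ?_
  rw [← (hPw.ln1 h hPz hxw hyw hzE hxE hyE hxy).2.2.2]
  apply Finset.card_le_card
  intro p hp
  rw [mem_cl]
  intro i hi
  exact key i (mem_blk.2 hi) hp

/-- in a projective plane all points are perfect -/
theorem perf_zero (h : Des n 0 B) (z : V) : Perf n B z := by
  intro y hy
  have h1 := h.blk_pair hy.symm
  rw [show (0 : ℕ) + 1 = 1 from rfl, th_one, Finset.card_eq_one] at h1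
  obtain ⟨i, hi⟩ := h1
  have h2 : cl B {z, y} = B i := by
    ext p
    rw [mem_cl]
    constructor
    · intro h3
      exact h3 i (mem_blk.1 (hi ▸ Finset.mem_singleton_self i))
    · intro h3 j hj
      have h4 : j = i := by rw [← Finset.mem_singleton, ← hi, mem_blk]; exact hj
      rwa [h4]
  unfold Good
  rw [h2, h.size, show (0 : ℕ) + 2 = 0 + 1 + 1 from rfl, th_succ, th_succ, th_zero]
  ring

/-- **Theorem B.** More than `n ^ (3 / 2) * lambda` perfect points: all points are perfect. -/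
theorem all_perf (hnuc : StNuc) : ∀ (e : ℕ) {V ι : Type} [Fintype V] [Fintype ι] {n : ℕ}
    {B : ι → Finset V}, Des n e B → n ^ 3 * th n (e + 1) ^ 2 < (perf n B).card ^ 2 →
    ∀ u, Perf n B u := by
  intro e
  induction e with
  | zero => intro V ι _ _ n B h _ u; exact perf_zero h u
  | succ e ih =>
    intro V ι _ _ n B h hbig
    refine step hnuc h (fun z hz => ⟨hz, ih (desZ h hz) ?_⟩) hbig
    have hn := h.hn
    have h1 := card_perfZ h hz
    by_contra hc
    push Not at hc
    obtain ⟨p, hp⟩ : ∃ p, p = (perf n (BZ B z)).card := ⟨_, rfl⟩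
    rw [← hp] at h1 hc
    rw [show e + 1 + 1 = (e + 1) + 1 from rfl, th_succ n (e + 1)] at hbig
    obtain ⟨t, ht⟩ : ∃ t, t = th n (e + 1) := ⟨_, rfl⟩
    have htpos : 0 < t := ht ▸ th_pos n e
    rw [← ht] at hbig hc
    have h2 : (perf n B).card ^ 2 ≤ (n * p + 1) ^ 2 := Nat.pow_le_pow_left h1 2
    have h3 : p ≤ n ^ 3 * t := by
      by_contra h4
      push Not at h4
      have h5 : (n ^ 3 * t) ^ 2 < p ^ 2 := Nat.pow_lt_pow_left h4 (by omega)
      have h6 : n ^ 3 * t ^ 2 ≤ (n ^ 3 * t) ^ 2 := by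
        rw [mul_pow]
        apply Nat.mul_le_mul_right
        rw [sq]
        exact Nat.le_mul_of_pos_left _ (Nat.pow_pos (by omega))
      omega
    have h4 : (n * p + 1) ^ 2 = n ^ 2 * p ^ 2 + 2 * (n * p) + 1 := by ring
    have h5 : n ^ 3 * (n * t + 1) ^ 2 = n ^ 2 * (n ^ 3 * t ^ 2) + 2 * (n * (n ^ 3 * t)) + n ^ 3 := by
      ring
    have h6 : n ^ 2 * p ^ 2 ≤ n ^ 2 * (n ^ 3 * t ^ 2) := Nat.mul_le_mul_left _ hc
    have h7 : n * p ≤ n * (n ^ 3 * t) := Nat.mul_le_mul_left _ h3
    have h8 : 1 ≤ n ^ 3 := Nat.pow_pos (by omega)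
    omega

end Pool.Agent.N337.MJ
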