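import Pool.Agent.N337.MJ.Rys
import Pool.Agent.N337.MJ.Step
import Pool.Agent.N337.MJ.FewG
import Pool.Agent.N337.MJ.Nuc
import Pool.Agent.N337.MJ.Desarg
import Pool.Agent.N337.MJ.Sharp

set_option autoImplicit false
set_option linter.unusedSectionVars false
set_option linter.unusedVariables false

/-!
# The final form
-/

namespace Pool.Agent.N337.MJ

open Finset
open scoped Classical

variable {V ι : Type} [Fintype V] [Fintype ι] {n l : ℕ} {B : ι → Finset V}

/-- bad partners -/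
noncomputable def bad (n : ℕ) (B : ι → Finset V) (u : V) : Finset V :=
  univ.filter fun y => y ≠ u ∧ ¬ Good n B u y

theorem bad_eq_empty {u : V} : bad n B u = ∅ ↔ Perf n B u := by
  rw [bad, Finset.filter_eq_empty_iff]
  unfold Perf
  constructor
  · intro h y hy
    by_contra hc
    exact h (Finset.mem_univ y) ⟨hy, hc⟩
  · rintro h y _ ⟨h1, h2⟩
    exact h2 (h y h1)

/-- **The dichotomy.** -/
theorem dichotomy (h : DesL n l B) (hl : 2 ≤ l) :
    (IsPrimePow n ∧ (∃ m, 2 ≤ m ∧ l = th n m) ∧ ∀ u, bad n B u = ∅) ∨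
      (((univ.filter fun u => bad n B u = ∅).card : ℝ) ≤ (n : ℝ) ^ (3 / 2 : ℝ) * (l : ℝ) ∧
        ((∀ m, l ≠ th n m) → (univ.filter fun u => bad n B u = ∅).card < l) ∧
        (∀ u, bad n B u ≠ ∅ → n * (n + 2) ≤ (bad n B u).card ∧
          (l = n + 1 → 2 * n ^ 2 ≤ (bad n B u).card)) ∧
        ((n * (n + 2) : ℕ) : ℝ) * ((Fintype.card V : ℝ) - (n : ℝ) ^ (3 / 2 : ℝ) * (l : ℝ)) ≤
          ((∑ u, (bad n B u).card : ℕ) : ℝ) ∧
        (l = n + 1 → ((2 * n ^ 2 : ℕ) : ℝ) * ((Fintype.card V : ℝ) -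
            (n : ℝ) ^ (3 / 2 : ℝ) * (l : ℝ)) ≤
          ((∑ u, (bad n B u).card : ℕ) : ℝ))) := by
  have hn := h.hn
  have hperf : (univ.filter fun u => bad n B u = ∅) = perf n B := by
    ext u
    rw [mem_filter, bad_eq_empty, mem_perf]
    simp
  -- the parameters
  have hpar : (∃ e, l = th n (e + 2)) ∨ ∀ m, l ≠ th n m := by
    by_cases hc : ∃ m, l = th n m
    · left
      obtain ⟨m, hm⟩ := hc
      rcases m with _ | _ | m
      · rw [th_zero] at hm; omega
      · rw [show 0 + 1 = 1 from rfl, th_one] at hm; omega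
      · exact ⟨m, hm⟩
    · right
      push Not at hc
      exact hc
  by_cases hall : ∀ u, Perf n B u
  · left
    rcases hpar with ⟨e, rfl⟩ | hno
    · have hd : Des n (e + 1) B := h.toDes (e := e + 1)
      exact ⟨primepow hd hall, ⟨e + 2, by omega, rfl⟩, fun u => bad_eq_empty.2 (hall u)⟩
    · exfalso
      have h1 := perf_lt l h (by omega) (fun m => hno (m + 1))
      have h2 : perf n B = univ := Finset.eq_univ_iff_forall.2 fun u => mem_perf.2 (hall u)
      rw [h2, Finset.card_univ, h.ptcard] at h1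
      have h3 : l ≤ n * l := Nat.le_mul_of_pos_left _ (by omega)
      have h4 : n * l + 1 ≤ n * (n * l + 1) := Nat.le_mul_of_pos_left _ (by omega)
      omega
  right
  rw [hperf]
  have hn0 : (0 : ℝ) ≤ n := Nat.cast_nonneg n
  have hn1 : (1 : ℝ) ≤ (n : ℝ) ^ (3 / 2 : ℝ) :=
    Real.one_le_rpow (by exact_mod_cast (by omega : 1 ≤ n)) (by norm_num)
  have h2 : ((perf n B).card : ℝ) ≤ (n : ℝ) ^ (3 / 2 : ℝ) * (l : ℝ) := by
    rcases hpar with ⟨e, rfl⟩ | hno
    · have h1 : (perf n B).card ^ 2 ≤ n ^ 3 * th n (e + 2) ^ 2 := by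
        by_contra hc
        push Not at hc
        exact hall (all_perf nuc (e + 1) (h.toDes (e := e + 1)) hc)
      apply le_of_sq_le_sq _ (by positivity)
      rw [mul_pow, ← Real.rpow_natCast ((n : ℝ) ^ (3 / 2 : ℝ)) 2, ← Real.rpow_mul hn0]
      rw [show (3 / 2 : ℝ) * ((2 : ℕ) : ℝ) = ((3 : ℕ) : ℝ) by norm_num, Real.rpow_natCast]
      exact_mod_cast h1
    · have h1 := perf_lt l h (by omega) (fun m => hno (m + 1))
      have h3 : ((perf n B).card : ℝ) ≤ l := by exact_mod_cast h1.le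
      have h4 : (0 : ℝ) ≤ l := Nat.cast_nonneg l
      nlinarith
  have h3 : ∀ u, bad n B u ≠ ∅ → n * (n + 2) ≤ (bad n B u).card ∧
      (l = n + 1 → 2 * n ^ 2 ≤ (bad n B u).card) := by
    intro u hu
    rw [Ne, bad_eq_empty] at hu
    refine ⟨fewL h hl u hu, ?_⟩
    intro hln
    have h5 : l = th n (1 + 1) := by rw [th_succ, th_one]; omega
    subst h5
    exact sharp3 (h.toDes (e := 1)) u hu
  have hcount : ∀ c : ℕ, (∀ u, bad n B u ≠ ∅ → c ≤ (bad n B u).card) →
      (c : ℝ) * ((Fintype.card V : ℝ) - (n : ℝ) ^ (3 / 2 : ℝ) * (l : ℝ)) ≤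
        ((∑ u, (bad n B u).card : ℕ) : ℝ) := by
    intro c hc
    have h4 : c * (univ \ perf n B).card ≤ ∑ u, (bad n B u).card := by
      rw [mul_comm, ← smul_eq_mul, ← Finset.sum_const]
      refine le_trans (Finset.sum_le_sum fun u hu => ?_)
        (Finset.sum_le_sum_of_subset (Finset.subset_univ (univ \ perf n B)))
      rw [mem_sdiff, mem_perf] at hu
      exact hc u (fun h5 => hu.2 (bad_eq_empty.1 h5))
    have h5 : ((univ \ perf n B).card : ℝ) = (Fintype.card V : ℝ) - ((perf n B).card : ℝ) := by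
      rw [Finset.card_sdiff_of_subset (Finset.subset_univ _), Finset.card_univ, Nat.cast_sub]
      rw [← Finset.card_univ]
      exact Finset.card_le_card (Finset.subset_univ _)
    calc (c : ℝ) * ((Fintype.card V : ℝ) - (n : ℝ) ^ (3 / 2 : ℝ) * (l : ℝ))
        ≤ (c : ℝ) * ((univ \ perf n B).card : ℝ) := by
          rw [h5]
          apply mul_le_mul_of_nonneg_left _ (Nat.cast_nonneg c)
          linarith
      _ ≤ _ := by exact_mod_cast h4
  exact ⟨h2, fun hno => perf_lt l h (by omega) (fun m => hno (m + 1)), h3,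
    hcount _ (fun u hu => (h3 u hu).1), fun he => hcount _ (fun u hu => (h3 u hu).2 he)⟩

theorem mem_line {x y z : V} : z ∈ cl B {x, y} ↔ ∀ i, x ∈ B i → y ∈ B i → z ∈ B i := by
  rw [mem_cl]
  constructor
  · intro h i h1 h2
    exact h i (pair_subset.2 ⟨h1, h2⟩)
  · intro h i h1
    rw [pair_subset] at h1
    exact h i h1.1 h1.2

/-- short partners in terms of a given line function -/
theorem bad_eq_of (h : DesL n l B) (f : V → V → Finset V)
    (hf : ∀ x y z, z ∈ f x y ↔ ∀ i, x ∈ B i → y ∈ B i → z ∈ B i) (g : V → Finset V)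
    (hg : ∀ x y, y ∈ g x ↔ y ≠ x ∧ (f x y).card < n + 1) (x : V) : g x = bad n B x := by
  ext y
  rw [hg, bad, mem_filter]
  have h1 : f x y = cl B {x, y} := by
    ext z
    rw [hf, mem_line]
  rw [h1]
  unfold Good
  constructor
  · rintro ⟨h2, h3⟩
    exact ⟨mem_univ _, h2, by omega⟩
  · rintro ⟨_, h2, h3⟩
    exact ⟨h2, lt_of_le_of_ne (h.line_le (Ne.symm h2)) h3⟩

/-- the parameters -/
theorem desL_of {v k l n : ℕ} {B : ι → Finset V} (hV : Fintype.card V = v)
    (hι : Fintype.card ι = v) (hsz : ∀ i, (B i).card = k)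
    (hp : ∀ x y, x ≠ y → Fintype.card {i // x ∈ B i ∧ y ∈ B i} = l)
    (hkv : k < v) (hn : 2 ≤ n) (hl : 2 ≤ l) (hk : k = n * l + 1) :
    DesL n l B := by
  have hnl : 2 * 2 ≤ n * l := Nat.mul_le_mul hn hl
  have hk2 : 2 ≤ k := by omega
  have hp' : ∀ x y, x ≠ y → (univ.filter (fun i => x ∈ B i ∧ y ∈ B i)).card = l := by
    intro x y hxy
    rw [← hp x y hxy, Fintype.card_subtype]
  have hdeg := rys_deg hk2 hV hι hsz hp'
  obtain ⟨x0⟩ : Nonempty V := Fintype.card_pos_iff.1 (by omega)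
  have hvl : l * (v - 1) = k * (k - 1) := by
    have h1 := rys_key hk2 hV hsz hp' x0
    rw [hdeg] at h1
    rw [h1, mul_comm]
  have hv : v = n * (n * l + 1) + 1 := by
    have h1 : k - 1 = n * l := by omega
    rw [h1, hk] at hvl
    have h2 : l * (v - 1) = l * (n * (n * l + 1)) := by rw [hvl]; ring
    have h3 := Nat.eq_of_mul_eq_mul_left (by omega : 0 < l) h2
    omega
  exact ⟨hn, by rw [hV]; exact hv, by rw [hι]; exact hv, fun i => by rw [hsz, hk],
    fun x => by rw [hdeg x, hk], hp', fun i j hij => rys_inter hk2 hV hι hsz hp' hvl hij⟩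

end Pool.Agent.N337.MJ
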