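import Pool.Agent.N337.MJ.Quot

set_option autoImplicit false
set_option linter.unusedSectionVars false
set_option linter.unusedVariables false

/-!
# Symmetric designs whose `lambda` divides `k - 1`
-/

namespace Pool.Agent.N337.MJ

open Finset
open scoped Classical

variable {V ι : Type} [Fintype V] [Fintype ι]

/-- The sets `B i` are the blocks of a symmetric design with `lambda = l`, `k = n * l + 1`,
`v = n * k + 1`. -/
structure DesL (n l : ℕ) (B : ι → Finset V) : Prop where
  hn : 2 ≤ n
  ptcard : Fintype.card V = n * (n * l + 1) + 1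
  blcard : Fintype.card ι = n * (n * l + 1) + 1
  size : ∀ i, (B i).card = n * l + 1
  deg : ∀ x, (univ.filter (fun i => x ∈ B i)).card = n * l + 1
  pair : ∀ x y, x ≠ y → (univ.filter (fun i => x ∈ B i ∧ y ∈ B i)).card = l
  inter : ∀ i j, i ≠ j → (B i ∩ B j).card = l

/-- the order `k - lambda` -/
def cc (n l : ℕ) : ℕ := (n - 1) * l + 1

theorem k_eq {n l : ℕ} (hn : 2 ≤ n) : n * l + 1 = l + cc n l := by
  obtain ⟨m, rfl⟩ : ∃ m, n = m + 1 := ⟨n - 1, by omega⟩
  simp only [cc, Nat.add_sub_cancel]
  ring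

theorem v_eq {n l : ℕ} (hn : 2 ≤ n) : n * (n * l + 1) + 1 = l + cc n l * (n + 1) := by
  obtain ⟨m, rfl⟩ : ∃ m, n = m + 1 := ⟨n - 1, by omega⟩
  simp only [cc, Nat.add_sub_cancel]
  ring

theorem cc_pos (n l : ℕ) : 0 < cc n l := Nat.succ_pos _

theorem Des.toL {n e : ℕ} {B : ι → Finset V} (h : Des n e B) : DesL n (th n (e + 1)) B := by
  have h1 : th n (e + 2) = n * th n (e + 1) + 1 := th_succ _ _
  have h2 : th n (e + 3) = n * (n * th n (e + 1) + 1) + 1 := by
    rw [show e + 3 = (e + 2) + 1 from rfl, th_succ, h1]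
  exact ⟨h.hn, h2 ▸ h.ptcard, h2 ▸ h.blcard, h1 ▸ h.size, h1 ▸ h.deg, h.pair, h.inter⟩

theorem DesL.toDes {n e : ℕ} {B : ι → Finset V} (h : DesL n (th n (e + 1)) B) : Des n e B := by
  have h1 : th n (e + 2) = n * th n (e + 1) + 1 := th_succ _ _
  have h2 : th n (e + 3) = n * (n * th n (e + 1) + 1) + 1 := by
    rw [show e + 3 = (e + 2) + 1 from rfl, th_succ, h1]
  exact ⟨h.hn, h2 ▸ h.ptcard, h2 ▸ h.blcard, h1 ▸ h.size, h1 ▸ h.deg, h.pair, h.inter⟩

variable {n l : ℕ} {B : ι → Finset V} {z : V}

theorem DesL.blk_pair (h : DesL n l B) {x y : V} (hxy : x ≠ y) :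
    (blk B {x, y}).card = l := by
  rw [← h.pair x y hxy]
  congr 1
  ext i
  simp [pair_subset]

theorem DesL.blk_single (h : DesL n l B) (x : V) : (blk B {x}).card = (n * l + 1) := by
  rw [← h.deg x]
  congr 1
  ext i
  simp

/-- two points of a line span it -/
theorem DesL.line_eq (h : DesL n l B) {x y x' y' : V} (hxy : x ≠ y) (hx : x' ∈ cl B {x, y})
    (hy : y' ∈ cl B {x, y}) (hne : x' ≠ y') : cl B {x', y'} = cl B {x, y} :=
  cl_eq_of_card (pair_subset.2 ⟨hx, hy⟩) (by rw [h.blk_pair hxy, h.blk_pair hne])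

/-- a block not containing a line has at most one point on it -/
theorem DesL.inter_line (h : DesL n l B) {x y : V} (hxy : x ≠ y) {i : ι}
    (hi : i ∉ blk B {x, y}) : (B i ∩ cl B {x, y}).card ≤ 1 := by
  by_contra hc
  push Not at hc
  obtain ⟨a, ha, b, hb, hab⟩ := Finset.one_lt_card.1 hc
  rw [mem_inter] at ha hb
  apply hi
  rw [← blk_cl, ← h.line_eq hxy ha.2 hb.2 hab, blk_cl, mem_blk, pair_subset]
  exact ⟨ha.1, hb.1⟩

theorem DesL.count_line (h : DesL n l B) {x y : V} (hxy : x ≠ y) :
    (cl B {x, y}).card * l +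
      ∑ i ∈ univ \ blk B {x, y}, (B i ∩ cl B {x, y}).card = (cl B {x, y}).card * (n * l + 1) := by
  have h1 := sum_inter (B := B) univ (cl B {x, y})
  have h2 : ∑ z ∈ cl B {x, y}, ((univ : Finset ι).filter fun i => z ∈ B i).card =
      (cl B {x, y}).card * (n * l + 1) := by
    rw [Finset.sum_congr rfl (fun z _ => h.deg z)]
    simp
  rw [h2, ← Finset.sum_sdiff (Finset.subset_univ (blk B {x, y}))] at h1
  rw [← h1, add_comm]
  congr 1
  rw [← h.blk_pair hxy, mul_comm]
  rw [Finset.sum_congr rfl (g := fun _ => (cl B {x, y}).card)]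
  · simp
  · intro i hi
    rw [Finset.inter_eq_right.2 (cl_subset (mem_blk.1 hi))]

theorem DesL.card_compl_blk (h : DesL n l B) {x y : V} (hxy : x ≠ y) :
    (univ \ blk B {x, y}).card = cc n l * (n + 1) := by
  rw [Finset.card_sdiff_of_subset (Finset.subset_univ _), Finset.card_univ, h.blcard,
    h.blk_pair hxy, v_eq h.hn]
  omega

theorem DesL.line_le (h : DesL n l B) {x y : V} (hxy : x ≠ y) : (cl B {x, y}).card ≤ n + 1 := by
  have h1 := h.count_line hxy
  have h2 : ∑ i ∈ univ \ blk B {x, y}, (B i ∩ cl B {x, y}).card ≤ (univ \ blk B {x, y}).card := by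
    rw [Finset.card_eq_sum_ones]
    exact Finset.sum_le_sum fun i hi => h.inter_line hxy (Finset.mem_sdiff.1 hi).2
  rw [h.card_compl_blk hxy] at h2
  rw [k_eq h.hn, Nat.mul_add] at h1
  have h3 : (cl B {x, y}).card * cc n l ≤ (n + 1) * cc n l := by
    rw [mul_comm (n + 1)]
    omega
  exact Nat.le_of_mul_le_mul_right h3 (Nat.succ_pos _)

/-- a good line meets every block not containing it in exactly one point -/
theorem DesL.good_meet (h : DesL n l B) {x y : V} (hxy : x ≠ y) (hg : Good n B x y) {i : ι}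
    (hi : ¬ (x ∈ B i ∧ y ∈ B i)) : (B i ∩ cl B {x, y}).card = 1 := by
  have hi' : i ∉ blk B {x, y} := by rw [mem_blk, pair_subset]; exact hi
  have h1 := h.count_line hxy
  have h2 := h.card_compl_blk hxy
  rw [hg, k_eq h.hn, Nat.mul_add] at h1
  have h3 : ∑ i ∈ univ \ blk B {x, y}, (B i ∩ cl B {x, y}).card = (univ \ blk B {x, y}).card := by
    rw [h2, mul_comm (cc n l)]
    omega
  rw [Finset.card_eq_sum_ones] at h3
  exact (Finset.sum_eq_sum_iff_of_le
    (fun i hi => h.inter_line hxy (Finset.mem_sdiff.1 hi).2)).1 h3 i (by simp [hi'])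

/-- a good line and a point outside: the number of the common blocks -/
theorem DesL.blk_triple (h : DesL n l B) {x y z : V} (hxy : x ≠ y) (hg : Good n B x y)
    (hz : z ∉ cl B {x, y}) : n * (blk B {x, y, z}).card + 1 = l := by
  have h1 := sum_inter (B := B) (blk B {z}) (cl B {x, y})
  have h2 : ∑ p ∈ cl B {x, y}, ((blk B {z}).filter fun i => p ∈ B i).card =
      (n + 1) * l := by
    rw [← (show (cl B {x, y}).card = n + 1 from hg)]
    rw [← smul_eq_mul, ← Finset.sum_const]
    apply Finset.sum_congr rfl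
    intro p hp
    have hpz : z ≠ p := by rintro rfl; exact hz hp
    rw [← h.pair z p hpz]
    congr 1
    ext i
    simp
  have h3 : ∀ i ∈ blk B {z}, (B i ∩ cl B {x, y}).card =
      1 + (if i ∈ blk B {x, y, z} then n else 0) := by
    intro i hi
    rw [mem_blk, Finset.singleton_subset_iff] at hi
    by_cases hc : x ∈ B i ∧ y ∈ B i
    · rw [if_pos (by rw [mem_blk, triple_subset]; exact ⟨hc.1, hc.2, hi⟩),
        Finset.inter_eq_right.2 (cl_subset (pair_subset.2 hc)), hg, add_comm]
    · rw [if_neg (by rw [mem_blk, triple_subset]; tauto), h.good_meet hxy hg hc]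
  rw [h2, Finset.sum_congr rfl h3, Finset.sum_add_distrib, Finset.sum_const, smul_eq_mul,
    mul_one, h.blk_single, ← Finset.sum_filter, Finset.sum_const, smul_eq_mul] at h1
  have h4 : (blk B {z}).filter (fun i => i ∈ blk B {x, y, z}) = blk B {x, y, z} := by
    ext i
    simp only [mem_filter, mem_blk, triple_subset, Finset.singleton_subset_iff]
    tauto
  rw [h4] at h1
  nlinarith

/-- closed sets are unions of lines through `z` -/
theorem card_closedL (h : DesL n l B) (hz : Perf n B z) {S : Finset V} (hzS : z ∈ S)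
    (hS : ∀ y ∈ S, y ≠ z → cl B {z, y} ⊆ S) :
    S.card = n * (univ.filter (fun L : PtZ B z => L.1 ⊆ S)).card + 1 := by
  have h1 : (S.erase z).card =
      ∑ L ∈ (univ.filter (fun L : PtZ B z => L.1 ⊆ S)).image PtZ.val,
        ((S.erase z).filter fun y => cl B {z, y} = L).card := by
    apply Finset.card_eq_sum_card_fiberwise
    intro y hy
    rw [mem_coe, mem_erase] at hy
    simp only [coe_image, coe_filter, mem_univ, true_and, Set.mem_image, Set.mem_ofPred_eq]
    exact ⟨ptz B z y hy.1, hS y hy.2 hy.1, rfl⟩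
  have h2 : ∀ L ∈ (univ.filter (fun L : PtZ B z => L.1 ⊆ S)).image PtZ.val,
      ((S.erase z).filter fun y => cl B {z, y} = L).card = n := by
    intro L hL
    rw [mem_image] at hL
    obtain ⟨⟨L, y, hy, rfl⟩, hL, rfl⟩ := hL
    rw [mem_filter] at hL
    have h3 : ((S.erase z).filter fun y' => cl B {z, y'} = cl B {z, y}) =
        (cl B {z, y}).erase z := by
      ext y'
      simp only [mem_filter, mem_erase]
      constructor
      · rintro ⟨⟨h4, h5⟩, h6⟩
        exact ⟨h4, h6 ▸ right_mem z y'⟩
      · rintro ⟨h4, h5⟩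
        exact ⟨⟨h4, hL.2 h5⟩, h.line_eq hy.symm (left_mem z y) h5 (Ne.symm h4)⟩
    rw [h3, Finset.card_erase_of_mem (left_mem z y), hz y hy]
    rfl
  rw [Finset.sum_congr rfl h2, Finset.sum_const, smul_eq_mul,
    Finset.card_image_of_injective _ PtZ.val_injective] at h1
  rw [← Finset.card_erase_add_one hzS, h1, mul_comm]

/-- membership in a line through `z` -/
theorem ptz_eqL (h : DesL n l B) {x y : V} (hx : x ≠ z) (hy : y ≠ z) :
    ptz B z x hx = ptz B z y hy ↔ y ∈ cl B {z, x} := by
  constructor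
  · intro h1
    have h2 := congrArg PtZ.val h1
    change cl B {z, x} = cl B {z, y} at h2
    rw [h2]
    exact right_mem z y
  · intro h1
    apply PtZ.val_injective
    exact (h.line_eq hx.symm (left_mem z x) h1 hy.symm).symm

/-- **The quotient at a perfect point is a design.** -/
theorem desZL {r : ℕ} (h : DesL n (n * r + 1) B) (hz : Perf n B z) : DesL n r (BZ B z) := by
  have hn := h.hn
  have hB : ∀ i, z ∈ B i → ∀ y ∈ B i, y ≠ z → cl B {z, y} ⊆ B i := fun i hi y hy _ =>
    cl_subset (pair_subset.2 ⟨hi, hy⟩)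
  refine ⟨hn, ?_, ?_, ?_, ?_, ?_, ?_⟩
  · have h1 := card_closedL h hz (Finset.mem_univ z) (fun _ _ _ => Finset.subset_univ _)
    rw [Finset.card_univ, h.ptcard] at h1
    have h2 : n * (n * r + 1) + 1 = (univ.filter (fun L : PtZ B z => L.1 ⊆ univ)).card := by
      apply Nat.eq_of_mul_eq_mul_left (by omega : 0 < n)
      omega
    rw [h2, Finset.filter_true_of_mem (fun L _ => Finset.subset_univ _), Finset.card_univ]
  · have h1 := card_BlZ B z (fun _ => True)
    simp only [Finset.filter_true, and_true] at h1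
    rw [← Finset.card_univ, h1, h.deg z]
  · intro i
    have h1 := card_closedL h hz i.2 (hB i.1 i.2)
    rw [h.size] at h1
    apply Nat.eq_of_mul_eq_mul_left (by omega : 0 < n)
    change n * (univ.filter (fun L : PtZ B z => L.1 ⊆ B i.1)).card = _
    omega
  · rintro ⟨L, y, hy, rfl⟩
    rw [← h.pair z y hy.symm]
    simp only [mem_BZ]
    refine Eq.trans ?_ ((card_BlZ B z (fun i => cl B {z, y} ⊆ B i)).trans ?_)
    · congr 1; ext i; simp only [mem_filter, mem_univ, true_and]
    congr 1
    ext i
    simp only [mem_filter, mem_univ, true_and, cl_sub_iff, pair_subset]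
    tauto
  · rintro ⟨L, x, hx, rfl⟩ ⟨M, y, hy, rfl⟩ hne
    have hy' : y ∉ cl B {z, x} := by
      intro h1
      exact hne ((ptz_eqL h hx hy).2 h1)
    have h7 := h.blk_triple hx.symm (hz x hx) hy'
    have h8 : (blk B {z, x, y}).card = r := by
      apply Nat.eq_of_mul_eq_mul_left (by omega : 0 < n)
      omega
    rw [← h8]
    simp only [mem_BZ]
    refine Eq.trans ?_ ((card_BlZ B z (fun i => cl B {z, x} ⊆ B i ∧ cl B {z, y} ⊆ B i)).trans ?_)
    · congr 1; ext i; simp only [mem_filter, mem_univ, true_and]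
    congr 1
    ext i
    simp only [mem_filter, mem_univ, true_and, cl_sub_iff, pair_subset, mem_blk, triple_subset]
    tauto
  · intro i j hij
    have hij' : i.1 ≠ j.1 := fun h1 => hij (BlZ.val_injective h1)
    have h1 := card_closedL h hz (S := B i.1 ∩ B j.1) (mem_inter.2 ⟨i.2, j.2⟩)
      (fun y hy hne => Finset.subset_inter (hB _ i.2 y (mem_inter.1 hy).1 hne)
        (hB _ j.2 y (mem_inter.1 hy).2 hne))
    rw [h.inter _ _ hij'] at h1
    apply Nat.eq_of_mul_eq_mul_left (by omega : 0 < n)
    have h2 : BZ B z i ∩ BZ B z j = univ.filter (fun L : PtZ B z => L.1 ⊆ B i.1 ∩ B j.1) := by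
      ext L
      simp [Finset.subset_inter_iff]
    rw [h2]
    omega

/-- planes through a line with two perfect points are good -/
theorem perfZ_of_twoL {r : ℕ} (h : DesL n (n * r + 1) B) (hz : Perf n B z) {w : V} (hw : Perf n B w)
    (hwz : w ≠ z) : Perf n (BZ B z) (ptz B z w hwz) := by
  rintro ⟨M, y, hy, rfl⟩ hne
  have hy' : y ∉ cl B {z, w} := by
    intro h1
    exact hne ((ptz_eqL h hy hwz).2 (by
      have h2 := h.line_eq hwz.symm (left_mem z w) h1 hy.symm
      rw [h2]; exact right_mem z w))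
  have hyw : y ≠ w := by rintro rfl; exact hy' (right_mem z y)
  change Good n (BZ B z) (ptz B z w hwz) (ptz B z y hy)
  have hle := (desZL h hz).line_le (x := ptz B z w hwz) (y := ptz B z y hy) (by
    intro h1; exact hy' ((ptz_eqL h hwz hy).1 h1))
  refine le_antisymm hle ?_
  -- the `n + 1` lines joining `z` to the points of the line `w y`
  have hzwy : z ∉ cl B {w, y} := by
    intro h1
    apply hy'
    have h2 := h.line_eq (x' := z) (y' := w) hyw.symm h1 (left_mem w y) hwz.symm
    rw [h2]; exact right_mem w y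
  have h1 : (cl B {w, y}).card = n + 1 := hw y hyw
  rw [← h1]
  apply Finset.card_le_card_of_injOn
    (fun p => if hp : p ≠ z then ptz B z p hp else ptz B z w hwz)
  · intro p hp
    rw [mem_coe] at hp
    have hpz : p ≠ z := by rintro rfl; exact hzwy hp
    simp only [dif_pos hpz, mem_coe]
    rw [mem_clZ]
    change cl B {z, p} ⊆ _
    refine cl_le (pair_subset.2 ⟨subset_cl _ (by simp), ?_⟩)
    exact cl_mono (by intro a ha; simp at ha ⊢; tauto) hp
  · intro p hp q hq hpq
    rw [mem_coe] at hp hq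
    have hpz : p ≠ z := by rintro rfl; exact hzwy hp
    have hqz : q ≠ z := by rintro rfl; exact hzwy hq
    simp only [dif_pos hpz, dif_pos hqz] at hpq
    rw [ptz_eqL h] at hpq
    by_contra hne'
    apply hzwy
    have h2 := h.line_eq hyw.symm hp hq hne'
    have h3 := h.line_eq (x' := p) (y' := q) hpz.symm (right_mem z p) hpq hne'
    rw [← h2, h3]
    exact left_mem z p

/-- the number of the perfect points of the quotient -/
theorem card_perfZL {r : ℕ} (h : DesL n (n * r + 1) B) (hz : Perf n B z) :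
    (perf n B).card ≤ n * (perf n (BZ B z)).card + 1 := by
  have hzm : z ∈ perf n B := mem_perf.2 hz
  rw [← Finset.card_erase_add_one hzm]
  apply Nat.add_le_add_right
  have h1 : ((perf n B).erase z).card =
      ∑ L ∈ (perf n (BZ B z)).image PtZ.val,
        (((perf n B).erase z).filter fun y => cl B {z, y} = L).card := by
    apply Finset.card_eq_sum_card_fiberwise
    intro y hy
    rw [mem_coe, mem_erase, mem_perf] at hy
    rw [mem_coe, mem_image]
    exact ⟨ptz B z y hy.1, mem_perf.2 (perfZ_of_twoL h hz hy.2 hy.1), rfl⟩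
  rw [h1]
  have h2 : ∀ L ∈ (perf n (BZ B z)).image PtZ.val,
      (((perf n B).erase z).filter fun y => cl B {z, y} = L).card ≤ n := by
    intro L hL
    rw [mem_image] at hL
    obtain ⟨⟨L, y, hy, rfl⟩, hL, rfl⟩ := hL
    have h3 : (((perf n B).erase z).filter fun y' => cl B {z, y'} = cl B {z, y}) ⊆
        (cl B {z, y}).erase z := by
      intro y'
      simp only [mem_filter, mem_erase]
      rintro ⟨⟨h4, h5⟩, h6⟩
      exact ⟨h4, h6 ▸ right_mem z y'⟩
    refine (Finset.card_le_card h3).trans ?_
    rw [Finset.card_erase_of_mem (left_mem z y), hz y hy]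
    simp
  refine (Finset.sum_le_sum h2).trans ?_
  rw [Finset.sum_const, smul_eq_mul, Finset.card_image_of_injective _ PtZ.val_injective,
    mul_comm]


/-- no good lines when `n` does not divide `l - 1` -/
theorem DesL.exists_r (h : DesL n l B) (hl : 1 ≤ l) {x y : V} (hxy : x ≠ y) (hg : Good n B x y) :
    ∃ r, l = n * r + 1 := by
  have h1 : ∃ z, z ∉ cl B {x, y} := by
    by_contra hc
    push Not at hc
    have h2 : cl B {x, y} = univ := Finset.eq_univ_iff_forall.2 hc
    have h3 : (cl B {x, y}).card = n + 1 := hg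
    rw [h2, Finset.card_univ, h.ptcard] at h3
    have hn := h.hn
    have h4 : n * 1 < n * (n * l + 1) := by
      apply Nat.mul_lt_mul_of_pos_left _ (by omega)
      have : 0 < n * l := Nat.mul_pos (by omega) hl
      omega
    omega
  obtain ⟨z, hz⟩ := h1
  exact ⟨_, (h.blk_triple hxy hg hz).symm⟩

/-- **Few perfect points when the parameters are not those of a projective space.** -/
theorem perf_lt : ∀ (l : ℕ) {V ι : Type} [Fintype V] [Fintype ι] {n : ℕ} {B : ι → Finset V},
    DesL n l B → 1 ≤ l → (∀ m, l ≠ th n (m + 1)) → (perf n B).card < l := by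
  intro l
  induction l using Nat.strong_induction_on with
  | _ l ih =>
    intro V ι _ _ n B h hl hm
    have hn := h.hn
    rcases (perf n B).eq_empty_or_nonempty with h0 | ⟨z, hz⟩
    · rw [h0, Finset.card_empty]; exact hl
    rw [mem_perf] at hz
    obtain ⟨y, hy⟩ : ∃ y, y ≠ z := by
      by_contra hc
      push Not at hc
      have h1 : Fintype.card V ≤ 1 := Fintype.card_le_one_iff.2 fun a b => by rw [hc a, hc b]
      rw [h.ptcard] at h1
      have : 0 < n * (n * l + 1) := Nat.mul_pos (by omega) (Nat.succ_pos _)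
      omega
    obtain ⟨r, rfl⟩ := h.exists_r hl hy.symm (hz y hy)
    have hr : 1 ≤ r := by
      rcases Nat.eq_zero_or_pos r with h1 | h1
      · exfalso
        apply hm 0
        rw [h1]
        simp [th_one]
      · exact h1
    have h1 : (perf n (BZ B z)).card < r := by
      apply ih r _ (desZL h hz) hr
      · intro m hrm
        apply hm (m + 1)
        rw [th_succ, ← hrm]
      · have : r * 1 < r * n := Nat.mul_lt_mul_of_pos_left (by omega) hr
        rw [mul_comm n r]
        omega
    have h2 := card_perfZL h hz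
    have h3 : n * (perf n (BZ B z)).card + n ≤ n * r := by
      have := Nat.mul_le_mul_left n h1
      rw [Nat.mul_succ] at this
      exact this
    omega

end Pool.Agent.N337.MJ
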