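import Pool.Agent.N337.MJ.Stm2

set_option autoImplicit false
set_option linter.unusedSectionVars false
set_option linter.unusedVariables false

/-!
# Project MJ (helper337), leaf KAN (helper701): Kantor's example

A symmetric design with the parameters of `PG(3, q)` with exactly `2 (q^5 + q^4)` short ordered pairs.
-/

namespace Pool.Agent.N337.MJ

open Finset
open scoped Classical

namespace Kan

variable {V ι : Type} [Fintype V] [Fintype ι] {q : ℕ} {B : ι → Finset V} {i0 : ι}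
  {U₁ U₂ : Finset V}

lemma th2 (q : ℕ) : th q 2 = q + 1 := by rw [th_succ, th_one]; ring

lemma th3 (q : ℕ) : th q 3 = q ^ 2 + q + 1 := by rw [th_succ, th2]; ring

lemma th4 (q : ℕ) : th q 4 = q ^ 3 + q ^ 2 + q + 1 := by rw [th_succ, th3]; ring

/-- a design all of whose lines are full -/
structure Pg (q : ℕ) (B : ι → Finset V) : Prop where
  h : Des q 1 B
  good : ∀ x y, x ≠ y → Good q B x y

/-- lines -/
def IsL (B : ι → Finset V) (U : Finset V) : Prop := ∃ x y, x ≠ y ∧ U = cl B {x, y}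

lemma Pg.card_line (P : Pg q B) {U : Finset V} (hU : IsL B U) : U.card = q + 1 := by
  obtain ⟨x, y, hxy, rfl⟩ := hU
  exact P.good x y hxy

lemma Pg.line_eq (P : Pg q B) {U : Finset V} (hU : IsL B U) {x y : V} (hxy : x ≠ y) (hx : x ∈ U)
    (hy : y ∈ U) : cl B {x, y} = U := by
  obtain ⟨a, b, hab, rfl⟩ := hU
  exact P.h.line_eq hab hx hy hxy

lemma Pg.line_sub (P : Pg q B) {U : Finset V} (hU : IsL B U) {x y : V} (hxy : x ≠ y) (hx : x ∈ U)
    (hy : y ∈ U) {i : ι} (hi : x ∈ B i) (hj : y ∈ B i) : U ⊆ B i := by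
  rw [← P.line_eq hU hxy hx hy]
  exact cl_subset (pair_subset.2 ⟨hi, hj⟩)

lemma Pg.inter_isL (P : Pg q B) {i j : ι} (hij : i ≠ j) : IsL B (B i ∩ B j) := by
  have hn := P.h.hn
  have hc : (B i ∩ B j).card = q + 1 := by
    rw [P.h.inter i j hij]; exact th2 q
  obtain ⟨x, hx, y, hy, hxy⟩ := one_lt_card.1 (by rw [hc]; omega : 1 < (B i ∩ B j).card)
  rw [mem_inter] at hx hy
  refine ⟨x, y, hxy, ?_⟩
  symm
  apply eq_of_subset_of_card_le
  · exact subset_inter (cl_subset (pair_subset.2 ⟨hx.1, hy.1⟩))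
      (cl_subset (pair_subset.2 ⟨hx.2, hy.2⟩))
  · rw [hc, P.good x y hxy]

lemma Pg.meet (P : Pg q B) {U : Finset V} (hU : IsL B U) {i : ι} (hi : ¬ U ⊆ B i) :
    (B i ∩ U).card = 1 := by
  obtain ⟨x, y, hxy, rfl⟩ := hU
  exact P.h.good_meet hxy (P.good x y hxy) (fun hc => hi (cl_subset (pair_subset.2 hc)))

lemma Pg.ex_blk (P : Pg q B) {U : Finset V} (hU : IsL B U) {x : V} (hx : x ∉ U) :
    ∃ i, (U ⊆ B i ∧ x ∈ B i) ∧ ∀ j, U ⊆ B j → x ∈ B j → j = i := by
  obtain ⟨a, b, hab, rfl⟩ := hU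
  have h1 := P.h.blk_triple hab (P.good a b hab) hx
  rw [th_one, card_eq_one] at h1
  obtain ⟨i, hi⟩ := h1
  have hmem : ∀ j, j ∈ blk B {a, b, x} ↔ (cl B {a, b} ⊆ B j ∧ x ∈ B j) := by
    intro j
    rw [mem_blk, triple_subset, cl_sub_iff, pair_subset]
    tauto
  refine ⟨i, (hmem i).1 (by rw [hi]; simp), ?_⟩
  intro j h1 h2
  have := (hmem j).2 ⟨h1, h2⟩
  rw [hi] at this
  simpa using this

lemma Pg.card_blk (P : Pg q B) {U : Finset V} (hU : IsL B U) :
    (univ.filter fun i => U ⊆ B i).card = q + 1 := by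
  obtain ⟨x, y, hxy, rfl⟩ := hU
  rw [← th2 q, ← P.h.blk_pair hxy]
  congr 1
  ext i
  simp only [mem_filter, mem_univ, true_and, mem_blk, cl_sub_iff]

/-- lines in the block `i0` -/
structure LH (B : ι → Finset V) (i0 : ι) (U : Finset V) : Prop where
  isL : IsL B U
  sub : U ⊆ B i0

lemma Pg.tr_eq (P : Pg q B) {U : Finset V} (hU : LH B i0 U) {i : ι} (hi : i ≠ i0)
    (hs : U ⊆ B i) : B i ∩ B i0 = U := by
  symm
  apply eq_of_subset_of_card_le (subset_inter hs hU.sub)
  rw [P.card_line (P.inter_isL hi), P.card_line hU.isL]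

lemma Pg.tr_LH (P : Pg q B) {i : ι} (hi : i ≠ i0) : LH B i0 (B i ∩ B i0) :=
  ⟨P.inter_isL hi, inter_subset_right⟩

lemma Pg.ex_ne (P : Pg q B) {U : Finset V} (hU : LH B i0 U) : ∃ i, i ≠ i0 ∧ B i ∩ B i0 = U := by
  have hn := P.h.hn
  have h1 := P.card_blk hU.isL
  obtain ⟨i, hi, hne⟩ := exists_mem_ne (by rw [h1]; omega :
    1 < (univ.filter fun i => U ⊆ B i).card) i0
  exact ⟨i, hne, P.tr_eq hU hne (by simpa using hi)⟩

lemma Pg.LH_meet (P : Pg q B) {U U' : Finset V} (hU : LH B i0 U) (hU' : LH B i0 U')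
    (hne : U ≠ U') : (U ∩ U').card = 1 := by
  obtain ⟨i, hi, ht⟩ := P.ex_ne hU
  have hns : ¬ U' ⊆ B i := fun hc => hne (ht.symm.trans (P.tr_eq hU' hi hc))
  have h1 := P.meet hU'.isL hns
  rw [← h1, ← ht]
  congr 1
  ext z
  simp only [mem_inter]
  constructor
  · rintro ⟨⟨h1, h2⟩, h3⟩; exact ⟨h1, h3⟩
  · rintro ⟨h1, h3⟩; exact ⟨⟨h1, hU'.sub h3⟩, h3⟩

lemma Pg.card_tr (P : Pg q B) {U : Finset V} (hU : LH B i0 U) :
    ((univ.filter fun i => i ≠ i0).filter fun i => B i ∩ B i0 = U).card = q := by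
  have e : ((univ.filter fun i => i ≠ i0).filter fun i => B i ∩ B i0 = U) =
      (univ.filter fun i => U ⊆ B i).erase i0 := by
    ext i
    simp only [mem_filter, mem_univ, true_and, mem_erase]
    constructor
    · rintro ⟨h1, h2⟩
      exact ⟨h1, by rw [← h2]; exact inter_subset_left⟩
    · rintro ⟨h1, h2⟩
      exact ⟨h1, P.tr_eq hU h1 h2⟩
  rw [e, card_erase_of_mem (by simp [hU.sub]), P.card_blk hU.isL]
  rfl

lemma Pg.ex_tr (P : Pg q B) {U : Finset V} (hU : LH B i0 U) {x : V} (hx : x ∉ B i0) :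
    ∃ i, (x ∈ B i ∧ B i ∩ B i0 = U) ∧ ∀ j, x ∈ B j → B j ∩ B i0 = U → j = i := by
  obtain ⟨i, ⟨h1, h2⟩, h3⟩ := P.ex_blk hU.isL (fun hc => hx (hU.sub hc))
  have hi : i ≠ i0 := by rintro rfl; exact hx h2
  refine ⟨i, ⟨h2, P.tr_eq hU hi h1⟩, ?_⟩
  intro j hj1 hj2
  exact h3 j (by rw [← hj2]; exact inter_subset_left) hj1

lemma Pg.card_tr' (P : Pg q B) {U : Finset V} (hU : LH B i0 U) {x : V} (hx : x ∉ B i0) :
    ((univ.filter fun i => x ∈ B i).filter fun i => B i ∩ B i0 = U).card = 1 := by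
  obtain ⟨i, ⟨h1, h2⟩, h3⟩ := P.ex_tr hU hx
  rw [card_eq_one]
  refine ⟨i, ?_⟩
  ext j
  simp only [mem_filter, mem_univ, true_and, mem_singleton]
  constructor
  · rintro ⟨h4, h5⟩; exact h3 j h4 h5
  · rintro rfl; exact ⟨h1, h2⟩

lemma LH_pair {p w : V} (hpw : p ≠ w) (hp : p ∈ B i0) (hw : w ∈ B i0) :
    LH B i0 (cl B {p, w}) :=
  ⟨⟨p, w, hpw, rfl⟩, cl_subset (pair_subset.2 ⟨hp, hw⟩)⟩

lemma Pg.card_H (P : Pg q B) : (B i0).card = q ^ 2 + q + 1 := by
  rw [P.h.size i0]; exact th3 q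

lemma Pg.third (P : Pg q B) {p : V} {U U' : Finset V} (hU : LH B i0 U) (hU' : LH B i0 U')
    (hp : p ∈ U) : ∃ U'', LH B i0 U'' ∧ p ∈ U'' ∧ U'' ≠ U ∧ U'' ≠ U' := by
  have hn := P.h.hn
  have h1 : (U ∪ U').card < (B i0).card := by
    have h2 := card_union_le U U'
    rw [P.card_line hU.isL, P.card_line hU'.isL] at h2
    rw [P.card_H]
    nlinarith
  obtain ⟨w, hw1, hw2⟩ := exists_mem_notMem_of_card_lt_card h1
  rw [mem_union, not_or] at hw2
  have hpw : p ≠ w := by rintro rfl; exact hw2.1 hp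
  refine ⟨cl B {p, w}, LH_pair hpw (hU.sub hp) hw1, left_mem p w, ?_, ?_⟩
  · intro h; exact hw2.1 (h ▸ right_mem p w)
  · intro h; exact hw2.2 (h ▸ right_mem p w)

lemma Pg.only (P : Pg q B) {X : Finset V} (hX : LH B i0 X) {p z : V} (hp : p ∈ B i0)
    (hz : z ∈ B i0) (H : ∀ U, LH B i0 U → p ∈ U → U ≠ X → z ∈ U) : z = p := by
  by_contra hne
  obtain ⟨U, hU, hpU, hne1, hne2⟩ := P.third (LH_pair (Ne.symm hne) hp hz) hX (left_mem p z)
  exact hne1 (P.line_eq hU.isL (Ne.symm hne) hpU (H U hU hpU hne2)).symm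

/-! ### the transposition -/

/-- the transposition of two lines -/
noncomputable def sw (U₁ U₂ : Finset V) (U : Finset V) : Finset V := Equiv.swap U₁ U₂ U

lemma sw_left : sw U₁ U₂ U₁ = U₂ := Equiv.swap_apply_left _ _

lemma sw_right : sw U₁ U₂ U₂ = U₁ := Equiv.swap_apply_right _ _

lemma sw_ne {U : Finset V} (h1 : U ≠ U₁) (h2 : U ≠ U₂) : sw U₁ U₂ U = U :=
  Equiv.swap_apply_of_ne_of_ne h1 h2

lemma sw_sw (U : Finset V) : sw U₁ U₂ (sw U₁ U₂ U) = U := by
  exact Equiv.congr_fun (Equiv.swap_swap U₁ U₂) U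

lemma sw_comm : sw U₁ U₂ = sw U₂ U₁ := by
  funext U
  unfold sw
  rw [Equiv.swap_comm]

/-- counting with the transposition -/
lemma card_sw (S : Finset ι) (T : ι → Finset V)
    (hc : (S.filter fun i => T i = U₁).card = (S.filter fun i => T i = U₂).card)
    (P : Finset V → Prop) :
    (S.filter fun i => P (sw U₁ U₂ (T i))).card = (S.filter fun i => P (T i)).card := by
  have h1 : ∀ Q : Finset V → Prop, (S.filter fun i => Q (T i)).card =
      ∑ U : Finset V, if Q U then (S.filter fun i => T i = U).card else 0 := by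
    intro Q
    rw [card_eq_sum_card_fiberwise (f := T) (t := univ) (fun _ _ => by simp)]
    refine sum_congr rfl fun U _ => ?_
    by_cases hQ : Q U
    · rw [if_pos hQ]
      congr 1
      ext i
      simp only [mem_filter]
      constructor
      · rintro ⟨⟨h1, h2⟩, h3⟩; exact ⟨h1, h3⟩
      · rintro ⟨h1, h3⟩; exact ⟨⟨h1, h3 ▸ hQ⟩, h3⟩
    · rw [if_neg hQ, card_eq_zero]
      ext i
      simp only [mem_filter, notMem_empty, iff_false, not_and]
      rintro ⟨h1, h2⟩ h3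
      exact hQ (h3 ▸ h2)
  have h2 : ∀ U, (S.filter fun i => T i = sw U₁ U₂ U).card = (S.filter fun i => T i = U).card := by
    intro U
    by_cases e1 : U = U₁
    · rw [e1, sw_left, hc]
    · by_cases e2 : U = U₂
      · rw [e2, sw_right, hc]
      · rw [sw_ne e1 e2]
  rw [h1 (fun U => P (sw U₁ U₂ U)), h1 P]
  rw [← Equiv.sum_comp (Equiv.swap U₁ U₂)]
  refine sum_congr rfl fun U _ => ?_
  have h3 : sw U₁ U₂ ((Equiv.swap U₁ U₂) U) = U := sw_sw U
  have h4 := h2 U
  rw [h3]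
  congr 1

/-- the configuration -/
structure Cfg (q : ℕ) (B : ι → Finset V) (i0 : ι) (U₁ U₂ : Finset V) : Prop where
  P : Pg q B
  l1 : LH B i0 U₁
  l2 : LH B i0 U₂
  ne : U₁ ≠ U₂

lemma Cfg.symm (c : Cfg q B i0 U₁ U₂) : Cfg q B i0 U₂ U₁ := ⟨c.P, c.l2, c.l1, c.ne.symm⟩

/-- the symmetric difference -/
noncomputable def W (U₁ U₂ : Finset V) : Finset V := (U₁ \ U₂) ∪ (U₂ \ U₁)

lemma W_comm : W U₁ U₂ = W U₂ U₁ := by
  unfold W; rw [union_comm]

lemma mem_W {y : V} : y ∈ W U₁ U₂ ↔ (y ∈ U₁ ∧ y ∉ U₂) ∨ (y ∈ U₂ ∧ y ∉ U₁) := by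
  simp [W]

lemma Cfg.W_sub (c : Cfg q B i0 U₁ U₂) : W U₁ U₂ ⊆ B i0 := by
  intro y hy
  rcases mem_W.1 hy with h | h
  · exact c.l1.sub h.1
  · exact c.l2.sub h.1

lemma Cfg.card_W (c : Cfg q B i0 U₁ U₂) : (W U₁ U₂).card = 2 * q := by
  have h1 := c.P.LH_meet c.l1 c.l2 c.ne
  have h2 := card_sdiff_add_card_inter U₁ U₂
  have h3 := card_sdiff_add_card_inter U₂ U₁
  rw [inter_comm] at h3
  rw [h1, c.P.card_line c.l1.isL] at h2
  rw [h1, c.P.card_line c.l2.isL] at h3
  unfold W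
  rw [card_union_of_disjoint]
  · omega
  · rw [disjoint_left]
    intro y h4 h5
    rw [mem_sdiff] at h4 h5
    exact h4.2 h5.1

lemma mem_sw {y : V} (hy : y ∉ W U₁ U₂) (U : Finset V) : y ∈ sw U₁ U₂ U ↔ y ∈ U := by
  rw [mem_W, not_or, not_and_not_right, not_and_not_right] at hy
  by_cases e1 : U = U₁
  · rw [e1, sw_left]; exact ⟨hy.2, hy.1⟩
  · by_cases e2 : U = U₂
    · rw [e2, sw_right]; exact ⟨hy.1, hy.2⟩
    · rw [sw_ne e1 e2]

lemma Cfg.sw_LH (c : Cfg q B i0 U₁ U₂) {U : Finset V} (hU : LH B i0 U) :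
    LH B i0 (sw U₁ U₂ U) := by
  by_cases e1 : U = U₁
  · rw [e1, sw_left]; exact c.l2
  · by_cases e2 : U = U₂
    · rw [e2, sw_right]; exact c.l1
    · rw [sw_ne e1 e2]; exact hU

/-- the new blocks -/
noncomputable def B' (B : ι → Finset V) (i0 : ι) (U₁ U₂ : Finset V) (i : ι) : Finset V :=
  if i = i0 then B i0 else (B i \ B i0) ∪ sw U₁ U₂ (B i ∩ B i0)

lemma B'_comm : B' B i0 U₁ U₂ = B' B i0 U₂ U₁ := by
  funext i
  unfold B'
  rw [sw_comm]

lemma B'_zero : B' B i0 U₁ U₂ i0 = B i0 := by simp [B']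

lemma Cfg.mem_out (c : Cfg q B i0 U₁ U₂) {x : V} (hx : x ∉ B i0) (i : ι) :
    x ∈ B' B i0 U₁ U₂ i ↔ x ∈ B i := by
  by_cases hi : i = i0
  · rw [hi, B'_zero]
  · rw [B', if_neg hi, mem_union, mem_sdiff]
    constructor
    · rintro (h | h)
      · exact h.1
      · exact absurd ((c.sw_LH (c.P.tr_LH hi)).sub h) hx
    · intro h; exact Or.inl ⟨h, hx⟩

lemma mem_in {x : V} (hx : x ∈ B i0) {i : ι} (hi : i ≠ i0) :
    x ∈ B' B i0 U₁ U₂ i ↔ x ∈ sw U₁ U₂ (B i ∩ B i0) := by
  rw [B', if_neg hi, mem_union, mem_sdiff]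
  constructor
  · rintro (h | h)
    · exact absurd hx h.2
    · exact h
  · intro h; exact Or.inr h

lemma Cfg.card_B' (c : Cfg q B i0 U₁ U₂) (i : ι) :
    (B' B i0 U₁ U₂ i).card = q ^ 2 + q + 1 := by
  by_cases hi : i = i0
  · rw [hi, B'_zero]; exact c.P.card_H
  · have h1 := c.sw_LH (c.P.tr_LH hi)
    rw [B', if_neg hi, card_union_of_disjoint, c.P.card_line h1.isL,
      ← c.P.card_line (c.P.tr_LH (i0 := i0) hi).isL, card_sdiff_add_card_inter]
    · exact c.P.card_H
    · rw [disjoint_left]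
      intro y hy hy'
      exact (mem_sdiff.1 hy).2 (h1.sub hy')

/-- the number of the blocks through points of `i0` -/
lemma Cfg.count_in (c : Cfg q B i0 U₁ U₂) (x y : V) (hx : x ∈ B i0) (hy : y ∈ B i0) :
    (univ.filter fun i => x ∈ B' B i0 U₁ U₂ i ∧ y ∈ B' B i0 U₁ U₂ i).card =
      (univ.filter fun i => x ∈ B i ∧ y ∈ B i).card := by
  have h1 := card_sw (U₁ := U₁) (U₂ := U₂) (univ.filter fun i => i ≠ i0) (fun i => B i ∩ B i0)
    (by rw [c.P.card_tr c.l1, c.P.card_tr c.l2]) (fun U => x ∈ U ∧ y ∈ U)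
  have e1 : (univ.filter fun i => x ∈ B' B i0 U₁ U₂ i ∧ y ∈ B' B i0 U₁ U₂ i) =
      insert i0 ((univ.filter fun i => i ≠ i0).filter fun i =>
        x ∈ sw U₁ U₂ (B i ∩ B i0) ∧ y ∈ sw U₁ U₂ (B i ∩ B i0)) := by
    ext i
    simp only [mem_filter, mem_univ, true_and, mem_insert]
    by_cases hi : i = i0
    · simp [hi, B'_zero, hx, hy]
    · simp [hi, mem_in hx hi, mem_in hy hi]
  have e2 : (univ.filter fun i => x ∈ B i ∧ y ∈ B i) =
      insert i0 ((univ.filter fun i => i ≠ i0).filter fun i =>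
        x ∈ B i ∩ B i0 ∧ y ∈ B i ∩ B i0) := by
    ext i
    simp only [mem_filter, mem_univ, true_and, mem_insert, mem_inter]
    by_cases hi : i = i0
    · simp [hi, hx, hy]
    · simp [hi, hx, hy]
  rw [e1, e2, card_insert_of_notMem (by simp), card_insert_of_notMem (by simp)]
  congr 1
  convert h1

lemma Cfg.count_mix (c : Cfg q B i0 U₁ U₂) (x y : V) (hx : x ∉ B i0) (hy : y ∈ B i0) :
    (univ.filter fun i => x ∈ B' B i0 U₁ U₂ i ∧ y ∈ B' B i0 U₁ U₂ i).card =
      (univ.filter fun i => x ∈ B i ∧ y ∈ B i).card := by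
  have h1 := card_sw (U₁ := U₁) (U₂ := U₂) (univ.filter fun i => x ∈ B i) (fun i => B i ∩ B i0)
    (by rw [c.P.card_tr' c.l1 hx, c.P.card_tr' c.l2 hx]) (fun U => y ∈ U)
  have hne : ∀ i, x ∈ B i → i ≠ i0 := by rintro i hi rfl; exact hx hi
  have e1 : (univ.filter fun i => x ∈ B' B i0 U₁ U₂ i ∧ y ∈ B' B i0 U₁ U₂ i) =
      ((univ.filter fun i => x ∈ B i).filter fun i => y ∈ sw U₁ U₂ (B i ∩ B i0)) := by
    ext i
    simp only [mem_filter, mem_univ, true_and, c.mem_out hx]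
    constructor
    · rintro ⟨h2, h3⟩; exact ⟨h2, (mem_in hy (hne i h2)).1 h3⟩
    · rintro ⟨h2, h3⟩; exact ⟨h2, (mem_in hy (hne i h2)).2 h3⟩
  have e2 : (univ.filter fun i => x ∈ B i ∧ y ∈ B i) =
      ((univ.filter fun i => x ∈ B i).filter fun i => y ∈ B i ∩ B i0) := by
    ext i
    simp only [mem_filter, mem_univ, true_and, mem_inter, hy, and_true]
  rw [e1, e2]
  convert h1

lemma Cfg.count_out (c : Cfg q B i0 U₁ U₂) (x y : V) (hx : x ∉ B i0) (hy : y ∉ B i0) :
    (univ.filter fun i => x ∈ B' B i0 U₁ U₂ i ∧ y ∈ B' B i0 U₁ U₂ i).card =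
      (univ.filter fun i => x ∈ B i ∧ y ∈ B i).card := by
  congr 1
  ext i
  simp only [mem_filter, mem_univ, true_and, c.mem_out hx, c.mem_out hy]

lemma Cfg.count (c : Cfg q B i0 U₁ U₂) (x y : V) :
    (univ.filter fun i => x ∈ B' B i0 U₁ U₂ i ∧ y ∈ B' B i0 U₁ U₂ i).card =
      (univ.filter fun i => x ∈ B i ∧ y ∈ B i).card := by
  by_cases hx : x ∈ B i0 <;> by_cases hy : y ∈ B i0
  · exact c.count_in x y hx hy
  · have := c.count_mix y x hy hx
    simp only [and_comm] at this ⊢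
    exact this
  · exact c.count_mix x y hx hy
  · exact c.count_out x y hx hy

/-- the new design -/
lemma Cfg.des (c : Cfg q B i0 U₁ U₂) : Des q 1 (B' B i0 U₁ U₂) := by
  have h := c.P.h
  refine ⟨h.hn, h.ptcard, h.blcard, ?_, ?_, ?_, ?_⟩
  · intro i; rw [c.card_B', ← th3 q]
  · intro x
    have h1 := c.count x x
    simp only [and_self] at h1
    rw [h1]; exact h.deg x
  · intro x y hxy
    rw [c.count x y]; exact h.pair x y hxy
  · intro i j hij
    have key : ∀ i j, i ≠ j → i ≠ i0 → j ≠ i0 →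
        (B' B i0 U₁ U₂ i ∩ B' B i0 U₁ U₂ j).card = th q (1 + 1) := by
      intro i j hij hi hj
      have e1 : B' B i0 U₁ U₂ i ∩ B' B i0 U₁ U₂ j = ((B i ∩ B j) \ B i0) ∪
          (sw U₁ U₂ (B i ∩ B i0) ∩ sw U₁ U₂ (B j ∩ B i0)) := by
        ext z
        by_cases hz : z ∈ B i0
        · simp only [mem_inter, mem_union, mem_sdiff, mem_in hz hi, mem_in hz hj, hz,
            not_true_eq_false, and_false, false_or]
        · have n1 : z ∉ sw U₁ U₂ (B i ∩ B i0) := fun hc => hz ((c.sw_LH (c.P.tr_LH hi)).sub hc)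
          simp only [mem_inter, mem_union, mem_sdiff, c.mem_out hz, hz, n1, false_and, or_false,
            not_false_eq_true, and_true]
      have e2 : B i ∩ B j = ((B i ∩ B j) \ B i0) ∪ ((B i ∩ B i0) ∩ (B j ∩ B i0)) := by
        ext z
        by_cases hz : z ∈ B i0
        · simp only [mem_inter, mem_union, mem_sdiff, hz, not_true_eq_false, and_false, false_or,
            and_true]
        · simp only [mem_inter, mem_union, mem_sdiff, hz, not_false_eq_true, and_true, and_false,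
            or_false]
      have hl1 := c.P.tr_LH (i0 := i0) hi
      have hl2 := c.P.tr_LH (i0 := i0) hj
      have e3 : (sw U₁ U₂ (B i ∩ B i0) ∩ sw U₁ U₂ (B j ∩ B i0)).card =
          ((B i ∩ B i0) ∩ (B j ∩ B i0)).card := by
        by_cases he : B i ∩ B i0 = B j ∩ B i0
        · rw [he, inter_self, inter_self, c.P.card_line (c.sw_LH hl2).isL, c.P.card_line hl2.isL]
        · rw [c.P.LH_meet hl1 hl2 he, c.P.LH_meet (c.sw_LH hl1) (c.sw_LH hl2)]
          intro hc
          apply he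
          rw [← sw_sw (U₁ := U₁) (U₂ := U₂) (B i ∩ B i0), hc, sw_sw]
      rw [← h.inter i j hij, e1, card_union_of_disjoint, e3]
      · conv_rhs => rw [e2]
        rw [card_union_of_disjoint]
        rw [disjoint_left]
        intro z h1 h2
        simp only [mem_sdiff, mem_inter] at h1 h2
        exact h1.2 h2.1.2
      · rw [disjoint_left]
        intro z h1 h2
        rw [mem_inter] at h2
        exact (mem_sdiff.1 h1).2 ((c.sw_LH hl1).sub h2.1)
    have key0 : ∀ j, j ≠ i0 → (B' B i0 U₁ U₂ i0 ∩ B' B i0 U₁ U₂ j).card = th q (1 + 1) := by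
      intro j hj
      have hl2 := c.P.tr_LH (i0 := i0) hj
      have e1 : B' B i0 U₁ U₂ i0 ∩ B' B i0 U₁ U₂ j = sw U₁ U₂ (B j ∩ B i0) := by
        ext z
        by_cases hz : z ∈ B i0
        · simp only [mem_inter, B'_zero, hz, true_and, mem_in hz hj]
        · have n1 : z ∉ sw U₁ U₂ (B j ∩ B i0) := fun hc => hz ((c.sw_LH hl2).sub hc)
          simp only [mem_inter, B'_zero, hz, false_and, n1]
      rw [e1, c.P.card_line (c.sw_LH hl2).isL, ← th2 q]
    by_cases hi : i = i0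
    · subst hi
      exact key0 j (Ne.symm hij)
    · by_cases hj : j = i0
      · subst hj
        rw [inter_comm]
        exact key0 i hi
      · exact key i j hij hi hj

/-! ### the lines of the new design -/

lemma mem_cl2 {C : ι → Finset V} {x y z : V} :
    z ∈ cl C {x, y} ↔ ∀ i, x ∈ C i → y ∈ C i → z ∈ C i := by
  rw [mem_cl]
  simp only [pair_subset, and_imp]

/-- the traces of the blocks through a line outside -/
lemma Cfg.K1 (c : Cfg q B i0 U₁ U₂) {p z : V} (hp : p ∈ B i0) (hz : z ∈ B i0)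
    (hW : p ∉ W U₁ U₂) : (∀ U, LH B i0 U → p ∈ U → z ∈ sw U₁ U₂ U) ↔ z = p := by
  constructor
  · intro H
    refine c.P.only c.l1 hp hz ?_
    intro U hU hpU _
    have := H (sw U₁ U₂ U) (c.sw_LH hU) ((mem_sw hW U).2 hpU)
    rwa [sw_sw] at this
  · rintro rfl U hU hzU
    exact (mem_sw hW U).2 hzU

lemma Cfg.K2' (c : Cfg q B i0 U₁ U₂) {p z : V} (h1 : p ∈ U₁) (h2 : p ∉ U₂) (hz : z ∈ B i0) :
    ¬ ∀ U, LH B i0 U → p ∈ U → z ∈ sw U₁ U₂ U := by
  intro H
  have hz2 : z ∈ U₂ := by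
    have := H U₁ c.l1 h1
    rwa [sw_left] at this
  have : z = p := by
    refine c.P.only c.l1 (c.l1.sub h1) hz ?_
    intro U hU hpU hne
    have := H U hU hpU
    rwa [sw_ne hne (by rintro rfl; exact h2 hpU)] at this
  exact h2 (this ▸ hz2)

lemma Cfg.K2 (c : Cfg q B i0 U₁ U₂) {p z : V} (hW : p ∈ W U₁ U₂) (hz : z ∈ B i0) :
    ¬ ∀ U, LH B i0 U → p ∈ U → z ∈ sw U₁ U₂ U := by
  rcases mem_W.1 hW with h | h
  · exact c.K2' h.1 h.2 hz
  · rw [sw_comm]
    exact c.symm.K2' h.1 h.2 hz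

/-- the point of a line on the block `i0` -/
lemma Pg.pt (P : Pg q B) {x y : V} (hxy : x ≠ y) (hx : x ∉ B i0) :
    ∃ p, B i0 ∩ cl B {x, y} = {p} := by
  rw [← card_eq_one]
  exact P.meet ⟨x, y, hxy, rfl⟩ (fun hc => hx (hc (left_mem x y)))

/-- two points outside -/
lemma Cfg.out (c : Cfg q B i0 U₁ U₂) {x y p : V} (hxy : x ≠ y) (hx : x ∉ B i0) (hy : y ∉ B i0)
    (hp : B i0 ∩ cl B {x, y} = {p}) :
    Good q (B' B i0 U₁ U₂) x y ↔ p ∉ W U₁ U₂ := by
  have hp' : p ∈ B i0 ∩ cl B {x, y} := by rw [hp]; simp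
  rw [mem_inter] at hp'
  have hpx : p ≠ x := by rintro rfl; exact hx hp'.1
  have hL : IsL B (cl B {x, y}) := ⟨x, y, hxy, rfl⟩
  have hzout : ∀ z, z ∉ B i0 → (z ∈ cl (B' B i0 U₁ U₂) {x, y} ↔ z ∈ cl B {x, y}) := by
    intro z hz
    simp only [mem_cl2, c.mem_out hx, c.mem_out hy, c.mem_out hz]
  have hzin : ∀ z, z ∈ B i0 → (z ∈ cl (B' B i0 U₁ U₂) {x, y} ↔
      ∀ U, LH B i0 U → p ∈ U → z ∈ sw U₁ U₂ U) := by
    intro z hz
    simp only [mem_cl2, c.mem_out hx, c.mem_out hy]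
    constructor
    · intro H U hU hpU
      obtain ⟨i, ⟨h1, h2⟩, -⟩ := c.P.ex_tr hU hx
      have hi : i ≠ i0 := by rintro rfl; exact hx h1
      have hpi : p ∈ B i := by
        rw [← h2, mem_inter] at hpU
        exact hpU.1
      have hyi : y ∈ B i :=
        c.P.line_sub hL hpx hp'.2 (left_mem x y) hpi h1 (right_mem x y)
      have := H i h1 hyi
      rwa [mem_in hz hi, h2] at this
    · intro H i h1 h2
      have hi : i ≠ i0 := by rintro rfl; exact hx h1
      rw [mem_in hz hi]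
      refine H _ (c.P.tr_LH hi) ?_
      rw [mem_inter]
      exact ⟨mem_cl2.1 hp'.2 i h1 h2, hp'.1⟩
  constructor
  · intro hg hW
    have hsub : cl (B' B i0 U₁ U₂) {x, y} ⊆ (cl B {x, y}).erase p := by
      intro z hz
      rw [mem_erase]
      by_cases hz0 : z ∈ B i0
      · exact absurd ((hzin z hz0).1 hz) (c.K2 hW hz0)
      · refine ⟨?_, (hzout z hz0).1 hz⟩
        rintro rfl
        exact hz0 hp'.1
    have h1 := card_le_card hsub
    rw [card_erase_of_mem hp'.2, c.P.good x y hxy] at h1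
    unfold Good at hg
    omega
  · intro hW
    have heq : cl (B' B i0 U₁ U₂) {x, y} = cl B {x, y} := by
      ext z
      by_cases hz0 : z ∈ B i0
      · rw [hzin z hz0, c.K1 hp'.1 hz0 hW]
        constructor
        · rintro rfl; exact hp'.2
        · intro hz
          have : z ∈ B i0 ∩ cl B {x, y} := mem_inter.2 ⟨hz0, hz⟩
          rw [hp] at this
          simpa using this
      · exact hzout z hz0
    unfold Good
    rw [heq]
    exact c.P.good x y hxy

lemma Cfg.mix_good (c : Cfg q B i0 U₁ U₂) {x y : V} (hx : x ∉ B i0) (hy : y ∈ B i0)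
    (hW : y ∉ W U₁ U₂) : Good q (B' B i0 U₁ U₂) x y := by
  have hxy : x ≠ y := by rintro rfl; exact hx hy
  have hL : IsL B (cl B {x, y}) := ⟨x, y, hxy, rfl⟩
  obtain ⟨p, hp⟩ := c.P.pt hxy hx
  have hpy : y = p := by
    have : y ∈ B i0 ∩ cl B {x, y} := mem_inter.2 ⟨hy, right_mem x y⟩
    rw [hp] at this
    simpa using this
  subst hpy
  have hmem : ∀ i, x ∈ B i → (y ∈ B' B i0 U₁ U₂ i ↔ y ∈ B i) := by
    intro i hi
    have hi0 : i ≠ i0 := by rintro rfl; exact hx hi
    rw [mem_in hy hi0, mem_sw hW, mem_inter]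
    exact ⟨fun h => h.1, fun h => ⟨h, hy⟩⟩
  have heq : cl (B' B i0 U₁ U₂) {x, y} = cl B {x, y} := by
    ext z
    by_cases hz0 : z ∈ B i0
    · have h1 : z ∈ cl (B' B i0 U₁ U₂) {x, y} ↔
          ∀ U, LH B i0 U → y ∈ U → z ∈ sw U₁ U₂ U := by
        rw [mem_cl2]
        simp only [c.mem_out hx]
        constructor
        · intro H U hU hyU
          obtain ⟨i, ⟨h1, h2⟩, -⟩ := c.P.ex_tr hU hx
          have hi : i ≠ i0 := by rintro rfl; exact hx h1
          have hyi : y ∈ B i := by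
            rw [← h2, mem_inter] at hyU
            exact hyU.1
          have := H i h1 ((hmem i h1).2 hyi)
          rwa [mem_in hz0 hi, h2] at this
        · intro H i h1 h2
          have hi : i ≠ i0 := by rintro rfl; exact hx h1
          rw [mem_in hz0 hi]
          refine H _ (c.P.tr_LH hi) ?_
          rw [mem_inter]
          exact ⟨(hmem i h1).1 h2, hy⟩
      rw [h1, c.K1 hy hz0 hW]
      constructor
      · rintro rfl; exact right_mem x z
      · intro hz
        have : z ∈ B i0 ∩ cl B {x, y} := mem_inter.2 ⟨hz0, hz⟩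
        rw [hp] at this
        simpa using this
    · simp only [mem_cl2, c.mem_out hx, c.mem_out hz0]
      constructor
      · intro H i h1 h2; exact H i h1 ((hmem i h1).2 h2)
      · intro H i h1 h2; exact H i h1 ((hmem i h1).1 h2)
  unfold Good
  rw [heq]
  exact c.P.good x y hxy

lemma Cfg.mix_short' (c : Cfg q B i0 U₁ U₂) {x y : V} (hx : x ∉ B i0)
    (h1 : y ∈ U₁) (h2 : y ∉ U₂) : ¬ Good q (B' B i0 U₁ U₂) x y := by
  have hn := c.P.h.hn
  have hy : y ∈ B i0 := c.l1.sub h1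
  have hxy : x ≠ y := by rintro rfl; exact hx hy
  have hL : IsL B (cl B {x, y}) := ⟨x, y, hxy, rfl⟩
  have hsub : cl (B' B i0 U₁ U₂) {x, y} ⊆ {x, y} := by
    intro z hz
    rw [mem_cl2] at hz
    simp only [c.mem_out hx] at hz
    -- for every line through `y`
    have hl : ∀ U, LH B i0 U → y ∈ U → ∃ i, x ∈ B i ∧ i ≠ i0 ∧ B i ∩ B i0 = sw U₁ U₂ U ∧
        z ∈ B' B i0 U₁ U₂ i := by
      intro U hU hyU
      obtain ⟨i, ⟨h3, h4⟩, -⟩ := c.P.ex_tr (c.sw_LH hU) hx
      have hi : i ≠ i0 := by rintro rfl; exact hx h3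
      refine ⟨i, h3, hi, h4, hz i h3 ?_⟩
      rw [mem_in hy hi, h4, sw_sw]
      exact hyU
    by_cases hz0 : z ∈ B i0
    · have : z = y := by
        refine c.P.only c.l1 hy hz0 ?_
        intro U hU hyU _
        obtain ⟨i, h3, hi, h4, h5⟩ := hl U hU hyU
        rwa [mem_in hz0 hi, h4, sw_sw] at h5
      rw [this]; simp
    · -- two lines through `y` other than `U₁`
      obtain ⟨X, hX, hyX, hX1, -⟩ := c.P.third c.l1 c.l1 h1
      obtain ⟨Y, hY, hyY, hY1, hYX⟩ := c.P.third c.l1 hX h1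
      have hX2 : X ≠ U₂ := by rintro rfl; exact h2 hyX
      have hY2 : Y ≠ U₂ := by rintro rfl; exact h2 hyY
      obtain ⟨i, hi1, hi2, hi3, hi4⟩ := hl X hX hyX
      obtain ⟨j, hj1, hj2, hj3, hj4⟩ := hl Y hY hyY
      obtain ⟨k, hk1, hk2, hk3, hk4⟩ := hl U₁ c.l1 h1
      rw [sw_ne hX1 hX2] at hi3
      rw [sw_ne hY1 hY2] at hj3
      rw [sw_left] at hk3
      rw [c.mem_out hz0] at hi4 hj4 hk4
      have hij : i ≠ j := by
        rintro rfl
        exact hYX (hj3.symm.trans hi3)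
      have hyi : y ∈ B i := by
        rw [← hi3, mem_inter] at hyX
        exact hyX.1
      have hyj : y ∈ B j := by
        rw [← hj3, mem_inter] at hyY
        exact hyY.1
      have hl2 : cl B {x, y} = B i ∩ B j :=
        c.P.line_eq (c.P.inter_isL hij) hxy (mem_inter.2 ⟨hi1, hj1⟩) (mem_inter.2 ⟨hyi, hyj⟩)
      have hzl : z ∈ cl B {x, y} := by
        rw [hl2]; exact mem_inter.2 ⟨hi4, hj4⟩
      have : z = x := by
        by_contra hne
        have h5 := c.P.line_sub hL (Ne.symm hne) (left_mem x y) hzl hk1 hk4 (right_mem x y)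
        apply h2
        rw [← hk3]
        exact mem_inter.2 ⟨h5, hy⟩
      rw [this]; simp
  intro hg
  have h3 := card_le_card hsub
  have h4 : ({x, y} : Finset V).card ≤ 2 := card_le_two
  unfold Good at hg
  omega

lemma Cfg.mix (c : Cfg q B i0 U₁ U₂) {x y : V} (hx : x ∉ B i0) (hy : y ∈ B i0) :
    Good q (B' B i0 U₁ U₂) x y ↔ y ∉ W U₁ U₂ := by
  constructor
  · intro hg hW
    rcases mem_W.1 hW with h | h
    · exact c.mix_short' hx h.1 h.2 hg
    · rw [B'_comm] at hg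
      exact c.symm.mix_short' hx h.1 h.2 hg
  · exact c.mix_good hx hy

lemma Cfg.inn (c : Cfg q B i0 U₁ U₂) {x y : V} (hxy : x ≠ y) (hx : x ∈ B i0) (hy : y ∈ B i0) :
    Good q (B' B i0 U₁ U₂) x y := by
  have hU := LH_pair hxy hx hy
  have heq : cl (B' B i0 U₁ U₂) {x, y} = cl B {x, y} := by
    ext z
    constructor
    · intro hz
      rw [mem_cl2] at hz
      have hz0 : z ∈ B i0 := by
        have := hz i0 (by rwa [B'_zero]) (by rwa [B'_zero])
        rwa [B'_zero] at this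
      obtain ⟨i, hi, h2⟩ := c.P.ex_ne (c.sw_LH hU)
      have := hz i (by rw [mem_in hx hi, h2, sw_sw]; exact left_mem x y)
        (by rw [mem_in hy hi, h2, sw_sw]; exact right_mem x y)
      rwa [mem_in hz0 hi, h2, sw_sw] at this
    · intro hz
      have hz0 : z ∈ B i0 := hU.sub hz
      rw [mem_cl2]
      intro i h1 h2
      by_cases hi : i = i0
      · rw [hi, B'_zero]; exact hz0
      · rw [mem_in hx hi] at h1
        rw [mem_in hy hi] at h2
        rw [mem_in hz0 hi, ← c.P.line_eq (c.sw_LH (c.P.tr_LH hi)).isL hxy h1 h2]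
        exact hz
  unfold Good
  rw [heq]
  exact c.P.good x y hxy

/-! ### counting -/

lemma Cfg.short_out (c : Cfg q B i0 U₁ U₂) {u : V} (hu : u ∉ B i0) :
    (univ.filter fun y => y ≠ u ∧ ¬ Good q (B' B i0 U₁ U₂) u y).card = 2 * q ^ 2 := by
  have hHp : ∀ p, p ∈ B i0 → B i0 ∩ cl B {u, p} = {p} := by
    intro p hp
    have hup : u ≠ p := by rintro rfl; exact hu hp
    obtain ⟨p', hp'⟩ := c.P.pt hup hu
    have : p ∈ B i0 ∩ cl B {u, p} := mem_inter.2 ⟨hp, right_mem u p⟩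
    rw [hp'] at this
    rw [hp', mem_singleton.1 this]
  have e : (univ.filter fun y => y ≠ u ∧ ¬ Good q (B' B i0 U₁ U₂) u y) =
      (W U₁ U₂).biUnion fun p => (cl B {u, p}).erase u := by
    ext y
    simp only [mem_filter, mem_univ, true_and, mem_biUnion, mem_erase]
    constructor
    · rintro ⟨hyu, hng⟩
      by_cases hy : y ∈ B i0
      · rw [c.mix hu hy, not_not] at hng
        exact ⟨y, hng, hyu, right_mem u y⟩
      · obtain ⟨p, hp⟩ := c.P.pt (Ne.symm hyu) hu
        rw [c.out (Ne.symm hyu) hu hy hp, not_not] at hng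
        refine ⟨p, hng, hyu, ?_⟩
        have hp' : p ∈ B i0 ∩ cl B {u, y} := by rw [hp]; simp
        rw [mem_inter] at hp'
        have hup : u ≠ p := by rintro rfl; exact hu hp'.1
        rw [c.P.line_eq ⟨u, y, Ne.symm hyu, rfl⟩ hup (left_mem u y) hp'.2]
        exact right_mem u y
    · rintro ⟨p, hp, hyu, hy⟩
      refine ⟨hyu, ?_⟩
      have hp0 := c.W_sub hp
      have hup : u ≠ p := by rintro rfl; exact hu hp0
      by_cases hy0 : y ∈ B i0
      · have : y ∈ B i0 ∩ cl B {u, p} := mem_inter.2 ⟨hy0, hy⟩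
        rw [hHp p hp0, mem_singleton] at this
        rw [this, c.mix hu hp0, not_not]
        exact hp
      · have h1 : cl B {u, y} = cl B {u, p} :=
          c.P.line_eq ⟨u, p, hup, rfl⟩ (Ne.symm hyu) (left_mem u p) hy
        rw [c.out (Ne.symm hyu) hu hy0 (by rw [h1]; exact hHp p hp0), not_not]
        exact hp
  rw [e, card_biUnion]
  · have : ∀ p ∈ W U₁ U₂, ((cl B {u, p}).erase u).card = q := by
      intro p hp
      have hup : u ≠ p := by rintro rfl; exact hu (c.W_sub hp)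
      rw [card_erase_of_mem (left_mem u p), c.P.good u p hup]
      rfl
    rw [sum_congr rfl this, sum_const, c.card_W, smul_eq_mul]
    ring
  · intro p hp p' hp' hne
    show Disjoint ((cl B {u, p}).erase u) ((cl B {u, p'}).erase u)
    rw [disjoint_left]
    intro y h1 h2
    rw [mem_erase] at h1 h2
    apply hne
    have hup : u ≠ p := by rintro rfl; exact hu (c.W_sub hp)
    have hup' : u ≠ p' := by rintro rfl; exact hu (c.W_sub hp')
    have e1 : cl B {u, y} = cl B {u, p} :=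
      c.P.line_eq ⟨u, p, hup, rfl⟩ (Ne.symm h1.1) (left_mem u p) h1.2
    have e2 : cl B {u, y} = cl B {u, p'} :=
      c.P.line_eq ⟨u, p', hup', rfl⟩ (Ne.symm h1.1) (left_mem u p') h2.2
    have h3 := hHp p (c.W_sub hp)
    rw [← e1, e2, hHp p' (c.W_sub hp')] at h3
    exact (singleton_injective h3).symm

lemma Cfg.short_in (c : Cfg q B i0 U₁ U₂) {u : V} (hu : u ∈ B i0) :
    (univ.filter fun y => y ≠ u ∧ ¬ Good q (B' B i0 U₁ U₂) u y).card =
      if u ∈ W U₁ U₂ then q ^ 3 else 0 := by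
  by_cases hW : u ∈ W U₁ U₂
  · rw [if_pos hW]
    have e : (univ.filter fun y => y ≠ u ∧ ¬ Good q (B' B i0 U₁ U₂) u y) = univ \ B i0 := by
      ext y
      simp only [mem_filter, mem_univ, true_and, mem_sdiff]
      constructor
      · rintro ⟨h1, h2⟩ h3
        exact h2 (c.inn (Ne.symm h1) hu h3)
      · intro h1
        refine ⟨by rintro rfl; exact h1 hu, ?_⟩
        rw [good_comm, c.mix h1 hu, not_not]
        exact hW
    rw [e, card_sdiff_of_subset (subset_univ _), card_univ, c.P.h.ptcard, c.P.card_H]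
    rw [show 1 + 3 = 4 from rfl, th4]
    omega
  · rw [if_neg hW, card_eq_zero]
    ext y
    simp only [mem_filter, mem_univ, true_and, notMem_empty, iff_false, not_and, not_not]
    intro h1
    by_cases hy : y ∈ B i0
    · exact c.inn (Ne.symm h1) hu hy
    · rw [good_comm, c.mix hy hu]
      exact hW

end Kan

open Kan

theorem exKan : StKan := by
  intro V ι _ _ q B h hP
  have P : Pg q B := ⟨h, fun x y hxy => hP x y (Ne.symm hxy)⟩
  have hn := h.hn
  -- a block and two lines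
  have hι : 0 < Fintype.card ι := by rw [h.blcard]; exact th_pos q _
  obtain ⟨i0⟩ := Fintype.card_pos_iff.1 hι
  have hc1 : 1 < (B i0).card := by rw [P.card_H]; nlinarith
  obtain ⟨x, hx, y, hy, hxy⟩ := one_lt_card.1 hc1
  have l1 := LH_pair hxy hx hy
  obtain ⟨U₂, l2, -, hne, -⟩ := P.third l1 l1 (left_mem x y)
  have c : Cfg q B i0 (cl B {x, y}) U₂ := ⟨P, l1, l2, Ne.symm hne⟩
  set U₁ := cl B {x, y} with hU₁
  refine ⟨B' B i0 U₁ U₂, c.des, ?_, ?_, ?_⟩
  · -- a point outside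
    have h1 : (B i0).card < (univ : Finset V).card := by
      rw [P.card_H, card_univ, h.ptcard, show 1 + 3 = 4 from rfl, th4]
      have : 0 < q ^ 3 := by positivity
      omega
    obtain ⟨u, -, hu⟩ := exists_mem_notMem_of_card_lt_card h1
    exact ⟨u, c.short_out hu⟩
  · have e1 : (univ.filter fun p : V × V => p.1 ≠ p.2 ∧ ¬ Good q (B' B i0 U₁ U₂) p.1 p.2).card =
        ∑ u : V, (univ.filter fun y => y ≠ u ∧ ¬ Good q (B' B i0 U₁ U₂) u y).card := by
      rw [card_eq_sum_card_fiberwise (f := Prod.fst) (t := univ) (fun _ _ => by simp)]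
      refine sum_congr rfl fun u _ => ?_
      refine card_bij' (fun p _ => p.2) (fun y _ => (u, y)) ?_ ?_ ?_ ?_
      · intro p hp
        simp only [mem_filter, mem_univ, true_and] at hp ⊢
        obtain ⟨⟨h1, h2⟩, rfl⟩ := hp
        exact ⟨Ne.symm h1, h2⟩
      · intro y hy
        simp only [mem_filter, mem_univ, true_and] at hy ⊢
        exact ⟨⟨Ne.symm hy.1, hy.2⟩, trivial⟩
      · intro p hp
        simp only [mem_filter, mem_univ, true_and] at hp
        rw [← hp.2]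
      · intro y hy
        rfl
    rw [e1, ← sum_sdiff (subset_univ (B i0))]
    have e2 : ∑ u ∈ univ \ B i0,
        (univ.filter fun y => y ≠ u ∧ ¬ Good q (B' B i0 U₁ U₂) u y).card = q ^ 3 * (2 * q ^ 2) := by
      rw [sum_congr rfl (fun u hu => c.short_out (mem_sdiff.1 hu).2), sum_const, smul_eq_mul,
        card_sdiff_of_subset (subset_univ _), card_univ, h.ptcard, P.card_H,
        show 1 + 3 = 4 from rfl, th4]
      congr 1
      omega
    have e3 : ∑ u ∈ B i0,
        (univ.filter fun y => y ≠ u ∧ ¬ Good q (B' B i0 U₁ U₂) u y).card = 2 * q * q ^ 3 := by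
      rw [sum_congr rfl (fun u hu => c.short_in hu), ← sum_filter, sum_const, smul_eq_mul]
      congr 1
      rw [← c.card_W]
      congr 1
      ext u
      simp only [mem_filter]
      exact ⟨fun hu => hu.2, fun hu => ⟨c.W_sub hu, hu⟩⟩
    rw [e2, e3]
    ring
  · have e1 : perf q (B' B i0 U₁ U₂) = B i0 \ W U₁ U₂ := by
      ext z
      rw [mem_perf, mem_sdiff]
      constructor
      · intro hz
        have hz0 : z ∈ B i0 := by
          by_contra hz0
          have hW : 0 < (W U₁ U₂).card := by rw [c.card_W]; omega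
          obtain ⟨y, hy⟩ := card_pos.1 hW
          have hy0 := c.W_sub hy
          exact (c.mix hz0 hy0).1 (hz y (by rintro rfl; exact hz0 hy0)) hy
        refine ⟨hz0, ?_⟩
        have h1 : (B i0).card < (univ : Finset V).card := by
          rw [P.card_H, card_univ, h.ptcard, show 1 + 3 = 4 from rfl, th4]
          have : 0 < q ^ 3 := by positivity
          omega
        obtain ⟨u, -, hu⟩ := exists_mem_notMem_of_card_lt_card h1
        have := hz u (by rintro rfl; exact hu hz0)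
        rw [good_comm, c.mix hu hz0] at this
        exact this
      · rintro ⟨h1, h2⟩ y hy
        by_cases hy0 : y ∈ B i0
        · exact c.inn (Ne.symm hy) h1 hy0
        · rw [good_comm, c.mix hy0 h1]
          exact h2
    rw [e1, card_sdiff_of_subset c.W_sub, c.card_W, P.card_H]
    have : 2 * q ≤ q ^ 2 + q + 1 := by nlinarith
    omega

end Pool.Agent.N337.MJ
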