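import Pool.Agent.N337.MJ.Stm2

set_option autoImplicit false
set_option linter.unusedSectionVars false
set_option linter.unusedVariables false
set_option maxHeartbeats 400000

/-!
# The projective spaces are designs with full lines (helper322, project MJ)
-/

namespace Pool.Agent.N337.MJ

open Finset
open scoped Classical

namespace PGex_

open scoped LinearAlgebra.Projectivization
open Projectivization

variable {F : Type} [Field F] [Finite F] {N : ℕ}

/-- number of points of a subspace -/
theorem card_sub (W : Submodule F (Fin N → F)) {m : ℕ} (h : Module.finrank F W = m) :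
    Nat.card {x : ℙ F (Fin N → F) // x.rep ∈ W} = th (Nat.card F) m := by
  unfold th
  rw [← card_of_finrank F W h]
  symm
  have hmem : ∀ y : ℙ F W, (Projectivization.map W.subtype W.injective_subtype y).rep ∈ W := by
    intro y
    induction y using Projectivization.ind with
    | h v hv =>
      rw [Projectivization.map_mk]
      obtain ⟨a, ha⟩ := exists_smul_eq_mk_rep F (W.subtype v)
        (fun hcon => hv (W.injective_subtype (by rw [hcon, map_zero])))
      rw [← ha]
      exact W.smul_mem _ v.2
  refine Nat.card_congr (Equiv.ofBijective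
    (fun y => ⟨Projectivization.map W.subtype W.injective_subtype y, hmem y⟩) ⟨?_, ?_⟩)
  · intro y z hyz
    have h1 := congrArg Subtype.val hyz
    exact Projectivization.map_injective W.subtype W.injective_subtype h1
  · rintro ⟨x, hx⟩
    refine ⟨mk F (⟨x.rep, hx⟩ : W) (fun hcon => x.rep_nonzero (congrArg Subtype.val hcon)), ?_⟩
    apply Subtype.ext
    show Projectivization.map W.subtype W.injective_subtype (mk F (⟨x.rep, hx⟩ : W)
      (fun hcon => x.rep_nonzero (congrArg Subtype.val hcon))) = x
    rw [Projectivization.map_mk]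
    exact mk_rep x

/-- the orthogonal space -/
noncomputable def WW {k : ℕ} (v : Fin k → Fin N → F) : Submodule F (Fin N → F) :=
  LinearMap.ker (Matrix.mulVecLin (Matrix.of v))

theorem mem_WW {k : ℕ} {v : Fin k → Fin N → F} {x : Fin N → F} :
    x ∈ WW v ↔ ∀ i, v i ⬝ᵥ x = 0 := by
  unfold WW
  rw [LinearMap.mem_ker, Matrix.mulVecLin_apply, funext_iff]
  rfl

theorem finrank_WW {k : ℕ} {v : Fin k → Fin N → F} (hv : LinearIndependent F v) :
    Module.finrank F (WW v) = N - k := by
  have h1 := LinearMap.finrank_range_add_finrank_ker (Matrix.mulVecLin (Matrix.of v))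
  have h2 : (Matrix.of v).rank = Fintype.card (Fin k) :=
    LinearIndependent.rank_matrix (M := Matrix.of v) hv
  unfold Matrix.rank at h2
  rw [h2, Module.finrank_fintype_fun_eq_card, Fintype.card_fin, Fintype.card_fin] at h1
  unfold WW
  omega

noncomputable instance : Fintype (ℙ F (Fin N → F)) := Fintype.ofFinite _

/-- number of points orthogonal to independent vectors -/
theorem count {k : ℕ} {v : Fin k → Fin N → F} (hv : LinearIndependent F v) :
    ((univ : Finset (ℙ F (Fin N → F))).filter fun x => ∀ i, v i ⬝ᵥ x.rep = 0).card =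
      th (Nat.card F) (N - k) := by
  rw [← card_sub (WW v) (finrank_WW hv), Nat.card_eq_fintype_card, Fintype.card_subtype]
  congr 1
  ext x
  simp only [Finset.mem_filter, Finset.mem_univ, true_and, mem_WW]

theorem indep1 (h : ℙ F (Fin N → F)) : LinearIndependent F ![h.rep] := by
  rw [linearIndependent_unique_iff]
  exact h.rep_nonzero

theorem indep2 {x y : ℙ F (Fin N → F)} (h : x ≠ y) : LinearIndependent F ![x.rep, y.rep] :=
  linearIndependent_pair_iff_ne.2 h

/-- the hyperplanes -/
noncomputable def BB (h : ℙ F (Fin N → F)) : Finset (ℙ F (Fin N → F)) :=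
  univ.filter fun x => h.rep ⬝ᵥ x.rep = 0

theorem mem_BB {h x : ℙ F (Fin N → F)} : x ∈ BB h ↔ h.rep ⬝ᵥ x.rep = 0 := by
  simp [BB]

theorem mem_BB' {h x : ℙ F (Fin N → F)} : x ∈ BB h ↔ x.rep ⬝ᵥ h.rep = 0 := by
  rw [mem_BB, dotProduct_comm]

theorem count1 (h : ℙ F (Fin N → F)) :
    ((univ : Finset (ℙ F (Fin N → F))).filter fun x => h.rep ⬝ᵥ x.rep = 0).card =
      th (Nat.card F) (N - 1) := by
  rw [← count (indep1 h)]
  congr 1
  ext x
  simp

theorem count2 {h k : ℙ F (Fin N → F)} (hhk : h ≠ k) :
    ((univ : Finset (ℙ F (Fin N → F))).filter fun x => h.rep ⬝ᵥ x.rep = 0 ∧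
      k.rep ⬝ᵥ x.rep = 0).card = th (Nat.card F) (N - 2) := by
  rw [← count (indep2 hhk)]
  congr 1
  ext x
  simp [Fin.forall_fin_two]

theorem des (e : ℕ) : Des (Nat.card F) e (BB : ℙ F (Fin (e + 3) → F) → _) := by
  have hcard : Fintype.card (ℙ F (Fin (e + 3) → F)) = th (Nat.card F) (e + 3) := by
    rw [← Nat.card_eq_fintype_card, card_of_finrank F (Fin (e + 3) → F) (n := e + 3) (by simp)]
    rfl
  refine ⟨Finite.one_lt_card, hcard, hcard, ?_, ?_, ?_, ?_⟩
  · intro i
    exact count1 i
  · intro x
    simp only [mem_BB']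
    exact count1 x
  · intro x y hxy
    simp only [mem_BB']
    exact count2 hxy
  · intro i j hij
    have h1 : BB i ∩ BB j = (univ : Finset (ℙ F (Fin (e + 3) → F))).filter
        fun x => i.rep ⬝ᵥ x.rep = 0 ∧ j.rep ⬝ᵥ x.rep = 0 := by
      ext x
      simp only [Finset.mem_inter, mem_BB, Finset.mem_filter, Finset.mem_univ, true_and]
    rw [h1]
    exact count2 hij

theorem good (e : ℕ) {x y : ℙ F (Fin (e + 3) → F)} (hxy : x ≠ y) :
    Good (Nat.card F) (BB : ℙ F (Fin (e + 3) → F) → _) x y := by
  refine le_antisymm ((des e).line_le hxy) ?_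
  set W : Submodule F (Fin (e + 3) → F) := Submodule.span F (Set.range ![x.rep, y.rep]) with hW
  have h1 : Module.finrank F W = 2 := by
    rw [hW, finrank_span_eq_card (indep2 hxy), Fintype.card_fin]
  have h2 := card_sub W h1
  rw [Nat.card_eq_fintype_card, Fintype.card_subtype] at h2
  have h3 : th (Nat.card F) 2 = Nat.card F + 1 := by
    rw [th_succ, th_one]; ring
  rw [← h3, ← h2]
  apply Finset.card_le_card
  intro z hz
  rw [Finset.mem_filter] at hz
  rw [mem_cl]
  intro h hh
  rw [pair_subset, mem_BB, mem_BB] at hh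
  rw [mem_BB]
  have h4 : W ≤ WW ![h.rep] := by
    rw [hW, Submodule.span_le]
    rintro _ ⟨i, rfl⟩
    show _ ∈ WW ![h.rep]
    rw [mem_WW]
    intro j
    fin_cases j
    fin_cases i
    · exact hh.1
    · exact hh.2
  exact mem_WW.1 (h4 hz.2) 0

end PGex_

open PGex_ in
theorem exPG : StPG := by
  intro q e hq
  obtain ⟨p, a, hp, ha, rfl⟩ := (isPrimePow_nat_iff q).1 hq
  have : Fact p.Prime := ⟨hp⟩
  have hc : Nat.card (GaloisField p a) = p ^ a := GaloisField.card p a ha.ne'
  rw [← hc]
  refine ⟨_, _, inferInstance, inferInstance, BB, des (F := GaloisField p a) e, ?_⟩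
  intro z y hy
  exact good e hy.symm

end Pool.Agent.N337.MJ
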