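import Pool.Agent.N337.MJ.Quot

set_option autoImplicit false
set_option linter.unusedSectionVars false
set_option linter.unusedVariables false

/-!
# Planes through perfect points
-/

namespace Pool.Agent.N337.MJ

open Finset
open scoped Classical

variable {V ι : Type} [Fintype V] [Fintype ι] {n e : ℕ} {B : ι → Finset V} {z : V}

/-- `z` is perfect and all planes through `z` have `n ^ 2 + n + 1` points -/
structure Pl (n : ℕ) (B : ι → Finset V) (z : V) : Prop where
  perf : Perf n B z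
  all : ∀ L : PtZ B z, Perf n (BZ B z) L

theorem quad_subset {x y z w : V} {S : Finset V} :
    ({x, y, z, w} : Finset V) ⊆ S ↔ x ∈ S ∧ y ∈ S ∧ z ∈ S ∧ w ∈ S := by
  simp [Finset.insert_subset_iff]

theorem ne_of_notin {x y : V} (hy : y ∉ cl B {z, x}) : y ≠ z ∧ y ≠ x :=
  ⟨by rintro rfl; exact hy (left_mem _ _), by rintro rfl; exact hy (right_mem _ _)⟩

theorem Pl.good (h : Des n e B) (hz : Pl n B z) {x y : V} (hx : x ≠ z) (hy : y ∉ cl B {z, x}) :
    Good n (BZ B z) (ptz B z x hx) (ptz B z y (ne_of_notin hy).1) :=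
  hz.all _ _ (fun h1 => hy ((ptz_eq h hx (ne_of_notin hy).1).1 h1.symm))

theorem Pl.card (h : Des n e B) (hz : Pl n B z) {x y : V} (hx : x ≠ z) (hy : y ∉ cl B {z, x}) :
    (cl B {z, x, y}).card = n * n + n + 1 :=
  (goodZ_iff h hz.perf hx (ne_of_notin hy).1).1 (hz.good h hx hy)

theorem Pl.blk3 (h : Des n (e + 1) B) (hz : Pl n B z) {x y : V} (hx : x ≠ z)
    (hy : y ∉ cl B {z, x}) : (blk B {z, x, y}).card = th n (e + 1) :=
  h.blk_triple hx.symm (hz.perf x hx) hy

/-- a point outside a plane -/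
theorem Pl.blk4 (h : Des n (e + 1) B) (hz : Pl n B z) {x y p : V} (hx : x ≠ z)
    (hy : y ∉ cl B {z, x}) (hp : p ∉ cl B {z, x, y}) :
    (blk B {z, x, y, p}).card = th n e := by
  have hyz := (ne_of_notin hy).1
  have hpz : p ≠ z := by rintro rfl; exact hp (subset_cl _ (by simp))
  have hne : ptz B z x hx ≠ ptz B z y hyz := fun h1 => hy ((ptz_eq h hx hyz).1 h1)
  have hpn : ptz B z p hpz ∉ cl (BZ B z) {ptz B z x hx, ptz B z y hyz} := by
    rw [mem_clZ]
    intro h1
    exact hp (h1 (right_mem z p))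
  rw [← (desZ h hz.perf).blk_triple hne (hz.good h hx hy) hpn]
  have h1 : blk (BZ B z) {ptz B z x hx, ptz B z y hyz, ptz B z p hpz} =
      univ.filter (fun i : BlZ B z => x ∈ B i.1 ∧ y ∈ B i.1 ∧ p ∈ B i.1) := by
    ext i
    rw [mem_blk, triple_subset, mem_BZ, mem_BZ, mem_BZ, ptz_sub hx i.2, ptz_sub hyz i.2,
      ptz_sub hpz i.2]
    simp
  rw [h1]
  refine Eq.trans ?_ ((card_BlZ B z (fun i => x ∈ B i ∧ y ∈ B i ∧ p ∈ B i)).symm.trans ?_)
  · congr 1
    ext i
    rw [mem_blk, Finset.insert_subset_iff, triple_subset]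
    simp
  · congr 1
    ext i
    simp only [mem_filter, mem_univ, true_and]

/-- a block meets a plane not contained in it in `n + 1` points -/
theorem Pl.meet (h : Des n (e + 1) B) (hz : Pl n B z) {x y : V} (hx : x ≠ z)
    (hy : y ∉ cl B {z, x}) {i : ι} (hi : ¬ cl B {z, x, y} ⊆ B i) :
    (B i ∩ cl B {z, x, y}).card = n + 1 := by
  have hn := h.hn
  have hyz := (ne_of_notin hy).1
  have hne : ptz B z x hx ≠ ptz B z y hyz := fun h1 => hy ((ptz_eq h hx hyz).1 h1)
  by_cases hzi : z ∈ B i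
  · rw [card_closed h hz.perf (S := B i ∩ cl B {z, x, y})
      (mem_inter.2 ⟨hzi, subset_cl _ (by simp)⟩) (fun p hp hpz => Finset.subset_inter
        (cl_subset (pair_subset.2 ⟨hzi, (mem_inter.1 hp).1⟩))
        (cl_le (pair_subset.2 ⟨subset_cl _ (by simp), (mem_inter.1 hp).2⟩)))]
    have h1 : (univ.filter fun L : PtZ B z => L.val ⊆ B i ∩ cl B {z, x, y}) =
        BZ B z ⟨i, hzi⟩ ∩ cl (BZ B z) {ptz B z x hx, ptz B z y hyz} := by
      ext K
      rw [mem_inter, mem_clZ, mem_BZ]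
      simp [Finset.subset_inter_iff]
    rw [h1, (desZ h hz.perf).good_meet hne (hz.good h hx hy), mul_one]
    rintro ⟨h2, h3⟩
    rw [mem_BZ, ptz_sub hx hzi] at h2
    rw [mem_BZ, ptz_sub hyz hzi] at h3
    exact hi (cl_subset (triple_subset.2 ⟨hzi, h2, h3⟩))
  · have h1 : (B i ∩ cl B {z, x, y}).card =
        ∑ L ∈ (univ.filter (fun L : PtZ B z => L.1 ⊆ cl B {z, x, y})).image PtZ.val,
          ((B i ∩ cl B {z, x, y}).filter fun p => cl B {z, p} = L).card := by
      apply Finset.card_eq_sum_card_fiberwise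
      intro p hp
      rw [mem_coe, mem_inter] at hp
      have hpz : p ≠ z := by rintro rfl; exact hzi hp.1
      simp only [coe_image, coe_filter, mem_univ, true_and, Set.mem_image, Set.mem_ofPred_eq]
      exact ⟨ptz B z p hpz, cl_le (pair_subset.2 ⟨subset_cl _ (by simp), hp.2⟩), rfl⟩
    have h2 : ∀ L ∈ (univ.filter (fun L : PtZ B z => L.1 ⊆ cl B {z, x, y})).image PtZ.val,
        ((B i ∩ cl B {z, x, y}).filter fun p => cl B {z, p} = L).card = 1 := by
      intro L hL
      rw [mem_image] at hL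
      obtain ⟨⟨L, p, hp, rfl⟩, hL, rfl⟩ := hL
      rw [mem_filter] at hL
      rw [← h.good_meet hp.symm (hz.perf p hp) (i := i) (fun h3 => hzi h3.1)]
      congr 1
      ext q
      simp only [mem_filter, mem_inter]
      constructor
      · rintro ⟨⟨h4, h5⟩, h6⟩
        exact ⟨h4, h6 ▸ right_mem z q⟩
      · rintro ⟨h4, h5⟩
        refine ⟨⟨h4, hL.2 h5⟩, h.line_eq hp.symm (left_mem z p) h5 ?_⟩
        rintro rfl; exact hzi h4
    rw [Finset.sum_congr rfl h2, Finset.sum_const, smul_eq_mul, mul_one,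
      Finset.card_image_of_injective _ PtZ.val_injective] at h1
    rw [h1]
    have h3 := card_closed h hz.perf (S := cl B {z, x, y}) (subset_cl _ (by simp))
      (fun p hp _ => cl_le (pair_subset.2 ⟨subset_cl _ (by simp), hp⟩))
    rw [hz.card h hx hy] at h3
    apply Nat.eq_of_mul_eq_mul_left (by omega : 0 < n)
    have h4 : n * (n + 1) = n * n + n := by ring
    rw [h4]
    omega

/-- a perfect point outside a plane -/
theorem Pl.notin (h : Des n e B) {x y w : V} {x' y' : V} (hzE : z ∉ cl B {w, x, y})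
    (hx' : x' ∈ cl B {w, x, y}) (hy' : y' ∈ cl B {w, x, y}) (hne : x' ≠ y') :
    x' ≠ z ∧ y' ∉ cl B {z, x'} := by
  have h1 : x' ≠ z := by rintro rfl; exact hzE hx'
  refine ⟨h1, fun h2 => hzE ?_⟩
  have h3 := h.line_eq (x' := x') (y' := y') h1.symm (right_mem z x') h2 hne
  have h4 : cl B {x', y'} ⊆ cl B {w, x, y} := cl_le (pair_subset.2 ⟨hx', hy'⟩)
  exact h4 (h3 ▸ left_mem z x')

/-- **Two planes with two common points meet in `n + 1` points.** -/
theorem Pl.plane (h : Des n (e + 1) B) {w : V} (hw : Pl n B w) (hz : Pl n B z) {x y : V}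
    (hx : x ≠ w) (hy : y ∉ cl B {w, x}) (hzE : z ∉ cl B {w, x, y}) {x' y' : V}
    (hx' : x' ∈ cl B {w, x, y}) (hy' : y' ∈ cl B {w, x, y}) (hne : x' ≠ y') :
    (cl B {z, x', y'} ∩ cl B {w, x, y}).card = n + 1 := by
  obtain ⟨hxz, hyx⟩ := Pl.notin h hzE hx' hy' hne
  have hn := h.hn
  set E := cl B {w, x, y} with hE
  set G := cl B {z, x', y'} with hG
  have hEc : E.card = n * n + n + 1 := hw.card h hx hy
  have h1 := sum_inter (B := B) (blk B {z, x', y'}) E
  -- left side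
  have h2 : ∀ i ∈ blk B {z, x', y'}, (B i ∩ E).card = (n + 1) + if E ⊆ B i then n * n else 0 := by
    intro i hi
    by_cases hc : E ⊆ B i
    · rw [if_pos hc, Finset.inter_eq_right.2 hc, hEc]; ring
    · rw [if_neg hc, hw.meet h hx hy hc]
  have h3 : (blk B {z, x', y'}).filter (fun i => E ⊆ B i) = blk B {w, x, y, z} := by
    ext i
    rw [mem_filter, mem_blk, mem_blk, quad_subset, triple_subset]
    constructor
    · rintro ⟨h4, h5⟩
      rw [hE, cl_sub_iff, triple_subset] at h5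
      tauto
    · rintro ⟨h4, h5, h6, h7⟩
      have h8 : E ⊆ B i := cl_subset (triple_subset.2 ⟨h4, h5, h6⟩)
      exact ⟨⟨h7, h8 hx', h8 hy'⟩, h8⟩
  rw [Finset.sum_congr rfl h2, Finset.sum_add_distrib, Finset.sum_const, smul_eq_mul,
    ← Finset.sum_filter, Finset.sum_const, smul_eq_mul, h3, hw.blk4 h hx hy hzE,
    hz.blk3 h hxz hyx] at h1
  -- right side
  have h4 : ∀ p ∈ E, ((blk B {z, x', y'}).filter fun i => p ∈ B i).card =
      th n e + if p ∈ G then n ^ e else 0 := by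
    intro p hp
    by_cases hc : p ∈ G
    · rw [if_pos hc, Finset.filter_true_of_mem (fun i hi => mem_cl.1 hc i (mem_blk.1 hi)),
        hz.blk3 h hxz hyx, th_succ']
    · rw [if_neg hc, add_zero, ← hz.blk4 h hxz hyx hc]
      congr 1
      ext i
      rw [mem_filter, mem_blk, mem_blk, quad_subset, triple_subset]
      tauto
  rw [Finset.sum_congr rfl h4, Finset.sum_add_distrib, Finset.sum_const, smul_eq_mul,
    ← Finset.sum_filter, Finset.sum_const, smul_eq_mul, hEc] at h1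
  have h5 : E.filter (fun p => p ∈ G) = G ∩ E := by
    ext p; simp [and_comm]
  rw [h5, th_succ'] at h1
  have h6 : (G ∩ E).card * n ^ e = (n + 1) * n ^ e := by nlinarith
  exact Nat.eq_of_mul_eq_mul_right (Nat.pow_pos (by omega)) h6

/-- the lines of a plane as seen from a perfect point outside -/
noncomputable def ln (B : ι → Finset V) (z : V) (E : Finset V) (x y : V) : Finset V :=
  cl B {z, x, y} ∩ E

theorem Pl.ln1 (h : Des n (e + 1) B) {w : V} (hw : Pl n B w) (hz : Pl n B z) {x y : V}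
    (hx : x ≠ w) (hy : y ∉ cl B {w, x}) (hzE : z ∉ cl B {w, x, y}) {x' y' : V}
    (hx' : x' ∈ cl B {w, x, y}) (hy' : y' ∈ cl B {w, x, y}) (hne : x' ≠ y') :
    x' ∈ ln B z (cl B {w, x, y}) x' y' ∧ y' ∈ ln B z (cl B {w, x, y}) x' y' ∧
      ln B z (cl B {w, x, y}) x' y' ⊆ cl B {w, x, y} ∧
      (ln B z (cl B {w, x, y}) x' y').card = n + 1 :=
  ⟨mem_inter.2 ⟨subset_cl _ (by simp), hx'⟩, mem_inter.2 ⟨subset_cl _ (by simp), hy'⟩,
    Finset.inter_subset_right, hw.plane h hz hx hy hzE hx' hy' hne⟩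

theorem Pl.ln2 (h : Des n (e + 1) B) {w : V} (hw : Pl n B w) (hz : Pl n B z) {x y : V}
    (hx : x ≠ w) (hy : y ∉ cl B {w, x}) (hzE : z ∉ cl B {w, x, y}) {x' y' : V}
    (hx' : x' ∈ cl B {w, x, y}) (hy' : y' ∈ cl B {w, x, y}) (hne : x' ≠ y')
    {x'' y'' : V} (hx'' : x'' ∈ ln B z (cl B {w, x, y}) x' y')
    (hy'' : y'' ∈ ln B z (cl B {w, x, y}) x' y') (hne' : x'' ≠ y'') :
    ln B z (cl B {w, x, y}) x'' y'' = ln B z (cl B {w, x, y}) x' y' := by
  unfold ln at hx'' hy'' ⊢
  rw [mem_inter] at hx'' hy''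
  congr 1
  obtain ⟨h1, h2⟩ := Pl.notin h hzE hx' hy' hne
  obtain ⟨h3, h4⟩ := Pl.notin h hzE hx''.2 hy''.2 hne'
  exact cl_eq_of_card (triple_subset.2 ⟨subset_cl _ (by simp), hx''.1, hy''.1⟩)
    (by rw [hz.blk3 h h1 h2, hz.blk3 h h3 h4])

/-- the lines through a perfect point of the plane are the lines of the design -/
theorem Pl.ln_perf (h : Des n (e + 1) B) {w : V} (hw : Pl n B w) (hz : Pl n B z) {x y : V}
    (hx : x ≠ w) (hy : y ∉ cl B {w, x}) (hzE : z ∉ cl B {w, x, y}) {x' y' : V}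
    (hx' : x' ∈ cl B {w, x, y}) (hy' : y' ∈ cl B {w, x, y}) (hne : x' ≠ y')
    (hg : Good n B x' y') : ln B z (cl B {w, x, y}) x' y' = cl B {x', y'} := by
  symm
  apply Finset.eq_of_subset_of_card_le
  · apply Finset.subset_inter
    · exact cl_mono (by intro a ha; simp at ha ⊢; tauto)
    · exact cl_le (pair_subset.2 ⟨hx', hy'⟩)
  · rw [(hw.ln1 h hz hx hy hzE hx' hy' hne).2.2.2, hg]

end Pool.Agent.N337.MJ
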