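import Pool.Agent.N337.MJ.Defs

set_option autoImplicit false
set_option linter.unusedSectionVars false
set_option linter.unusedVariables false

/-!
# The quotient of the design at a perfect point
-/

namespace Pool.Agent.N337.MJ

open Finset
open scoped Classical

variable {V ι : Type} [Fintype V] [Fintype ι] {n e : ℕ}

/-- the lines through `z` -/
structure PtZ (B : ι → Finset V) (z : V) : Type where
  val : Finset V
  prop : ∃ y, y ≠ z ∧ val = cl B {z, y}

/-- the blocks through `z` -/
structure BlZ (B : ι → Finset V) (z : V) : Type where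
  val : ι
  prop : z ∈ B val

theorem PtZ.val_injective {B : ι → Finset V} {z : V} :
    Function.Injective (PtZ.val (B := B) (z := z)) := by
  rintro ⟨a, ha⟩ ⟨b, hb⟩ h
  change a = b at h
  subst h
  rfl

theorem BlZ.val_injective {B : ι → Finset V} {z : V} :
    Function.Injective (BlZ.val (B := B) (z := z)) := by
  rintro ⟨a, ha⟩ ⟨b, hb⟩ h
  change a = b at h
  subst h
  rfl

noncomputable instance (B : ι → Finset V) (z : V) : Fintype (PtZ B z) :=
  Fintype.ofInjective _ PtZ.val_injective

noncomputable instance (B : ι → Finset V) (z : V) : Fintype (BlZ B z) :=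
  Fintype.ofInjective _ BlZ.val_injective

/-- the blocks of the quotient -/
noncomputable def BZ (B : ι → Finset V) (z : V) : BlZ B z → Finset (PtZ B z) :=
  fun i => univ.filter fun L => L.1 ⊆ B i.1

variable {B : ι → Finset V} {z : V}

@[simp] theorem mem_BZ {i : BlZ B z} {L : PtZ B z} : L ∈ BZ B z i ↔ L.1 ⊆ B i.1 := by
  simp [BZ]

/-- the line through `z` and `y` as a point of the quotient -/
noncomputable def ptz (B : ι → Finset V) (z y : V) (hy : y ≠ z) : PtZ B z := ⟨cl B {z, y}, y, hy, rfl⟩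

/-- closed sets are unions of lines through `z` -/
theorem card_closed (h : Des n e B) (hz : Perf n B z) {S : Finset V} (hzS : z ∈ S)
    (hS : ∀ y ∈ S, y ≠ z → cl B {z, y} ⊆ S) :
    S.card = n * (univ.filter (fun L : PtZ B z => L.1 ⊆ S)).card + 1 := by
  have h1 : (S.erase z).card =
      ∑ L ∈ (univ.filter (fun L : PtZ B z => L.1 ⊆ S)).image PtZ.val,
        ((S.erase z).filter fun y => cl B {z, y} = L).card := by
    apply Finset.card_eq_sum_card_fiberwise
    intro y hy
    rw [mem_coe, mem_erase] at hy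
    simp only [coe_image, coe_filter, mem_univ, true_and, Set.mem_image, Set.mem_ofPred_eq]
    exact ⟨ptz B z y hy.1, hS y hy.2 hy.1, rfl⟩
  have h2 : ∀ L ∈ (univ.filter (fun L : PtZ B z => L.1 ⊆ S)).image PtZ.val,
      ((S.erase z).filter fun y => cl B {z, y} = L).card = n := by
    intro L hL
    rw [mem_image] at hL
    obtain ⟨⟨L, y, hy, rfl⟩, hL, rfl⟩ := hL
    rw [mem_filter] at hL
    have h3 : ((S.erase z).filter fun y' => cl B {z, y'} = cl B {z, y}) =
        (cl B {z, y}).erase z := by
      ext y'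
      simp only [mem_filter, mem_erase]
      constructor
      · rintro ⟨⟨h4, h5⟩, h6⟩
        exact ⟨h4, h6 ▸ right_mem z y'⟩
      · rintro ⟨h4, h5⟩
        exact ⟨⟨h4, hL.2 h5⟩, h.line_eq hy.symm (left_mem z y) h5 (Ne.symm h4)⟩
    rw [h3, Finset.card_erase_of_mem (left_mem z y), hz y hy]
    rfl
  rw [Finset.sum_congr rfl h2, Finset.sum_const, smul_eq_mul,
    Finset.card_image_of_injective _ PtZ.val_injective] at h1
  rw [← Finset.card_erase_add_one hzS, h1, mul_comm]

/-- membership in a line through `z` -/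
theorem ptz_eq (h : Des n e B) {x y : V} (hx : x ≠ z) (hy : y ≠ z) :
    ptz B z x hx = ptz B z y hy ↔ y ∈ cl B {z, x} := by
  constructor
  · intro h1
    have h2 := congrArg PtZ.val h1
    change cl B {z, x} = cl B {z, y} at h2
    rw [h2]
    exact right_mem z y
  · intro h1
    apply PtZ.val_injective
    exact (h.line_eq hx.symm (left_mem z x) h1 hy.symm).symm

theorem card_BlZ (B : ι → Finset V) (z : V) (P : ι → Prop) :
    ((univ : Finset (BlZ B z)).filter fun i => P i.1).card =
      ((univ : Finset ι).filter fun i => z ∈ B i ∧ P i).card := by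
  rw [← Finset.card_map ⟨BlZ.val, BlZ.val_injective⟩]
  congr 1
  ext i
  simp only [mem_map, mem_filter, mem_univ, true_and, Function.Embedding.coeFn_mk]
  constructor
  · rintro ⟨⟨j, hj⟩, hP, rfl⟩
    exact ⟨hj, hP⟩
  · rintro ⟨hi, hP⟩
    exact ⟨⟨i, hi⟩, hP, rfl⟩

theorem ptz_sub {y : V} (hy : y ≠ z) {i : ι} (hi : z ∈ B i) :
    (ptz B z y hy).1 ⊆ B i ↔ y ∈ B i := by
  change cl B {z, y} ⊆ B i ↔ _
  rw [cl_sub_iff, pair_subset]
  exact ⟨fun h => h.2, fun h => ⟨hi, h⟩⟩

/-- **The quotient at a perfect point is a design.** -/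
theorem desZ (h : Des n (e + 1) B) (hz : Perf n B z) : Des n e (BZ B z) := by
  have hn := h.hn
  have hB : ∀ i, z ∈ B i → ∀ y ∈ B i, y ≠ z → cl B {z, y} ⊆ B i := fun i hi y hy _ =>
    cl_subset (pair_subset.2 ⟨hi, hy⟩)
  refine ⟨hn, ?_, ?_, ?_, ?_, ?_, ?_⟩
  · have h1 := card_closed h hz (Finset.mem_univ z) (fun _ _ _ => Finset.subset_univ _)
    rw [Finset.card_univ, h.ptcard, show e + 1 + 3 = e + 3 + 1 from rfl, th_succ] at h1
    have h2 : th n (e + 3) = (univ.filter (fun L : PtZ B z => L.1 ⊆ univ)).card := by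
      apply Nat.eq_of_mul_eq_mul_left (by omega : 0 < n)
      omega
    rw [h2, Finset.filter_true_of_mem (fun L _ => Finset.subset_univ _), Finset.card_univ]
  · have h1 := card_BlZ B z (fun _ => True)
    simp only [Finset.filter_true, and_true] at h1
    rw [← Finset.card_univ, h1, h.deg z]
  · intro i
    have h1 := card_closed h hz i.2 (hB i.1 i.2)
    rw [h.size, show e + 1 + 2 = e + 2 + 1 from rfl, th_succ] at h1
    apply Nat.eq_of_mul_eq_mul_left (by omega : 0 < n)
    change n * (univ.filter (fun L : PtZ B z => L.1 ⊆ B i.1)).card = _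
    omega
  · rintro ⟨L, y, hy, rfl⟩
    rw [← h.pair z y hy.symm]
    simp only [mem_BZ]
    refine Eq.trans ?_ ((card_BlZ B z (fun i => cl B {z, y} ⊆ B i)).trans ?_)
    · congr 1; ext i; simp only [mem_filter, mem_univ, true_and]
    congr 1
    ext i
    simp only [mem_filter, mem_univ, true_and, cl_sub_iff, pair_subset]
    tauto
  · rintro ⟨L, x, hx, rfl⟩ ⟨M, y, hy, rfl⟩ hne
    have hy' : y ∉ cl B {z, x} := by
      intro h1
      exact hne ((ptz_eq h hx hy).2 h1)
    rw [← h.blk_triple hx.symm (hz x hx) hy']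
    simp only [mem_BZ]
    refine Eq.trans ?_ ((card_BlZ B z (fun i => cl B {z, x} ⊆ B i ∧ cl B {z, y} ⊆ B i)).trans ?_)
    · congr 1; ext i; simp only [mem_filter, mem_univ, true_and]
    congr 1
    ext i
    simp only [mem_filter, mem_univ, true_and, cl_sub_iff, pair_subset, mem_blk, triple_subset]
    tauto
  · intro i j hij
    have hij' : i.1 ≠ j.1 := fun h1 => hij (BlZ.val_injective h1)
    have h1 := card_closed h hz (S := B i.1 ∩ B j.1) (mem_inter.2 ⟨i.2, j.2⟩)
      (fun y hy hne => Finset.subset_inter (hB _ i.2 y (mem_inter.1 hy).1 hne)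
        (hB _ j.2 y (mem_inter.1 hy).2 hne))
    rw [h.inter _ _ hij', show e + 1 + 1 = e + 1 + 1 from rfl, th_succ n (e + 1)] at h1
    apply Nat.eq_of_mul_eq_mul_left (by omega : 0 < n)
    have h2 : BZ B z i ∩ BZ B z j = univ.filter (fun L : PtZ B z => L.1 ⊆ B i.1 ∩ B j.1) := by
      ext L
      simp [Finset.subset_inter_iff]
    rw [h2]
    omega

/-- closures in the quotient -/
theorem mem_clZ {x y : V} (hx : x ≠ z) (hy : y ≠ z) {K : PtZ B z} :
    K ∈ cl (BZ B z) {ptz B z x hx, ptz B z y hy} ↔ K.1 ⊆ cl B {z, x, y} := by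
  rw [mem_cl]
  constructor
  · intro h1 p hp
    rw [mem_cl]
    intro i hi
    rw [triple_subset] at hi
    have h2 := h1 ⟨i, hi.1⟩ (by
      rw [pair_subset, mem_BZ, mem_BZ, ptz_sub hx hi.1, ptz_sub hy hi.1]
      exact hi.2)
    rw [mem_BZ] at h2
    exact h2 hp
  · intro h1 i hi
    rw [pair_subset, mem_BZ, mem_BZ, ptz_sub hx i.2, ptz_sub hy i.2] at hi
    rw [mem_BZ]
    exact h1.trans (cl_subset (triple_subset.2 ⟨i.2, hi⟩))

/-- closures of three points in the quotient -/
theorem mem_clZ3 {x y w : V} (hx : x ≠ z) (hy : y ≠ z) (hw : w ≠ z) {K : PtZ B z} :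
    K ∈ cl (BZ B z) {ptz B z x hx, ptz B z y hy, ptz B z w hw} ↔ K.1 ⊆ cl B {z, x, y, w} := by
  rw [mem_cl]
  constructor
  · intro h1 p hp
    rw [mem_cl]
    intro i hi
    rw [Finset.insert_subset_iff, triple_subset] at hi
    have h2 := h1 ⟨i, hi.1⟩ (by
      rw [triple_subset, mem_BZ, mem_BZ, mem_BZ, ptz_sub hx hi.1, ptz_sub hy hi.1,
        ptz_sub hw hi.1]
      exact hi.2)
    rw [mem_BZ] at h2
    exact h2 hp
  · intro h1 i hi
    rw [triple_subset, mem_BZ, mem_BZ, mem_BZ, ptz_sub hx i.2, ptz_sub hy i.2,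
      ptz_sub hw i.2] at hi
    rw [mem_BZ]
    refine h1.trans (cl_subset ?_)
    rw [Finset.insert_subset_iff, triple_subset]
    exact ⟨i.2, hi⟩

/-- size of a plane through `z` -/
theorem card_plane (h : Des n e B) (hz : Perf n B z) {x y : V} (hx : x ≠ z) (hy : y ≠ z) :
    (cl B {z, x, y}).card = n * (cl (BZ B z) {ptz B z x hx, ptz B z y hy}).card + 1 := by
  rw [card_closed h hz (S := cl B {z, x, y}) (subset_cl _ (by simp))
    (fun p hp _ => cl_le (pair_subset.2 ⟨subset_cl _ (by simp), hp⟩))]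
  congr 3
  ext K
  rw [mem_clZ hx hy]
  simp

theorem goodZ_iff (h : Des n e B) (hz : Perf n B z) {x y : V} (hx : x ≠ z) (hy : y ≠ z) :
    Good n (BZ B z) (ptz B z x hx) (ptz B z y hy) ↔ (cl B {z, x, y}).card = n * n + n + 1 := by
  rw [card_plane h hz hx hy]
  unfold Good
  have hn := h.hn
  constructor
  · intro h1; rw [h1]; ring
  · intro h1
    apply Nat.eq_of_mul_eq_mul_left (by omega : 0 < n)
    nlinarith

/-- planes through a line with two perfect points are good -/
theorem perfZ_of_two (h : Des n (e + 1) B) (hz : Perf n B z) {w : V} (hw : Perf n B w)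
    (hwz : w ≠ z) : Perf n (BZ B z) (ptz B z w hwz) := by
  rintro ⟨M, y, hy, rfl⟩ hne
  have hy' : y ∉ cl B {z, w} := by
    intro h1
    exact hne ((ptz_eq h hy hwz).2 (by
      have h2 := h.line_eq hwz.symm (left_mem z w) h1 hy.symm
      rw [h2]; exact right_mem z w))
  have hyw : y ≠ w := by rintro rfl; exact hy' (right_mem z y)
  change Good n (BZ B z) (ptz B z w hwz) (ptz B z y hy)
  have hle := (desZ h hz).line_le (x := ptz B z w hwz) (y := ptz B z y hy) (by
    intro h1; exact hy' ((ptz_eq h hwz hy).1 h1))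
  refine le_antisymm hle ?_
  -- the `n + 1` lines joining `z` to the points of the line `w y`
  have hzwy : z ∉ cl B {w, y} := by
    intro h1
    apply hy'
    have h2 := h.line_eq (x' := z) (y' := w) hyw.symm h1 (left_mem w y) hwz.symm
    rw [h2]; exact right_mem w y
  have h1 : (cl B {w, y}).card = n + 1 := hw y hyw
  rw [← h1]
  apply Finset.card_le_card_of_injOn
    (fun p => if hp : p ≠ z then ptz B z p hp else ptz B z w hwz)
  · intro p hp
    rw [mem_coe] at hp
    have hpz : p ≠ z := by rintro rfl; exact hzwy hp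
    simp only [dif_pos hpz, mem_coe]
    rw [mem_clZ]
    change cl B {z, p} ⊆ _
    refine cl_le (pair_subset.2 ⟨subset_cl _ (by simp), ?_⟩)
    exact cl_mono (by intro a ha; simp at ha ⊢; tauto) hp
  · intro p hp q hq hpq
    rw [mem_coe] at hp hq
    have hpz : p ≠ z := by rintro rfl; exact hzwy hp
    have hqz : q ≠ z := by rintro rfl; exact hzwy hq
    simp only [dif_pos hpz, dif_pos hqz] at hpq
    rw [ptz_eq h] at hpq
    by_contra hne'
    apply hzwy
    have h2 := h.line_eq hyw.symm hp hq hne'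
    have h3 := h.line_eq (x' := p) (y' := q) hpz.symm (right_mem z p) hpq hne'
    rw [← h2, h3]
    exact left_mem z p

/-- the number of the perfect points of the quotient -/
theorem card_perfZ (h : Des n (e + 1) B) (hz : Perf n B z) :
    (perf n B).card ≤ n * (perf n (BZ B z)).card + 1 := by
  have hzm : z ∈ perf n B := mem_perf.2 hz
  rw [← Finset.card_erase_add_one hzm]
  apply Nat.add_le_add_right
  have h1 : ((perf n B).erase z).card =
      ∑ L ∈ (perf n (BZ B z)).image PtZ.val,
        (((perf n B).erase z).filter fun y => cl B {z, y} = L).card := by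
    apply Finset.card_eq_sum_card_fiberwise
    intro y hy
    rw [mem_coe, mem_erase, mem_perf] at hy
    rw [mem_coe, mem_image]
    exact ⟨ptz B z y hy.1, mem_perf.2 (perfZ_of_two h hz hy.2 hy.1), rfl⟩
  rw [h1]
  have h2 : ∀ L ∈ (perf n (BZ B z)).image PtZ.val,
      (((perf n B).erase z).filter fun y => cl B {z, y} = L).card ≤ n := by
    intro L hL
    rw [mem_image] at hL
    obtain ⟨⟨L, y, hy, rfl⟩, hL, rfl⟩ := hL
    have h3 : (((perf n B).erase z).filter fun y' => cl B {z, y'} = cl B {z, y}) ⊆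
        (cl B {z, y}).erase z := by
      intro y'
      simp only [mem_filter, mem_erase]
      rintro ⟨⟨h4, h5⟩, h6⟩
      exact ⟨h4, h6 ▸ right_mem z y'⟩
    refine (Finset.card_le_card h3).trans ?_
    rw [Finset.card_erase_of_mem (left_mem z y), hz y hy]
    simp
  refine (Finset.sum_le_sum h2).trans ?_
  rw [Finset.sum_const, smul_eq_mul, Finset.card_image_of_injective _ PtZ.val_injective,
    mul_comm]

end Pool.Agent.N337.MJ
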