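import Pool.Agent.N337.MJ.Defs

set_option autoImplicit false
set_option linter.unusedSectionVars false
set_option linter.unusedVariables false

/-!
# From the usual definition of a symmetric design to `Des`
-/

namespace Pool.Agent.N337.MJ

open Finset
open scoped Classical

variable {V ι : Type} [Fintype V] [Fintype ι] {n e : ℕ} {B : ι → Finset V}

/-- counting the pairs `(y, i)` with `x, y ∈ B i` -/
theorem rys_key {v k lam : ℕ} (hk2 : 2 ≤ k) (hV : Fintype.card V = v)
    (hsz : ∀ i, (B i).card = k)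
    (hp : ∀ x y, x ≠ y → (univ.filter (fun i => x ∈ B i ∧ y ∈ B i)).card = lam) (x : V) :
    (univ.filter (fun i => x ∈ B i)).card * (k - 1) = (v - 1) * lam := by
  have h1 := sum_inter (B := B) (univ.filter (fun i => x ∈ B i)) (univ.erase x)
  have h2 : ∑ y ∈ univ.erase x, ((univ.filter (fun i => x ∈ B i)).filter
      fun i => y ∈ B i).card = (v - 1) * lam := by
    rw [Finset.sum_congr rfl (g := fun _ => lam)]
    · rw [Finset.sum_const, Finset.card_erase_of_mem (Finset.mem_univ x), Finset.card_univ, hV,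
        smul_eq_mul]
    · intro y hy
      rw [Finset.filter_filter]
      exact hp x y (Finset.ne_of_mem_erase hy).symm
  rw [h2] at h1
  rw [← h1, Finset.sum_congr rfl (g := fun _ => k - 1)]
  · rw [Finset.sum_const, smul_eq_mul]
  · intro i hi
    rw [mem_filter] at hi
    have h3 : B i ∩ univ.erase x = (B i).erase x := by
      ext y; simp [and_comm]
    rw [h3, Finset.card_erase_of_mem hi.2, hsz]

/-- every point is in `k` blocks -/
theorem rys_deg {v k lam : ℕ} (hk2 : 2 ≤ k) (hV : Fintype.card V = v) (hι : Fintype.card ι = v)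
    (hsz : ∀ i, (B i).card = k)
    (hp : ∀ x y, x ≠ y → (univ.filter (fun i => x ∈ B i ∧ y ∈ B i)).card = lam) (x : V) :
    (univ.filter (fun i => x ∈ B i)).card = k := by
  have key := rys_key hk2 hV hsz hp
  have hsum := sum_inter (B := B) univ (univ : Finset V)
  have h4 : ∑ i, (B i ∩ univ).card = v * k := by
    rw [Finset.sum_congr rfl (g := fun _ => k)]
    · rw [Finset.sum_const, Finset.card_univ, hι, smul_eq_mul]
    · intro i _
      rw [Finset.inter_univ, hsz]
  rw [h4] at hsum
  have h5 : ∀ y : V, (univ.filter (fun i => y ∈ B i)).card =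
      (univ.filter (fun i => x ∈ B i)).card := by
    intro y
    apply Nat.eq_of_mul_eq_mul_right (by omega : 0 < k - 1)
    rw [key, key]
  rw [Finset.sum_congr rfl (fun y _ => h5 y), Finset.sum_const, Finset.card_univ, hV,
    smul_eq_mul] at hsum
  have hvpos : 0 < v := hV ▸ Fintype.card_pos_iff.2 ⟨x⟩
  exact (Nat.eq_of_mul_eq_mul_left hvpos hsum).symm

/-- two blocks meet in `lam` points -/
theorem rys_inter {v k lam : ℕ} (hk2 : 2 ≤ k) (hV : Fintype.card V = v) (hι : Fintype.card ι = v)
    (hsz : ∀ i, (B i).card = k)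
    (hp : ∀ x y, x ≠ y → (univ.filter (fun i => x ∈ B i ∧ y ∈ B i)).card = lam)
    (hvl : lam * (v - 1) = k * (k - 1)) {i j : ι} (hij : i ≠ j) : (B i ∩ B j).card = lam := by
  have hdeg := rys_deg hk2 hV hι hsz hp
  have hvpos : 0 < v := hι ▸ Fintype.card_pos_iff.2 ⟨i⟩
  -- first moment
  have h1 : ∑ j ∈ univ.erase i, (B i ∩ B j).card + k = k * k := by
    have h := sum_inter (B := B) univ (B i)
    rw [Finset.sum_congr rfl (fun x _ => hdeg x), Finset.sum_const, smul_eq_mul, hsz i] at h
    rw [← h, ← Finset.sum_erase_add _ _ (Finset.mem_univ i), Finset.inter_self, hsz i]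
    congr 1
    exact Finset.sum_congr rfl fun j _ => by rw [Finset.inter_comm]
  -- second moment
  have h2 : ∑ j ∈ univ.erase i, (B i ∩ B j).card ^ 2 + k ^ 2 = k * k + k * (k - 1) * lam := by
    have h3 : ∑ j, (B i ∩ B j).card ^ 2 = k * k + k * (k - 1) * lam := by
      have h4 : ∀ j, (B i ∩ B j).card ^ 2 =
          ∑ x ∈ B i, ∑ y ∈ B i, if x ∈ B j ∧ y ∈ B j then 1 else 0 := by
        intro j
        have h5 : (B i ∩ B j).card = ∑ x ∈ B i, if x ∈ B j then 1 else 0 := by
          rw [← Finset.card_filter]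
          congr 1
        rw [sq, h5, Finset.sum_mul_sum]
        refine Finset.sum_congr rfl fun x _ => Finset.sum_congr rfl fun y _ => ?_
        by_cases hx : x ∈ B j <;> by_cases hy : y ∈ B j <;> simp [hx, hy]
      simp_rw [h4]
      rw [Finset.sum_comm]
      have h6 : ∀ x ∈ B i, ∑ j, ∑ y ∈ B i, (if x ∈ B j ∧ y ∈ B j then 1 else 0) =
          k + (k - 1) * lam := by
        intro x hx
        rw [Finset.sum_comm, ← Finset.add_sum_erase _ _ hx]
        congr 1
        · rw [← Finset.card_filter]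
          simp only [and_self]
          exact hdeg x
        · rw [Finset.sum_congr rfl (g := fun _ => lam)]
          · rw [Finset.sum_const, Finset.card_erase_of_mem hx, hsz, smul_eq_mul]
          · intro y hy
            rw [← Finset.card_filter]
            exact hp x y (Finset.ne_of_mem_erase hy).symm
      rw [Finset.sum_congr rfl h6, Finset.sum_const, smul_eq_mul, hsz]
      ring
    rw [← h3, ← Finset.sum_erase_add _ _ (Finset.mem_univ i), Finset.inter_self, hsz i]
  have hc : (univ.erase i).card = v - 1 := by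
    rw [Finset.card_erase_of_mem (Finset.mem_univ i), Finset.card_univ, hι]
  have h7 : ∑ j ∈ univ.erase i, (((B i ∩ B j).card : ℤ) - lam) ^ 2 = 0 := by
    have e1 : ∑ j ∈ univ.erase i, (((B i ∩ B j).card : ℤ) - lam) ^ 2 =
        ∑ j ∈ univ.erase i, ((B i ∩ B j).card : ℤ) ^ 2
          - 2 * lam * ∑ j ∈ univ.erase i, ((B i ∩ B j).card : ℤ) + ((v - 1 : ℕ) : ℤ) * lam ^ 2 := by
      rw [Finset.mul_sum, ← Finset.sum_sub_distrib, ← hc, ← nsmul_eq_mul, ← Finset.sum_const,
        ← Finset.sum_add_distrib]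
      refine Finset.sum_congr rfl fun j _ => ?_
      ring
    rw [e1]
    zify at h1 h2 hvl
    have hk1 : ((k - 1 : ℕ) : ℤ) = (k : ℤ) - 1 := by push_cast [Nat.cast_sub (by omega : 1 ≤ k)]; ring
    rw [hk1] at h2 hvl
    have e2 : ∑ j ∈ univ.erase i, ((B i ∩ B j).card : ℤ) = k * k - k := by linarith
    have e3 : ∑ j ∈ univ.erase i, ((B i ∩ B j).card : ℤ) ^ 2 = k * (k - 1) * lam := by linarith
    rw [e2, e3]
    have e4 : ((v - 1 : ℕ) : ℤ) * lam ^ 2 = lam * (lam * ((v - 1 : ℕ) : ℤ)) := by ring
    rw [e4, hvl]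
    ring
  have h8 := (Finset.sum_eq_zero_iff_of_nonneg (fun j _ => sq_nonneg _)).1 h7 j
    (Finset.mem_erase.2 ⟨hij.symm, Finset.mem_univ j⟩)
  have h9 : ((B i ∩ B j).card : ℤ) - lam = 0 := by
    exact pow_eq_zero_iff (two_ne_zero) |>.1 h8
  omega

/-- the parameters of projective spaces -/
theorem th_param (n e : ℕ) :
    th n (e + 1) * (th n (e + 3) - 1) = th n (e + 2) * (th n (e + 2) - 1) := by
  have h1 : th n (e + 3) - 1 = n * th n (e + 2) := by
    rw [show e + 3 = (e + 2) + 1 from rfl, th_succ]; omega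
  have h2 : th n (e + 2) - 1 = n * th n (e + 1) := by
    rw [show e + 2 = (e + 1) + 1 from rfl, th_succ]; omega
  rw [h1, h2]
  ring

/-- **A symmetric design with the right parameters is `Des`.** -/
theorem des_of (hn : 2 ≤ n) (hV : Fintype.card V = th n (e + 3)) (hι : Fintype.card ι = th n (e + 3))
    (hsz : ∀ i, (B i).card = th n (e + 2))
    (hp : ∀ x y, x ≠ y → (univ.filter (fun i => x ∈ B i ∧ y ∈ B i)).card = th n (e + 1)) :
    Des n e B := by
  have hk2 : 2 ≤ th n (e + 2) := by
    rw [show e + 2 = (e + 1) + 1 from rfl, th_succ]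
    have := Nat.mul_pos (by omega : 0 < n) (th_pos n e)
    omega
  exact ⟨hn, hV, hι, hsz, rys_deg hk2 hV hι hsz hp, hp,
    fun i j hij => rys_inter hk2 hV hι hsz hp (th_param n e) hij⟩

end Pool.Agent.N337.MJ
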