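import Pool.Agent.N337.MJ.Fin
import Pool.Agent.N337.MJ.PGex

set_option autoImplicit false
set_option linter.unusedSectionVars false
set_option linter.unusedVariables false

/-!
# Transport of designs
-/

namespace Pool.Agent.N337.MJ

open Finset
open scoped Classical

variable {V ι V' ι' : Type} [Fintype V] [Fintype ι] [Fintype V'] [Fintype ι'] {n e : ℕ}
  {B : ι → Finset V}

/-- the transported blocks -/
noncomputable def trB (B : ι → Finset V) (f : V ≃ V') (g : ι ≃ ι') : ι' → Finset V' :=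
  fun i => (B (g.symm i)).map f.toEmbedding

theorem mem_trB (f : V ≃ V') (g : ι ≃ ι') {x : V'} {i : ι'} :
    x ∈ trB B f g i ↔ f.symm x ∈ B (g.symm i) := by
  rw [trB, Finset.mem_map_equiv]

theorem card_filter_tr {α β : Type} [Fintype α] [Fintype β] (g : α ≃ β) (P : α → Prop) :
    (univ.filter fun b : β => P (g.symm b)).card = (univ.filter fun a : α => P a).card := by
  rw [← Finset.card_map g.symm.toEmbedding]
  congr 1
  ext a
  rw [Finset.mem_map_equiv]
  simp

theorem cl_tr (f : V ≃ V') (g : ι ≃ ι') (x y : V) :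
    cl (trB B f g) {f x, f y} = (cl B {x, y}).map f.toEmbedding := by
  ext z
  rw [Finset.mem_map_equiv, mem_line, mem_line]
  constructor
  · intro h i h1 h2
    have h3 := h (g i)
    rw [mem_trB, mem_trB, mem_trB] at h3
    simp only [Equiv.symm_apply_apply] at h3
    exact h3 h1 h2
  · intro h i h1 h2
    rw [mem_trB] at h1 h2 ⊢
    simp only [Equiv.symm_apply_apply] at h1 h2
    exact h _ h1 h2

theorem good_tr (f : V ≃ V') (g : ι ≃ ι') (x y : V) :
    Good n (trB B f g) (f x) (f y) ↔ Good n B x y := by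
  unfold Good
  rw [cl_tr, Finset.card_map]

theorem bad_tr (f : V ≃ V') (g : ι ≃ ι') (x : V) :
    (bad n (trB B f g) (f x)).card = (bad n B x).card := by
  have h1 : bad n (trB B f g) (f x) = (bad n B x).map f.toEmbedding := by
    ext y
    obtain ⟨y, rfl⟩ := f.surjective y
    rw [Finset.mem_map_equiv, bad, bad, mem_filter, mem_filter, good_tr, f.symm_apply_apply]
    simp
  rw [h1, Finset.card_map]

theorem des_tr (h : Des n e B) (f : V ≃ V') (g : ι ≃ ι') : Des n e (trB B f g) := by
  refine ⟨h.hn, ?_, ?_, ?_, ?_, ?_, ?_⟩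
  · rw [← h.ptcard]; exact (Fintype.card_congr f).symm
  · rw [← h.blcard]; exact (Fintype.card_congr g).symm
  · intro i
    rw [trB, Finset.card_map, h.size]
  · intro x
    rw [← h.deg (f.symm x)]
    refine Eq.trans ?_ ((card_filter_tr g (fun i => f.symm x ∈ B i)).trans ?_)
    · congr 1; ext i; simp only [mem_filter, mem_trB]
    · congr 1; ext i; simp only [mem_filter]
  · intro x y hxy
    rw [← h.pair (f.symm x) (f.symm y) (fun h1 => hxy (f.symm.injective h1))]
    refine Eq.trans ?_ ((card_filter_tr g (fun i => f.symm x ∈ B i ∧ f.symm y ∈ B i)).trans ?_)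
    · congr 1; ext i; simp only [mem_filter, mem_trB]
    · congr 1; ext i; simp only [mem_filter]
  · intro i j hij
    rw [← h.inter (g.symm i) (g.symm j) (fun h1 => hij (g.symm.injective h1)),
      ← Finset.card_map f.toEmbedding (s := B (g.symm i) ∩ B (g.symm j)), Finset.map_inter]
    rfl

/-- counting pairs -/
theorem sum_bad (B : ι → Finset V) :
    ∑ x, (bad n B x).card =
      (univ.filter fun p : V × V => p.1 ≠ p.2 ∧ ¬ Good n B p.1 p.2).card := by
  rw [Finset.card_filter, Fintype.sum_prod_type]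
  refine Finset.sum_congr rfl fun x _ => ?_
  rw [bad, Finset.card_filter]
  refine Finset.sum_congr rfl fun y _ => ?_
  simp only [ne_comm]

/-- the examples, on `Fin v` -/
theorem examples (hkan : StKan) (q : ℕ) (hq : IsPrimePow q) :
    ∃ (v : ℕ) (B : Fin v → Finset (Fin v)), v = q ^ 3 + q ^ 2 + q + 1 ∧ Des q 1 B ∧
      (∃ u, (bad q B u).card = 2 * q ^ 2) ∧ ∑ u, (bad q B u).card = 2 * (q ^ 5 + q ^ 4) := by
  obtain ⟨V, ι, iV, iι, B, hB, hall⟩ := exPG q 1 hq
  obtain ⟨B', hB', ⟨u, hu⟩, hsum, -⟩ := hkan hB hall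
  have hv : Fintype.card V = q ^ 3 + q ^ 2 + q + 1 := by
    rw [hB'.ptcard, show 1 + 3 = 0 + 1 + 1 + 1 + 1 from rfl, th_succ, th_succ, th_succ, th_succ,
      th_zero]
    ring
  have hι : Fintype.card ι = q ^ 3 + q ^ 2 + q + 1 := by
    rw [← hv, hB'.ptcard, hB'.blcard]
  have f : V ≃ Fin (q ^ 3 + q ^ 2 + q + 1) := Fintype.equivFinOfCardEq hv
  have g : ι ≃ Fin (q ^ 3 + q ^ 2 + q + 1) := Fintype.equivFinOfCardEq hι
  refine ⟨_, trB B' f g, rfl, des_tr hB' f g, ⟨f u, ?_⟩, ?_⟩
  · rw [bad_tr]; exact hu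
  · rw [← f.sum_comp]
    simp only [bad_tr]
    rw [sum_bad]
    exact hsum

end Pool.Agent.N337.MJ
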